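import Pool.Agent.W_7742aa_h70.Val

/-! The first case: means over the conjugates, at the primes. -/

set_option autoImplicit false

noncomputable section

namespace Pool.Agent.H70A

open Filter Topology ComplexConjugate Pool.Agent.GL74
open Pool.Agent.H74E (pk pk_nonneg pk_eq)
open Pool.Agent.H74E.SatakeSystem (ind ind_pos ind_neg ind_nonneg ind_le_one)
open Pool.Agent.H74V.SatakeSystem (tin_eq family_asy family_one ts primeSum pS_eq lt_two ind_summable)

variable {F : Type} [Field F] [NumberField F] {π : AdjointSystem F}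

namespace AdjointSystem

lemma sq_sum_re {ι : Type} [Fintype ι] (c : ℝ) (f : ι → ℂ) (g : ι → ℝ)
    (h : ∀ i, f i = ((g i : ℝ) : ℂ)) : ‖∑ i, (c : ℂ) * f i‖ ^ 2 = (c * ∑ i, g i) ^ 2 := by
  have h1 : ∑ i, (c : ℂ) * f i = ((c * ∑ i, g i : ℝ) : ℂ) := by
    rw [← Finset.mul_sum, Finset.sum_congr rfl fun i _ => h i]
    push_cast
    rfl
  rw [h1, Complex.norm_real, Real.norm_eq_abs, sq_abs]

/-- The pointwise inequality. -/
lemma pointA {ι : Type} [Fintype ι] {a : ι → F →+* ℂ} (hs : ∀ σ : F →+* ℂ, π.IsSquareModulus σ)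
    {p : ℕ} (hp : π.Good p) {d d5 : ℝ} (hd : (Fintype.card (F →+* ℂ) : ℝ) = d) (hd0 : 0 < d)
    (hd5 : (Fintype.card ι : ℝ) = d5) (hd50 : 0 < d5) :
    7 / 3 ≤ (1 / d5 * ∑ i, (π.r (a i) p ^ 2 - 3 * π.r (a i) p + 1)) ^ 2 +
      4 / 3 * (1 / d * ∑ σ, (π.r σ p - 1)) ^ 2 + 4 / 3 * (1 / d * ∑ σ, π.r σ p) := by
  have hS : 1 / d * ∑ σ, (π.r σ p - 1) = 1 / d * ∑ σ, π.r σ p - 1 := by
    rw [Finset.sum_sub_distrib, Finset.sum_const, Finset.card_univ, nsmul_eq_mul, hd]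
    field_simp
  rw [hS]
  by_cases h0 : π.b p = 0
  · have h1 : ∀ σ, π.r σ p = 0 := by
      intro σ
      unfold r
      rw [h0, map_zero, Complex.zero_re]
    simp only [h1]
    norm_num [Finset.sum_const, Finset.card_univ, hd5, hd50.ne']
  by_cases h1 : π.b p = 1
  · have h2 : ∀ σ, π.r σ p = 1 := by
      intro σ
      unfold r
      rw [h1, map_one, Complex.one_re]
    simp only [h2]
    have e1 : 1 / d * ∑ _σ : F →+* ℂ, (1 : ℝ) = 1 := by
      rw [Finset.sum_const, Finset.card_univ, nsmul_eq_mul, hd]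
      field_simp
    have e2 : 1 / d5 * ∑ _i : ι, ((1 : ℝ) ^ 2 - 3 * 1 + 1) = -1 := by
      rw [Finset.sum_const, Finset.card_univ, nsmul_eq_mul, hd5]
      field_simp
      norm_num
    rw [e1, e2]
    norm_num
  · have h2 := Pool.Agent.H74E.siegel (π.integral p hp.1 hp.2) h0 h1 (r := fun σ => π.r σ p)
      (fun σ => r_eq (hs σ) hp) (fun σ => r_nonneg (hs σ) hp)
    rw [hd] at h2
    have h3 : 3 / 2 ≤ 1 / d * ∑ σ, π.r σ p := by
      rw [one_div, inv_mul_eq_div, le_div_iff₀ hd0]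
      exact h2
    nlinarith [sq_nonneg (1 / d5 * ∑ i, (π.r (a i) p ^ 2 - 3 * π.r (a i) p + 1))]

theorem caseA (hg : π.Generates) (hs : ∀ σ : F →+* ℂ, π.IsSquareModulus σ)
    (hAd : π.ad.IsCuspidalFamily) (hSym : π.sym.IsCuspidalFamily) :
    1 ≤ 1 / (Module.finrank ℚ π.E5 : ℝ) + 4 / 3 * (1 / (Module.finrank ℚ F : ℝ)) := by
  classical
  by_contra hcon
  push Not at hcon
  set d : ℝ := (Module.finrank ℚ F : ℝ) with hd
  set d5 : ℝ := (Module.finrank ℚ π.E5 : ℝ) with hd5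
  have hd0 : 0 < d := by
    rw [hd]
    exact_mod_cast Module.finrank_pos
  have hd50 : 0 < d5 := by
    rw [hd5]
    exact_mod_cast Module.finrank_pos
  have hc : (Fintype.card (F →+* ℂ) : ℝ) = d := by rw [NumberField.Embeddings.card F ℂ]
  have hc5 : (Fintype.card (π.E5 →+* ℂ) : ℝ) = d5 := by rw [NumberField.Embeddings.card π.E5 ℂ]
  choose lift hlift using exists_lift π.E5
  obtain ⟨C0, h0⟩ := good_ge π.level_pos
  choose Cb hb using fun σ : F →+* ℂ => b_mean (hs σ)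
  obtain ⟨C2, hC2⟩ := moment (ι := F →+* ℂ) (fun σ => π.ad.ts σ)
    (fun σ => family_one (by norm_num) hAd σ) (fun σ τ hne => ad_asy hg hAd hne)
    (fun _ => ((1 / d : ℝ) : ℂ))
  obtain ⟨C1, hC1⟩ := moment (ι := π.E5 →+* ℂ) (fun τ => π.sym.ts (lift τ))
    (fun τ => family_one (by norm_num) hSym (lift τ))
    (fun τ τ' hne => by
      refine sym_asy hSym ?_
      by_contra hcon
      push Not at hcon
      apply hne
      ext x
      rw [← hlift τ x, ← hlift τ' x]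
      exact hcon x x.2) (fun _ => ((1 / d5 : ℝ) : ℂ))
  have ea2 : ∑ _σ : F →+* ℂ, ‖((1 / d : ℝ) : ℂ)‖ ^ 2 = 1 / d := by
    rw [Finset.sum_const, Finset.card_univ, nsmul_eq_mul, hc, Complex.norm_real, Real.norm_eq_abs,
      sq_abs]
    field_simp
  have ea1 : ∑ _τ : π.E5 →+* ℂ, ‖((1 / d5 : ℝ) : ℂ)‖ ^ 2 = 1 / d5 := by
    rw [Finset.sum_const, Finset.card_univ, nsmul_eq_mul, hc5, Complex.norm_real,
      Real.norm_eq_abs, sq_abs]
    field_simp
  refine no_bound (c := 1 - (1 / d5 + 4 / 3 * (1 / d)))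
    (C := 7 / 3 * C0 + C1 + 4 / 3 * C2 + 4 / 3 * (1 / d * ∑ σ, Cb σ)) (by linarith) ?_
  filter_upwards [h0, lt_two, self_mem_nhdsWithin] with s e0 e1 e2
  have hs1 : (1 : ℝ) < s := e2
  obtain ⟨m1, n1⟩ := hC1 s hs1 e1.le
  obtain ⟨m2, n2⟩ := hC2 s hs1 e1.le
  rw [ea1] at n1
  rw [ea2] at n2
  obtain ⟨m1', n1'⟩ := restrict (T := fun x => ‖∑ τ, ((1 / d5 : ℝ) : ℂ) * π.sym.ts (lift τ) x‖ ^ 2)
    (fun x => sq_nonneg _) m1
  obtain ⟨m2', n2'⟩ := restrict (T := fun x => ‖∑ σ, ((1 / d : ℝ) : ℂ) * π.ad.ts σ x‖ ^ 2)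
    (fun x => sq_nonneg _) m2
  have m3 : HasSum (fun p : Nat.Primes => ∑ σ : F →+* ℂ,
      (if π.Good p then (σ (π.b p)).re else 0) * ((p : ℕ) : ℝ) ^ (-s))
      (∑ σ : F →+* ℂ, ∑' p : Nat.Primes,
        (if π.Good p then (σ (π.b p)).re else 0) * ((p : ℕ) : ℝ) ^ (-s)) :=
    hasSum_sum fun σ _ => (hb σ s hs1 e1.le).1.hasSum
  have n3 : ∑ σ : F →+* ℂ, ∑' p : Nat.Primes,
        (if π.Good p then (σ (π.b p)).re else 0) * ((p : ℕ) : ℝ) ^ (-s) ≤
        d * LL s + ∑ σ, Cb σ := by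
    refine (Finset.sum_le_sum fun σ _ => (hb σ s hs1 e1.le).2).trans (le_of_eq ?_)
    rw [Finset.sum_add_distrib, Finset.sum_const, Finset.card_univ, nsmul_eq_mul, hc]
  have key := hasSum_le (fun p : Nat.Primes => ?_)
    ((ind_summable (fun p => p.Prime ∧ ¬ p ∣ π.level) hs1).hasSum.mul_left (7 / 3))
    ((m1'.hasSum.add (m2'.hasSum.mul_left (4 / 3))).add (m3.mul_left (4 / 3 * (1 / d))))
  · rw [pS_eq] at e0
    have n4 := mul_le_mul_of_nonneg_left n3 (show 0 ≤ 4 / 3 * (1 / d) by positivity)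
    have e4 : 4 / 3 * (1 / d) * (d * LL s + ∑ σ, Cb σ) =
        4 / 3 * LL s + 4 / 3 * (1 / d * ∑ σ, Cb σ) := by
      field_simp
    rw [e4] at n4
    unfold LL at *
    linarith
  · have hpos : (0 : ℝ) ≤ ((p : ℕ) : ℝ) ^ (-s) := by positivity
    by_cases hp : π.Good p
    · rw [ind_pos (P := fun p => p.Prime ∧ ¬ p ∣ π.level) hp]
      simp only [if_pos hp]
      rw [sq_sum_re (1 / d5) (fun τ => π.sym.ts (lift τ) (p, 0))
        (fun τ => π.r (lift τ) p ^ 2 - 3 * π.r (lift τ) p + 1) (fun τ => by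
          rw [sym_ts hSym (hs _) (x := (p, 0)) hp]
          simp only [zero_add, bw_one]),
        sq_sum_re (1 / d) (fun σ => π.ad.ts σ (p, 0)) (fun σ => π.r σ p - 1) (fun σ => by
          rw [ad_ts hAd (hs _) (x := (p, 0)) hp]
          simp only [zero_add, bw_one])]
      have h1 := mul_le_mul_of_nonneg_right (pointA (a := lift) hs hp hc hd0 hc5 hd50) hpos
      rw [← Finset.sum_mul]
      have e3 : ∑ σ : F →+* ℂ, (σ (π.b p)).re = ∑ σ, π.r σ p := rfl
      rw [e3]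
      linarith
    · rw [ind_neg (P := fun p => p.Prime ∧ ¬ p ∣ π.level) hp]
      simp only [if_neg hp, zero_mul, mul_zero, Finset.sum_const_zero, add_zero]
      positivity

end AdjointSystem

end Pool.Agent.H70A
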