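import Pool.Agent.W_7742aa_h70.Val
import Pool.Agent.W_7742w_h74.SieB

/-! The second case: quadratic fields, all prime powers. -/

set_option autoImplicit false

noncomputable section

namespace Pool.Agent.H70A

open Filter Topology ComplexConjugate Pool.Agent.GL74
open Pool.Agent.H74E (pk pk_nonneg pk_eq)
open Pool.Agent.H74E.SatakeSystem (ind ind_pos ind_neg ind_nonneg ind_le_one)
open Pool.Agent.H74V.SatakeSystem (tin_eq family_asy family_one ts primeSum pS_eq lt_two ind_summable)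

/-! ## Arithmetic -/

lemma int_ineq {y c : ℤ} (h : ¬ (2 : ℤ) ∣ y - c) :
    16 + 4 * c ^ 2 * y ^ 2 ≤ (y ^ 2 + 5 * c ^ 2 - 5) ^ 2 + 16 * c ^ 2 := by
  rcases lt_trichotomy c 0 with hc | hc | hc
  · rcases eq_or_lt_of_le (show c ≤ -1 by omega) with h1 | h1
    · subst h1
      have hy : y ^ 2 = 0 ∨ 4 ≤ y ^ 2 := by
        by_cases h0 : y = 0
        · left; rw [h0]; rfl
        · right
          have : y ≤ -2 ∨ 2 ≤ y := by omega
          rcases this with h2 | h2 <;> nlinarith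
      rcases hy with hy | hy <;> nlinarith
    · have h2 : 4 ≤ c ^ 2 := by nlinarith
      nlinarith [sq_nonneg (y ^ 2 - (5 * c ^ 2 - 5)), mul_nonneg (sq_nonneg y) (show 0 ≤ c ^ 2 - 4 by linarith)]
  · subst hc
    have hy : y ^ 2 = 1 ∨ 9 ≤ y ^ 2 := by
      have : y ≤ -3 ∨ y = -1 ∨ y = 1 ∨ 3 ≤ y := by omega
      rcases this with h2 | h2 | h2 | h2
      · right; nlinarith
      · left; rw [h2]; rfl
      · left; rw [h2]; rfl
      · right; nlinarith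
    rcases hy with hy | hy <;> nlinarith
  · rcases eq_or_lt_of_le (show 1 ≤ c by omega) with h1 | h1
    · subst h1
      have hy : y ^ 2 = 0 ∨ 4 ≤ y ^ 2 := by
        by_cases h0 : y = 0
        · left; rw [h0]; rfl
        · right
          have : y ≤ -2 ∨ 2 ≤ y := by omega
          rcases this with h2 | h2 <;> nlinarith
      rcases hy with hy | hy <;> nlinarith
    · have h2 : 4 ≤ c ^ 2 := by nlinarith
      nlinarith [sq_nonneg (y ^ 2 - (5 * c ^ 2 - 5)), mul_nonneg (sq_nonneg y) (show 0 ≤ c ^ 2 - 4 by linarith)]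

/-- The pointwise inequality for conjugate algebraic integers of `ℚ(√5)`. -/
lemma real_ineq {r₁ r₂ : ℝ} {t N c : ℤ} (h1 : r₁ + r₂ = t) (h2 : r₁ * r₂ = N)
    (h3 : t ^ 2 - 4 * N = 5 * c ^ 2) :
    1 + 3 / 10 * ((r₁ ^ 2 - 3 * r₁ + 1) - (r₂ ^ 2 - 3 * r₂ + 1)) ^ 2 ≤
      1 / 2 * ((r₁ ^ 2 - 3 * r₁ + 1) ^ 2 + (r₂ ^ 2 - 3 * r₂ + 1) ^ 2) + 1 / 5 * (r₁ - r₂) ^ 2 := by
  have hpar : ¬ (2 : ℤ) ∣ (t - 3) - c := by
    intro ⟨k, hk⟩
    have e : t = c + 3 + 2 * k := by linarith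
    rw [e] at h3
    have : (4 : ℤ) * (c ^ 2 - (3 + 2 * k) ^ 2 + N) = 2 * c * (3 + 2 * k) - (3 + 2 * k) ^ 2 * 3 := by
      ring_nf at h3 ⊢
      linarith
    have h5 : (2 : ℤ) * (2 * (c ^ 2 - (3 + 2 * k) ^ 2 + N) - c * (3 + 2 * k) + 3 * (4 + 6 * k + 2 * k ^ 2) ) =
      - 3 := by
      ring_nf at this ⊢
      linarith
    omega
  have h4 := int_ineq hpar
  have h4' : (16 : ℝ) + 4 * (c : ℝ) ^ 2 * ((t : ℝ) - 3) ^ 2 ≤
      (((t : ℝ) - 3) ^ 2 + 5 * (c : ℝ) ^ 2 - 5) ^ 2 + 16 * (c : ℝ) ^ 2 := by exact_mod_cast h4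
  have h3' : (t : ℝ) ^ 2 - 4 * N = 5 * (c : ℝ) ^ 2 := by exact_mod_cast h3
  have e1 : (r₁ - r₂) ^ 2 = 5 * (c : ℝ) ^ 2 := by
    rw [← h3', ← h1, ← h2]
    ring
  have e2 : (r₁ ^ 2 - 3 * r₁ + 1) - (r₂ ^ 2 - 3 * r₂ + 1) = (r₁ - r₂) * ((t : ℝ) - 3) := by
    rw [← h1]
    ring
  have e3 : (r₁ ^ 2 - 3 * r₁ + 1) + (r₂ ^ 2 - 3 * r₂ + 1) =
      (((t : ℝ) - 3) ^ 2 + 5 * (c : ℝ) ^ 2 - 5) / 2 := by
    rw [← e1, ← h1]
    ring
  have e4 : (r₁ ^ 2 - 3 * r₁ + 1) ^ 2 + (r₂ ^ 2 - 3 * r₂ + 1) ^ 2 =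
      (((r₁ ^ 2 - 3 * r₁ + 1) + (r₂ ^ 2 - 3 * r₂ + 1)) ^ 2 +
        ((r₁ ^ 2 - 3 * r₁ + 1) - (r₂ ^ 2 - 3 * r₂ + 1)) ^ 2) / 2 := by ring
  rw [e4, e3, e2, mul_pow, e1]
  nlinarith

variable {F : Type} [Field F] [NumberField F] {π : AdjointSystem F}

lemma int_of_rat_integral {q : ℚ} {z : ℂ} (hz : IsIntegral ℤ z) (h : z = (q : ℂ)) :
    ∃ m : ℤ, (m : ℚ) = q := by
  have h1 : IsIntegral ℤ (algebraMap ℚ ℂ q) := by
    have : algebraMap ℚ ℂ q = z := by rw [h]; rfl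
    rw [this]
    exact hz
  have h2 : IsIntegral ℤ q := (isIntegral_algebraMap_iff (algebraMap ℚ ℂ).injective).1 h1
  obtain ⟨m, hm⟩ := IsIntegrallyClosed.isIntegral_iff.1 h2
  exact ⟨m, by simpa using hm⟩

lemma trace_int {z : F} (hz : IsIntegral ℤ z) : ∃ m : ℤ, ∑ σ : F →+* ℂ, σ z = (m : ℂ) := by
  rw [Pool.Agent.H74W.sum_emb_eq_trace]
  obtain ⟨m, hm⟩ := IsIntegrallyClosed.isIntegral_iff.1 (Algebra.isIntegral_trace (L := ℚ) (F := F) hz)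
  refine ⟨m, ?_⟩
  rw [← hm]
  simp

/-- Integers of a quadratic field which contains a square root of `5`. -/
lemma quad_int {σ₁ σ₂ : F →+* ℂ} (hsum : ∀ y : F, ∑ σ : F →+* ℂ, σ y = σ₁ y + σ₂ y)
    {r5 : F} (hr : r5 ^ 2 = 5) {z : F} (hz : IsIntegral ℤ z) :
    ∃ t N c : ℤ, σ₁ z + σ₂ z = t ∧ σ₁ z * σ₂ z = N ∧ t ^ 2 - 4 * N = 5 * c ^ 2 := by
  have h5 : IsIntegral ℤ r5 := by
    refine IsIntegral.of_pow (n := 2) (by norm_num) ?_
    rw [hr]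
    have := isIntegral_algebraMap (R := ℤ) (A := F) (x := 5)
    simpa using this
  -- `σ₂ r5 = - σ₁ r5`
  have hq1 : (σ₁ r5) ^ 2 = 5 := by rw [← map_pow, hr, map_ofNat]
  have hq2 : (σ₂ r5) ^ 2 = 5 := by rw [← map_pow, hr, map_ofNat]
  have hneg : σ₂ r5 = -σ₁ r5 := by
    rcases sq_eq_sq_iff_eq_or_eq_neg.1 (hq2.trans hq1.symm) with h | h
    · exfalso
      obtain ⟨m, hm⟩ := trace_int h5
      rw [hsum, h] at hm
      have h1 : ((m : ℂ)) ^ 2 = 20 := by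
        rw [← hm]
        linear_combination 4 * hq1
      have h2 : m ^ 2 = 20 := by exact_mod_cast h1
      have h3 : m ≤ 4 := by nlinarith
      have h4 : -4 ≤ m := by nlinarith
      interval_cases m <;> omega
    · exact h
  obtain ⟨t, ht⟩ := trace_int hz
  obtain ⟨m, hm⟩ := trace_int (h5.mul hz)
  rw [hsum] at ht hm
  rw [map_mul, map_mul, hneg] at hm
  -- the norm
  have hN : ∃ N : ℤ, σ₁ z * σ₂ z = N := by
    obtain ⟨t2, ht2⟩ := trace_int (hz.pow 2)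
    rw [hsum, map_pow, map_pow] at ht2
    have h1 : σ₁ z * σ₂ z = (((t : ℚ) ^ 2 - t2) / 2 : ℚ) := by
      push_cast
      rw [← ht, ← ht2]
      ring
    obtain ⟨N, hN⟩ := int_of_rat_integral
      ((map_isIntegral_int σ₁ hz).mul (map_isIntegral_int σ₂ hz)) h1
    refine ⟨N, ?_⟩
    rw [h1, ← hN]
    simp
  obtain ⟨N, hN⟩ := hN
  have h1 : ((m : ℂ)) ^ 2 = 5 * ((t : ℂ) ^ 2 - 4 * N) := by
    rw [← hm, ← ht, ← hN]
    linear_combination (σ₁ z - σ₂ z) ^ 2 * hq1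
  have h2 : m ^ 2 = 5 * (t ^ 2 - 4 * N) := by exact_mod_cast h1
  have h3 : (5 : ℤ) ∣ m := by
    have : Prime (5 : ℤ) := Int.prime_iff_natAbs_prime.2 (by norm_num)
    exact this.dvd_of_dvd_pow (Dvd.intro _ h2.symm)
  obtain ⟨c, rfl⟩ := h3
  refine ⟨t, N, c, ht, hN, ?_⟩
  nlinarith

namespace AdjointSystem

theorem caseB (hg : π.Generates) (hs : ∀ σ : F →+* ℂ, π.IsSquareModulus σ)
    (hAd : π.ad.IsCuspidalFamily) (hSym : π.sym.IsCuspidalFamily)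
    (hd : Module.finrank ℚ F = 2) {r5 : F} (hr : r5 ^ 2 = 5) (hE : π.E5 = ⊤) : False := by
  classical
  have hcard : (Finset.univ : Finset (F →+* ℂ)).card = 2 := by
    rw [Finset.card_univ, NumberField.Embeddings.card F ℂ, hd]
  obtain ⟨σ₁, σ₂, hne, huniv⟩ := Finset.card_eq_two.1 hcard
  have hP : PairAsy (π.sym.ts σ₁) (π.sym.ts σ₂) := by
    refine sym_asy hSym ?_
    by_contra hcon
    push Not at hcon
    apply hne
    ext x
    exact hcon x (by rw [hE]; trivial)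
  have hsum : ∀ y : F, ∑ σ : F →+* ℂ, σ y = σ₁ y + σ₂ y := fun y => by
    rw [huniv, Finset.sum_pair hne]
  obtain ⟨C1, h1⟩ := pair_diff hP
  obtain ⟨C2, h2⟩ := pair_diff (ad_asy hg hAd hne)
  obtain ⟨C3, h3⟩ := family_one (by norm_num) hSym σ₁
  obtain ⟨C4, h4⟩ := family_one (by norm_num) hSym σ₂
  obtain ⟨C0, h0⟩ := good_ge π.level_pos
  refine no_bound (c := 1 / 5) (C := C0 + 3 / 10 * C1 + 1 / 5 * C2 + 1 / 2 * (C3 + C4))
    (by norm_num) ?_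
  filter_upwards [h0, lt_two, self_mem_nhdsWithin] with s e0 e1 e2
  have hs1 : (1 : ℝ) < s := e2
  obtain ⟨a1, b1⟩ := h1 s hs1 e1.le
  obtain ⟨a2, b2⟩ := h2 s hs1 e1.le
  obtain ⟨a3, b3⟩ := h3 s hs1 e1.le
  obtain ⟨a4, b4⟩ := h4 s hs1 e1.le
  have m0 : Summable fun x : Nat.Primes × ℕ =>
      ind (fun p => p.Prime ∧ ¬ p ∣ π.level) x.1 * pk s x :=
    Summable.of_nonneg_of_le (fun x => mul_nonneg (ind_nonneg _ _) (pk_nonneg s x))
      (fun x => mul_le_of_le_one_left (pk_nonneg s x) (ind_le_one _ _)) (H74E.summable_pk hs1)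
  obtain ⟨-, n0⟩ := restrict (T := fun x => ind (fun p => p.Prime ∧ ¬ p ∣ π.level) x.1)
    (fun x => ind_nonneg _ _) m0
  have key := hasSum_le (fun x : Nat.Primes × ℕ => ?_)
    (m0.hasSum.add (a1.hasSum.mul_left (3 / 10)))
    (((a3.hasSum.add a4.hasSum).mul_left (1 / 2)).add (a2.hasSum.mul_left (1 / 5)))
  · rw [pS_eq] at e0
    simp only at n0
    have b1' := (abs_le.1 b1).1
    have b2' := (abs_le.1 b2).2
    unfold LL at *
    linarith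
  · have hpos := pk_nonneg s x
    by_cases hx : π.Good x.1
    · rw [ind_pos (P := fun p => p.Prime ∧ ¬ p ∣ π.level) hx, sym_ts hSym (hs σ₁) hx,
        sym_ts hSym (hs σ₂) hx, ad_ts hAd (hs σ₁) hx, ad_ts hAd (hs σ₂) hx]
      obtain ⟨t, N, c, q1, q2, q3⟩ := quad_int hsum hr
        (bw_integral (π.integral x.1 hx.1 hx.2) (x.2 + 1))
      rw [r_bw (hs σ₁) hx, r_bw (hs σ₂) hx] at q1 q2
      have q1' : bw (π.r σ₁ x.1) (x.2 + 1) + bw (π.r σ₂ x.1) (x.2 + 1) = t := by exact_mod_cast q1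
      have q2' : bw (π.r σ₁ x.1) (x.2 + 1) * bw (π.r σ₂ x.1) (x.2 + 1) = N := by exact_mod_cast q2
      have h5 := mul_le_mul_of_nonneg_right (real_ineq q1' q2' q3) hpos
      simp only [← Complex.ofReal_sub, Complex.norm_real, Real.norm_eq_abs, sq_abs]
      have e3 : bw (π.r σ₁ x.1) (x.2 + 1) - 1 - (bw (π.r σ₂ x.1) (x.2 + 1) - 1) =
          bw (π.r σ₁ x.1) (x.2 + 1) - bw (π.r σ₂ x.1) (x.2 + 1) := by ring
      rw [e3]
      linarith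
    · rw [ind_neg (P := fun p => p.Prime ∧ ¬ p ∣ π.level) hx, sym_ts_bad σ₁ hx, sym_ts_bad σ₂ hx,
        ad_ts_bad σ₁ hx, ad_ts_bad σ₂ hx]
      simp

end AdjointSystem

end Pool.Agent.H70A
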