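import Pool.Agent.W_7742aa_h70.CaseA
import Pool.Agent.W_7742aa_h70.CaseB
import Pool.Agent.W_7742v_h74.Van

/-! The field is `ℚ(√5)`. -/

set_option autoImplicit false

noncomputable section

namespace Pool.Agent.H70A

open Filter Topology ComplexConjugate Pool.Agent.GL74
open Pool.Agent.H74V.SatakeSystem (isCuspidal_of_family)

variable {F : Type} [Field F] [NumberField F] {π : AdjointSystem F}

namespace AdjointSystem

/-- There is a prime such that the trace on `GL₅` vanishes. -/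
theorem exists_golden (hSym : π.sym.IsCuspidalFamily) :
    ∃ p, π.Good p ∧ π.b p ^ 2 - 3 * π.b p + 1 = 0 := by
  by_contra hcon
  have h := (H74V.SatakeSystem.vanishing (π := π.sym) (by norm_num)
    (fun σ => isCuspidal_of_family hSym σ)).1
  apply h
  have he : IsEmpty {p : ℕ // π.sym.Good p ∧ (π.sym.A p).trace = 0} := by
    refine ⟨fun p => hcon ⟨p.1, p.2.1, ?_⟩⟩
    have h1 : (symMat (π.b p.1)).trace = 0 := p.2.2
    have h2 := symMat_trace (π.b p.1) 1
    rw [pow_one, h1, bw_one] at h2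
    exact h2.symm
  exact summable_empty

lemma sq_five {b : F} (h : b ^ 2 - 3 * b + 1 = 0) : (2 * b - 3) ^ 2 = 5 := by
  linear_combination 4 * h

theorem E5_bot (hg : π.Generates) (hs : ∀ σ : F →+* ℂ, π.IsSquareModulus σ)
    (hAd : π.ad.IsCuspidalFamily) (hSym : π.sym.IsCuspidalFamily) : π.E5 = ⊥ := by
  obtain ⟨p0, hp0, hb0⟩ := exists_golden hSym
  have hA := caseA hg hs hAd hSym
  have hmul := Module.finrank_mul_finrank ℚ π.E5 F
  have h5pos : 0 < Module.finrank ℚ π.E5 := Module.finrank_pos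
  have hFpos : 0 < Module.finrank π.E5 F := Module.finrank_pos
  by_contra hne
  have h1 : Module.finrank ℚ π.E5 ≠ 1 := fun h => hne (IntermediateField.finrank_eq_one_iff.1 h)
  have hle : Module.finrank ℚ π.E5 ≤ Module.finrank ℚ F := by
    rw [← hmul]
    exact Nat.le_mul_of_pos_right _ hFpos
  rcases (show Module.finrank ℚ π.E5 = 2 ∨ 3 ≤ Module.finrank ℚ π.E5 by omega) with h2 | h3
  · rcases (show Module.finrank π.E5 F = 1 ∨ 2 ≤ Module.finrank π.E5 F by omega) with h4 | h4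
    · exact caseB hg hs hAd hSym (by rw [← hmul, h2, h4]) (sq_five hb0)
        (IntermediateField.finrank_eq_one_iff_eq_top.1 h4)
    · have h5 : 4 ≤ Module.finrank ℚ F := by
        rw [← hmul, h2]
        omega
      have h6 : (4 : ℝ) ≤ (Module.finrank ℚ F : ℝ) := by exact_mod_cast h5
      have h7 : 1 / (Module.finrank ℚ F : ℝ) ≤ 1 / 4 := one_div_le_one_div_of_le (by norm_num) h6
      rw [h2] at hA
      push_cast at hA
      linarith
  · have h6 : (3 : ℝ) ≤ (Module.finrank ℚ π.E5 : ℝ) := by exact_mod_cast h3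
    have h7 : 1 / (Module.finrank ℚ π.E5 : ℝ) ≤ 1 / 3 := one_div_le_one_div_of_le (by norm_num) h6
    have h8 : (3 : ℝ) ≤ (Module.finrank ℚ F : ℝ) := by exact_mod_cast h3.trans hle
    have h9 : 1 / (Module.finrank ℚ F : ℝ) ≤ 1 / 3 := one_div_le_one_div_of_le (by norm_num) h8
    linarith

/-- The values. -/
theorem values (hs : ∀ σ : F →+* ℂ, π.IsSquareModulus σ) (hE : π.E5 = ⊥) {p : ℕ}
    (hp : π.Good p) : (∃ m : ℕ, π.b p = m) ∨ π.b p ^ 2 - 3 * π.b p + 1 = 0 := by
  by_cases h0 : π.b p ^ 2 - 3 * π.b p + 1 = 0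
  · exact Or.inr h0
  left
  have hmem : ∀ i, (symMat (π.b p)).charpoly.coeff i ∈ (⊥ : IntermediateField ℚ F) := by
    intro i
    rw [← hE]
    exact IntermediateField.subset_adjoin _ _ ⟨p, i, hp, rfl⟩
  obtain ⟨q4, h4⟩ := IntermediateField.mem_bot.1 (hmem 4)
  obtain ⟨q3, h3⟩ := IntermediateField.mem_bot.1 (hmem 3)
  rw [symMat_coeff4] at h4
  rw [symMat_coeff3] at h3
  have hq4 : algebraMap ℚ F q4 ≠ 0 := by
    rw [h4]
    exact neg_ne_zero.2 h0
  have hb : π.b p = algebraMap ℚ F (2 - q3 / q4) := by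
    rw [map_sub, map_div₀, map_ofNat, h3]
    field_simp
    rw [h4]
    ring
  have hi : IsIntegral ℤ (2 - q3 / q4) := by
    have h1 := π.integral p hp.1 hp.2
    rw [hb] at h1
    exact (isIntegral_algebraMap_iff (algebraMap ℚ F).injective).1 h1
  obtain ⟨m, hm⟩ := IsIntegrallyClosed.isIntegral_iff.1 hi
  have hb' : π.b p = (m : F) := by
    rw [hb, ← hm]
    simp
  obtain ⟨σ⟩ : Nonempty (F →+* ℂ) := inferInstance
  have h5 := r_nonneg (hs σ) hp
  have h6 : π.r σ p = (m : ℝ) := by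
    unfold r
    rw [hb', map_intCast, Complex.intCast_re]
  rw [h6] at h5
  have h7 : 0 ≤ m := by exact_mod_cast h5
  refine ⟨m.toNat, ?_⟩
  rw [hb']
  have : ((m.toNat : ℤ) : F) = (m : F) := by rw [Int.toNat_of_nonneg h7]
  rw [← this, Int.cast_natCast]

theorem adjoin_top (hg : π.Generates) (hs : ∀ σ : F →+* ℂ, π.IsSquareModulus σ) (hE : π.E5 = ⊥)
    {r : F} (hr : r ^ 2 = 5) : IntermediateField.adjoin ℚ {r} = ⊤ := by
  rw [eq_top_iff, ← hg, IntermediateField.adjoin_le_iff]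
  rintro x ⟨p, hp, rfl⟩
  have hmem := IntermediateField.mem_adjoin_simple_self ℚ r
  rcases values hs hE hp with ⟨m, hm⟩ | h
  · rw [hm]
    exact natCast_mem _ m
  · have h1 := sq_five h
    rcases sq_eq_sq_iff_eq_or_eq_neg.1 (h1.trans hr.symm) with h2 | h2
    · have h3 : π.b p = (r + 3) / 2 := by linear_combination (1 / 2 : F) * h2
      rw [h3]
      exact div_mem (add_mem hmem (ofNat_mem _ 3)) (ofNat_mem _ 2)
    · have h3 : π.b p = (-r + 3) / 2 := by linear_combination (1 / 2 : F) * h2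
      rw [h3]
      exact div_mem (add_mem (neg_mem hmem) (ofNat_mem _ 3)) (ofNat_mem _ 2)

/-- There are two embeddings. -/
theorem exists_ne {r : F} (hr : r ^ 2 = 5) : ∃ σ₁ σ₂ : F →+* ℂ, σ₁ ≠ σ₂ := by
  by_contra hcon
  push Not at hcon
  obtain ⟨σ⟩ : Nonempty (F →+* ℂ) := inferInstance
  have h5 : IsIntegral ℤ r := by
    refine IsIntegral.of_pow (n := 2) (by norm_num) ?_
    rw [hr]
    have := isIntegral_algebraMap (R := ℤ) (A := F) (x := 5)
    simpa using this
  obtain ⟨m, hm⟩ := trace_int h5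
  have hu : (Finset.univ : Finset (F →+* ℂ)) = {σ} := by
    ext τ
    simp [hcon τ σ]
  rw [hu, Finset.sum_singleton] at hm
  have h1 : (m : ℂ) ^ 2 = 5 := by rw [← hm, ← map_pow, hr, map_ofNat]
  have h2 : m ^ 2 = 5 := by exact_mod_cast h1
  have h3 : m ≤ 2 := by nlinarith
  have h4 : -2 ≤ m := by nlinarith
  interval_cases m <;> omega

/-- The conjugates of the golden elements. -/
theorem golden_pair (hg : π.Generates) (hs : ∀ σ : F →+* ℂ, π.IsSquareModulus σ)
    (hE : π.E5 = ⊥) {σ₁ σ₂ : F →+* ℂ} (hne : σ₁ ≠ σ₂) {p : ℕ} (hp : π.Good p)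
    (h : π.b p ^ 2 - 3 * π.b p + 1 = 0) :
    π.r σ₁ p ^ 2 - 3 * π.r σ₁ p + 1 = 0 ∧ π.r σ₂ p ^ 2 - 3 * π.r σ₂ p + 1 = 0 ∧
      π.r σ₁ p + π.r σ₂ p = 3 := by
  have key : ∀ σ, π.r σ p ^ 2 - 3 * π.r σ p + 1 = 0 := by
    intro σ
    have h1 := congrArg σ h
    rw [map_add, map_sub, map_mul, map_pow, map_one, map_ofNat, map_zero, r_eq (hs σ) hp] at h1
    exact_mod_cast h1
  refine ⟨key σ₁, key σ₂, ?_⟩
  have h1 := sq_five h
  have hq1 : (2 * π.r σ₁ p - 3) ^ 2 = 5 := by linear_combination 4 * key σ₁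
  have hq2 : (2 * π.r σ₂ p - 3) ^ 2 = 5 := by linear_combination 4 * key σ₂
  rcases sq_eq_sq_iff_eq_or_eq_neg.1 (hq1.trans hq2.symm) with h2 | h2
  · exfalso
    apply hne
    ext x
    refine Pool.Agent.H74W.Agr_adjoin (S := {2 * π.b p - 3}) ?_ x ?_
    · rintro y hy
      rw [Set.mem_singleton_iff.1 hy]
      simp only [map_sub, map_mul, map_ofNat]
      rw [r_eq (hs σ₁) hp, r_eq (hs σ₂) hp]
      exact_mod_cast h2
    · rw [adjoin_top hg hs hE h1]
      trivial
  · linarith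

end AdjointSystem

end Pool.Agent.H70A
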