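import Pool.Agent.W_7742aa_h70.Dir

/-! Products of two Legendre symbols. -/

set_option autoImplicit false

noncomputable section

namespace Pool.Agent.H70A

open Filter Topology
open Pool.Agent.H74E.SatakeSystem (ind ind_pos ind_neg ind_nonneg ind_le_one)
open Pool.Agent.H74V.SatakeSystem (primeSum pS_eq pS_true pS_mono ind_summable lt_two pS_large)

/-- The quadratic character of level `q`. -/
def qchar (q : ℕ) [Fact q.Prime] : DirichletCharacter ℂ q :=
  (quadraticChar (ZMod q)).ringHomComp (Int.castRingHom ℂ)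

lemma qchar_apply (q : ℕ) [Fact q.Prime] (p : ℕ) :
    qchar q (p : ZMod q) = ((jacobiSym p q : ℤ) : ℂ) := by
  rw [← jacobiSym.legendreSym.to_jacobiSym]
  unfold legendreSym qchar
  simp

lemma exists_char {q q' : ℕ} (hq : q.Prime) (hq' : q'.Prime) (hne : q ≠ q') (h2 : q ≠ 2) :
    ∃ ψ : DirichletCharacter ℂ (q * q'), ψ ≠ 1 ∧
      ∀ p : ℕ, ψ p = ((((jacobiSym p q * jacobiSym p q' : ℤ)) : ℝ) : ℂ) := by
  have hf : Fact q.Prime := ⟨hq⟩
  have hf' : Fact q'.Prime := ⟨hq'⟩
  set ψ : DirichletCharacter ℂ (q * q') :=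
    DirichletCharacter.changeLevel (dvd_mul_right q q') (qchar q) *
      DirichletCharacter.changeLevel (dvd_mul_left q' q) (qchar q') with hψ
  have hval : ∀ p : ℕ, ψ p = ((((jacobiSym p q * jacobiSym p q' : ℤ)) : ℝ) : ℂ) := by
    intro p
    by_cases hp : IsUnit ((p : ℕ) : ZMod (q * q'))
    · obtain ⟨u, hu⟩ := hp
      have e1 : DirichletCharacter.changeLevel (dvd_mul_right q q') (qchar q) (u : ZMod (q * q')) =
          qchar q (p : ZMod q) := by
        rw [DirichletCharacter.changeLevel_eq_cast_of_dvd, hu, ZMod.cast_natCast (dvd_mul_right q q')]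
      have e2 : DirichletCharacter.changeLevel (dvd_mul_left q' q) (qchar q') (u : ZMod (q * q')) =
          qchar q' (p : ZMod q') := by
        rw [DirichletCharacter.changeLevel_eq_cast_of_dvd, hu, ZMod.cast_natCast (dvd_mul_left q' q)]
      rw [← hu, hψ, MulChar.mul_apply, e1, e2, qchar_apply, qchar_apply]
      push_cast
      rfl
    · rw [MulChar.map_nonunit _ hp]
      have h3 : ¬ Nat.Coprime p (q * q') := fun h => hp ((ZMod.isUnit_iff_coprime p _).2 h)
      rw [Nat.coprime_mul_iff_right, not_and_or] at h3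
      rcases h3 with h3 | h3
      · have : jacobiSym p q = 0 := by
          have : NeZero q := ⟨hq.ne_zero⟩
          refine jacobiSym.eq_zero_iff_not_coprime.2 ?_
          rwa [Int.gcd_natCast_natCast]
        rw [this]
        simp
      · have : jacobiSym p q' = 0 := by
          have : NeZero q' := ⟨hq'.ne_zero⟩
          refine jacobiSym.eq_zero_iff_not_coprime.2 ?_
          rwa [Int.gcd_natCast_natCast]
        rw [this]
        simp
  refine ⟨ψ, ?_, hval⟩
  intro h1
  -- a value `-1`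
  obtain ⟨a, ha⟩ : ∃ a : ℕ, jacobiSym (a : ℤ) q = -1 := by
    obtain ⟨b, hb⟩ := FiniteField.exists_nonsquare (F := ZMod q) (by
      rw [ZMod.ringChar_zmod_n]
      exact h2)
    refine ⟨b.val, ?_⟩
    apply ZMod.nonsquare_iff_jacobiSym_eq_neg_one.2
    rw [Int.cast_natCast, ZMod.natCast_zmod_val]
    exact hb
  have hcop : Nat.Coprime q q' := (Nat.coprime_primes hq hq').2 hne
  obtain ⟨n, hn1, hn2⟩ := Nat.chineseRemainder hcop a 1
  have e1 : jacobiSym (n : ℤ) q = -1 := by
    rw [← ha]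
    apply jacobiSym.mod_left'
    have h5 : n % q = a % q := hn1
    exact_mod_cast h5
  have e2 : jacobiSym (n : ℤ) q' = 1 := by
    have h6 : jacobiSym (n : ℤ) q' = jacobiSym (1 : ℤ) q' := by
      apply jacobiSym.mod_left'
      have h5 : n % q' = 1 % q' := hn2
      exact_mod_cast h5
    rw [h6, jacobiSym.one_left]
  have h7 := hval n
  rw [e1, e2, h1] at h7
  by_cases hu : IsUnit ((n : ℕ) : ZMod (q * q'))
  · rw [MulChar.one_apply hu] at h7
    norm_num at h7
  · rw [MulChar.map_nonunit _ hu] at h7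
    norm_num at h7

lemma jac_abs (p q : ℕ) : |jacobiSym p q| ≤ 1 := by
  rcases jacobiSym.trichotomy (p : ℤ) q with h | h | h <;> rw [h] <;> norm_num

/-- The primes at which two Legendre symbols differ have lower density at least one half. -/
lemma differ_ge {N q q' : ℕ} (hN : 0 < N) (hq : q.Prime) (hq' : q'.Prime) (hne : q ≠ q')
    (h2 : q ≠ 2) (hqN : q ∣ N) (hqN' : q' ∣ N) :
    ∃ C : ℝ, ∀ᶠ s in 𝓝[>] (1 : ℝ), 1 / 2 * LL s ≤
      primeSum (fun p => p.Prime ∧ ¬ p ∣ N ∧ jacobiSym p q ≠ jacobiSym p q') s + C := by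
  obtain ⟨ψ, hψ1, hψ⟩ := exists_char hq hq' hne h2
  have hnz : NeZero (q * q') := ⟨mul_ne_zero hq.ne_zero hq'.ne_zero⟩
  have hr1 : ∀ p : ℕ, |((jacobiSym p q * jacobiSym p q' : ℤ) : ℝ)| ≤ 1 := by
    intro p
    have h3 : |jacobiSym p q * jacobiSym p q'| ≤ 1 := by
      rw [abs_mul]
      exact mul_le_one₀ (jac_abs p q) (abs_nonneg _) (jac_abs p q')
    exact_mod_cast h3
  obtain ⟨C, hC⟩ := char_sum_le ψ hψ1 (fun p => ((jacobiSym p q * jacobiSym p q' : ℤ) : ℝ)) hψ hr1
  obtain ⟨C0, hC0⟩ := Maass74.neg_log_le_primes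
  refine ⟨1 / 2 * (C + C0) + N.primeFactors.card, ?_⟩
  filter_upwards [hC, hC0, self_mem_nhdsWithin] with s h3 h4 h5
  have hs : (1 : ℝ) < s := h5
  have hbad := bad_le hN hs
  have hps := Nat.Primes.summable_rpow.2 (by linarith : -s < -1)
  have hsum1 : Summable fun p : Nat.Primes =>
      ((jacobiSym p q * jacobiSym p q' : ℤ) : ℝ) * ((p : ℕ) : ℝ) ^ (-s) := by
    refine Summable.of_norm_bounded hps fun p => ?_
    have hp0 : 0 ≤ ((p : ℕ) : ℝ) ^ (-s) := by positivity
    rw [Real.norm_eq_abs, abs_mul, abs_of_nonneg hp0]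
    calc _ ≤ 1 * ((p : ℕ) : ℝ) ^ (-s) := mul_le_mul_of_nonneg_right (hr1 p) hp0
      _ = _ := one_mul _
  have key := hasSum_le (fun p : Nat.Primes => ?_) (hps.hasSum.sub hsum1.hasSum)
    (((ind_summable (fun p => p.Prime ∧ ¬ p ∣ N ∧ jacobiSym p q ≠ jacobiSym p q') hs).hasSum.mul_left
      2).add ((ind_summable (fun p => p ∣ N) hs).hasSum.mul_left 2))
  · rw [← pS_eq, ← pS_eq] at key
    rw [LL_eq]
    linarith
  · have hpos : (0 : ℝ) ≤ ((p : ℕ) : ℝ) ^ (-s) := by positivity
    have n1 := mul_nonneg (ind_nonneg (fun p => p.Prime ∧ ¬ p ∣ N ∧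
      jacobiSym p q ≠ jacobiSym p q') p) hpos
    have n2 := mul_nonneg (ind_nonneg (fun p => p ∣ N) p) hpos
    have hb := abs_le.1 (hr1 p)
    by_cases hpN : (p : ℕ) ∣ N
    · rw [ind_pos (P := fun p => p ∣ N) hpN] at n2 ⊢
      nlinarith
    · have hcop : ∀ q : ℕ, q.Prime → q ∣ N → jacobiSym p q = 1 ∨ jacobiSym p q = -1 := by
        intro q hq hqN
        have : NeZero q := ⟨hq.ne_zero⟩
        refine jacobiSym.eq_one_or_neg_one ?_
        rw [Int.gcd_natCast_natCast]
        refine (Nat.coprime_primes p.2 hq).2 ?_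
        rintro rfl
        exact hpN hqN
      rcases hcop q hq hqN with h6 | h6 <;> rcases hcop q' hq' hqN' with h7 | h7
      · rw [h6, h7]
        push_cast
        nlinarith
      · rw [ind_pos (P := fun p => p.Prime ∧ ¬ p ∣ N ∧ jacobiSym p q ≠ jacobiSym p q')
          ⟨p.2, hpN, by rw [h6, h7]; norm_num⟩, h6, h7]
        push_cast
        nlinarith
      · rw [ind_pos (P := fun p => p.Prime ∧ ¬ p ∣ N ∧ jacobiSym p q ≠ jacobiSym p q')
          ⟨p.2, hpN, by rw [h6, h7]; norm_num⟩, h6, h7]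
        push_cast
        nlinarith
      · rw [h6, h7]
        push_cast
        nlinarith

end Pool.Agent.H70A
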