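import Pool.Agent.W_7742aa_h70.Twi

/-! Traces of the powers of `2 × 2` matrices and of their symmetric cubes. -/

set_option autoImplicit false

noncomputable section

namespace Pool.Agent.H70A

open ComplexConjugate

/-- The block diagonal matrix. -/
def blk4 {R : Type} [CommRing R] (P Q : Matrix (Fin 2) (Fin 2) R) : Matrix (Fin 4) (Fin 4) R :=
  !![P 0 0, P 0 1, 0, 0;
     P 1 0, P 1 1, 0, 0;
     0, 0, Q 0 0, Q 0 1;
     0, 0, Q 1 0, Q 1 1]

variable {R : Type} [CommRing R]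

lemma cubMat_eq (M : Matrix (Fin 2) (Fin 2) R) : cubMat M = blk4 (M ^ 3) (M.det • M) := by
  ext i j
  fin_cases i <;> fin_cases j <;> rfl

lemma blk4_one : blk4 (1 : Matrix (Fin 2) (Fin 2) R) 1 = 1 := by
  ext i j; fin_cases i <;> fin_cases j <;> simp [blk4]

lemma blk4_mul (P Q P' Q' : Matrix (Fin 2) (Fin 2) R) :
    blk4 (P * P') (Q * Q') = blk4 P Q * blk4 P' Q' := by
  ext i j
  fin_cases i <;> fin_cases j <;> simp [blk4, Matrix.mul_apply, Fin.sum_univ_succ]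

lemma blk4_pow (P Q : Matrix (Fin 2) (Fin 2) R) (k : ℕ) : blk4 P Q ^ k = blk4 (P ^ k) (Q ^ k) := by
  induction k with
  | zero => rw [pow_zero, pow_zero, pow_zero, blk4_one]
  | succ k ih => rw [pow_succ, pow_succ, pow_succ, ih, blk4_mul]

lemma blk4_trace (P Q : Matrix (Fin 2) (Fin 2) R) :
    (blk4 P Q).trace = P.trace + Q.trace := by
  simp [blk4, Matrix.trace, Fin.sum_univ_succ]
  ring

lemma cubMat_det (M : Matrix (Fin 2) (Fin 2) R) : (cubMat M).det = M.det ^ 6 := by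
  nontriviality R
  have h : cubMat M = Matrix.reindex finSumFinEquiv finSumFinEquiv
      (Matrix.fromBlocks (M ^ 3) 0 0 (M.det • M)) := by
    rw [cubMat_eq]
    ext i j
    fin_cases i <;> fin_cases j <;> rfl
  rw [h, Matrix.det_reindex_self, Matrix.det_fromBlocks_zero₁₂, Matrix.det_pow, Matrix.det_smul,
    Fintype.card_fin]
  ring

/-- The traces of the powers of a matrix of determinant `1`. -/
lemma trace_pow_of_det_one {M : Matrix (Fin 2) (Fin 2) R} (h : M.det = 1) (k : ℕ) :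
    (M ^ k).trace = cw M.trace k := by
  have hsq : M ^ 2 = M.trace • M - 1 := by
    rw [Matrix.det_fin_two] at h
    ext i j
    fin_cases i <;> fin_cases j <;>
      simp [sq, Matrix.mul_apply, Fin.sum_univ_succ, Matrix.trace] <;>
      first | linear_combination (-h) | ring
  induction k using Nat.twoStepInduction with
  | zero => simp [cw_zero]
  | one => simp [cw_one]
  | more k h1 h2 =>
    rw [cw_add_two, ← h1, ← h2, pow_add, hsq, mul_sub, mul_smul_comm, ← pow_succ, mul_one,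
      Matrix.trace_sub, Matrix.trace_smul, smul_eq_mul]

/-- The traces of the powers of a matrix over `ℂ`. -/
lemma trace_pow_omega {M : Matrix (Fin 2) (Fin 2) ℂ} {ω : ℂ} (hω : ω ^ 2 = M.det) (h0 : ω ≠ 0)
    (k : ℕ) : (M ^ k).trace = ω ^ k * cw (M.trace / ω) k := by
  set M0 : Matrix (Fin 2) (Fin 2) ℂ := ω⁻¹ • M with hM0
  have h1 : M = ω • M0 := by
    rw [hM0, smul_smul, mul_inv_cancel₀ h0, one_smul]
  have h2 : M0.det = 1 := by
    rw [hM0, Matrix.det_smul, Fintype.card_fin, ← hω, inv_pow, inv_mul_cancel₀ (pow_ne_zero 2 h0)]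
  have h3 : M0.trace = M.trace / ω := by
    rw [hM0, Matrix.trace_smul, smul_eq_mul, inv_mul_eq_div]
  rw [← h3, ← trace_pow_of_det_one h2]
  conv_lhs => rw [h1]
  rw [smul_pow, Matrix.trace_smul, smul_eq_mul]

/-- A unitary pair of eigenvalues: the trace divided by a square root of the determinant is real. -/
lemma real_of_unitary {τ δ ω : ℂ} (hω : ω ^ 2 = δ) (hδ : ‖δ‖ = 1) (hτ : τ = δ * conj τ) :
    ∃ x : ℝ, τ / ω = (x : ℂ) ∧ x ^ 2 = ‖τ‖ ^ 2 ∧ ‖ω‖ = 1 := by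
  have hω1 : ‖ω‖ = 1 := by
    have : ‖ω‖ ^ 2 = 1 := by rw [← norm_pow, hω, hδ]
    exact (pow_eq_one_iff_of_nonneg (norm_nonneg _) two_ne_zero).1 this
  have hω0 : ω ≠ 0 := by
    intro h
    rw [h, norm_zero] at hω1
    exact zero_ne_one hω1
  have hcω : conj ω = ω⁻¹ := by
    rw [Complex.inv_def, Complex.normSq_eq_norm_sq, hω1]
    simp
  have hq : τ / ω = ω * conj τ := by
    rw [div_eq_iff hω0]
    calc τ = δ * conj τ := hτ
      _ = ω * conj τ * ω := by rw [← hω]; ring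
  have hreal : conj (τ / ω) = τ / ω := by
    conv_lhs => rw [hq, map_mul, Complex.conj_conj, hcω]
    rw [inv_mul_eq_div]
  refine ⟨(τ / ω).re, (Complex.conj_eq_iff_re.1 hreal).symm, ?_, hω1⟩
  have h1 : ((τ / ω).re : ℂ) = τ / ω := Complex.conj_eq_iff_re.1 hreal
  have h2 : ‖((τ / ω).re : ℂ)‖ = ‖τ‖ := by
    rw [h1, norm_div, hω1, div_one]
  rw [← h2, Complex.norm_real, Real.norm_eq_abs, sq_abs]

lemma cw_ofReal (x : ℝ) (k : ℕ) : cw (x : ℂ) k = ((cw x k : ℝ) : ℂ) :=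
  (cw_map Complex.ofRealHom x k).symm

lemma cw_three (x : ℝ) (k : ℕ) : cw x (3 * k) = cw x k ^ 3 - 3 * cw x k := by
  unfold cw
  have h2 := Polynomial.Chebyshev.C_mul ℝ 3 (k : ℤ)
  push_cast
  rw [h2, Polynomial.eval_comp]
  have h3 : Polynomial.Chebyshev.C ℝ 3 = Polynomial.X ^ 3 - 3 * Polynomial.X := by
    have := Polynomial.Chebyshev.C_add_two ℝ 1
    norm_num at this
    rw [this, Polynomial.Chebyshev.C_two]
    ring
  rw [h3]
  simp

/-- `|tr M ^ k|²` in terms of `|tr M|²`. -/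
lemma norm_trace_pow {M : Matrix (Fin 2) (Fin 2) ℂ} (hδ : ‖M.det‖ = 1)
    (hτ : M.trace = M.det * conj M.trace) (k : ℕ) :
    ‖(M ^ k).trace‖ ^ 2 = bw (‖M.trace‖ ^ 2) k := by
  obtain ⟨ω, hω⟩ : ∃ ω : ℂ, ω ^ 2 = M.det := IsAlgClosed.exists_pow_nat_eq _ (by norm_num)
  obtain ⟨x, hx, hx2, hω1⟩ := real_of_unitary hω hδ hτ
  have hω0 : ω ≠ 0 := by
    intro h
    rw [h, norm_zero] at hω1
    exact zero_ne_one hω1
  rw [trace_pow_omega hω hω0, hx, cw_ofReal, norm_mul, norm_pow, hω1, one_pow, one_mul,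
    Complex.norm_real, Real.norm_eq_abs, sq_abs, ← hx2]
  unfold bw
  rw [cw_sq]
  ring

/-- `|tr Sym³ (M) ^ k|²` in terms of `|tr M|²`. -/
lemma norm_trace_cub {M : Matrix (Fin 2) (Fin 2) ℂ} (hδ : ‖M.det‖ = 1)
    (hτ : M.trace = M.det * conj M.trace) (k : ℕ) :
    ‖(cubMat M ^ k).trace‖ ^ 2 =
      bw (‖M.trace‖ ^ 2) k * (bw (‖M.trace‖ ^ 2) k - 2) ^ 2 := by
  obtain ⟨ω, hω⟩ : ∃ ω : ℂ, ω ^ 2 = M.det := IsAlgClosed.exists_pow_nat_eq _ (by norm_num)
  obtain ⟨x, hx, hx2, hω1⟩ := real_of_unitary hω hδ hτ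
  have hω0 : ω ≠ 0 := by
    intro h
    rw [h, norm_zero] at hω1
    exact zero_ne_one hω1
  have h1 : (cubMat M ^ k).trace = ω ^ (3 * k) * ((cw x (3 * k) + cw x k : ℝ) : ℂ) := by
    rw [cubMat_eq, blk4_pow, blk4_trace, ← pow_mul, trace_pow_omega hω hω0, smul_pow,
      Matrix.trace_smul, trace_pow_omega hω hω0, hx, cw_ofReal, cw_ofReal, ← hω, smul_eq_mul]
    push_cast
    ring
  rw [h1, norm_mul, norm_pow, hω1, one_pow, one_mul, Complex.norm_real, Real.norm_eq_abs, sq_abs,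
    ← hx2, cw_three]
  unfold bw
  rw [cw_sq]
  ring

end Pool.Agent.H70A
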