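import Mathlib

/-! Definitions for the statement: the Satake classes of the adjoint representations on `GL₃` and
`GL₅` of a form on `GL₂`. -/

set_option autoImplicit false

noncomputable section

namespace Pool.Agent.H70A

/-- The matrix `diag (1, M)`, where `M` has determinant `1` and trace `b - 2`.  If `α`, `β` are
complex numbers of product of absolute value `1` with `{α, β} = {1 / conj α, 1 / conj β}` and
`b = |α + β|²` then its eigenvalues are `1, α / β, β / α`. -/
def adMat {R : Type} [CommRing R] (b : R) : Matrix (Fin 3) (Fin 3) R :=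
  !![1, 0, 0;
     0, b - 2, -1;
     0, 1, 0]

/-- The matrix `diag (1, M, M²)`, where `M` has determinant `1` and trace `b - 2`.  If `α`, `β` are
as in `adMat` then its eigenvalues are `1, α / β, β / α, (α / β)², (β / α)²`. -/
def symMat {R : Type} [CommRing R] (b : R) : Matrix (Fin 5) (Fin 5) R :=
  !![1, 0, 0, 0, 0;
     0, b - 2, -1, 0, 0;
     0, 1, 0, 0, 0;
     0, 0, 0, (b - 2) ^ 2 - 1, -(b - 2);
     0, 0, 0, b - 2, -1]

end Pool.Agent.H70A
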