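import Pool.Agent.W_7742aa_h70.Sum

/-! A quadratic character takes the value `-1` at half of the primes. -/

set_option autoImplicit false

noncomputable section

namespace Pool.Agent.H70A

open Filter Topology ComplexConjugate
open Pool.Agent.H74E.SatakeSystem (ind ind_pos ind_neg ind_nonneg ind_le_one)
open Pool.Agent.H74V.SatakeSystem (primeSum pS_eq pS_true pS_mono ind_summable lt_two pS_large)

/-- The sum of the `ψ(p) p ^ (-s)` is bounded above for a nontrivial real character. -/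
lemma char_sum_le {N : ℕ} [NeZero N] (ψ : DirichletCharacter ℂ N) (hψ : ψ ≠ 1) (r : ℕ → ℝ)
    (hr : ∀ p : ℕ, ψ p = (r p : ℂ)) (hr1 : ∀ p, |r p| ≤ 1) :
    ∃ C : ℝ, ∀ᶠ s in 𝓝[>] (1 : ℝ), ∑' p : Nat.Primes, r p * ((p : ℕ) : ℝ) ^ (-s) ≤ C := by
  have hcont : ContinuousAt (fun s : ℝ => ‖ψ.LFunction (s : ℂ)‖) 1 := by
    have h1 : ContinuousAt ψ.LFunction ((1 : ℝ) : ℂ) :=
      (DirichletCharacter.differentiable_LFunction hψ).continuous.continuousAt
    exact (h1.comp Complex.continuous_ofReal.continuousAt).norm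
  have hlt : ∀ᶠ s : ℝ in 𝓝[>] (1 : ℝ), ‖ψ.LFunction (s : ℂ)‖ < ‖ψ.LFunction ((1 : ℝ) : ℂ)‖ + 1 :=
    (hcont.tendsto.mono_left nhdsWithin_le_nhds).eventually_lt_const (lt_add_one _)
  refine ⟨Real.log (‖ψ.LFunction ((1 : ℝ) : ℂ)‖ + 1), ?_⟩
  filter_upwards [hlt, self_mem_nhdsWithin] with s h1 h2
  have hs : (1 : ℝ) < s := h2
  have hs' : 1 < ((s : ℂ)).re := by simpa using hs
  have hexp := DirichletCharacter.LSeries_eulerProduct_exp_log ψ hs'
  rw [← DirichletCharacter.LFunction_eq_LSeries ψ hs'] at hexp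
  -- the real form of the sum
  have hp1 : ∀ p : Nat.Primes, ((p : ℕ) : ℝ) ^ (-s) ≤ 1 / 2 := by
    intro p
    have h2p : (2 : ℝ) ≤ ((p : ℕ) : ℝ) := by exact_mod_cast p.2.two_le
    calc ((p : ℕ) : ℝ) ^ (-s) ≤ (2 : ℝ) ^ (-s) :=
          Real.rpow_le_rpow_of_nonpos (by norm_num) h2p (by linarith)
      _ ≤ (2 : ℝ) ^ (-1 : ℝ) := Real.rpow_le_rpow_of_exponent_le (by norm_num) (by linarith)
      _ = 1 / 2 := by rw [Real.rpow_neg_one]; norm_num
  have hp0 : ∀ p : Nat.Primes, 0 < ((p : ℕ) : ℝ) ^ (-s) := fun p =>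
    Real.rpow_pos_of_pos (by exact_mod_cast p.2.pos) _
  have hz : ∀ p : Nat.Primes, |r p * ((p : ℕ) : ℝ) ^ (-s)| ≤ 1 / 2 := by
    intro p
    rw [abs_mul, abs_of_pos (hp0 p)]
    calc |r p| * ((p : ℕ) : ℝ) ^ (-s) ≤ 1 * ((p : ℕ) : ℝ) ^ (-s) :=
          mul_le_mul_of_nonneg_right (hr1 p) (hp0 p).le
      _ ≤ 1 / 2 := by rw [one_mul]; exact hp1 p
  have e1 : ∀ p : Nat.Primes, -Complex.log (1 - ψ p * ((p : ℕ) : ℂ) ^ (-(s : ℂ))) =
      ((-Real.log (1 - r p * ((p : ℕ) : ℝ) ^ (-s)) : ℝ) : ℂ) := by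
    intro p
    have hp : (0 : ℝ) ≤ ((p : ℕ) : ℝ) := by positivity
    have e : ((p : ℕ) : ℂ) ^ (-(s : ℂ)) = ((((p : ℕ) : ℝ) ^ (-s) : ℝ) : ℂ) := by
      rw [Complex.ofReal_cpow hp]
      push_cast
      rfl
    have h3 : (0 : ℝ) ≤ 1 - r p * ((p : ℕ) : ℝ) ^ (-s) := by
      have := (abs_le.1 (hz p)).2
      linarith
    rw [e, hr p, Complex.ofReal_neg, Complex.ofReal_log h3]
    push_cast
    rfl
  simp only [e1, ← Complex.ofReal_tsum, ← Complex.ofReal_exp] at hexp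
  have h4 : Real.exp (∑' p : Nat.Primes, -Real.log (1 - r p * ((p : ℕ) : ℝ) ^ (-s))) =
      ‖ψ.LFunction (s : ℂ)‖ := by
    rw [← hexp, Complex.norm_real, Real.norm_of_nonneg (Real.exp_pos _).le]
  have hps := Nat.Primes.summable_rpow.2 (by linarith : -s < -1)
  have hsum1 : Summable fun p : Nat.Primes => r p * ((p : ℕ) : ℝ) ^ (-s) := by
    refine Summable.of_norm_bounded hps fun p => ?_
    rw [Real.norm_eq_abs, abs_mul, abs_of_pos (hp0 p)]
    calc |r p| * ((p : ℕ) : ℝ) ^ (-s) ≤ 1 * ((p : ℕ) : ℝ) ^ (-s) :=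
          mul_le_mul_of_nonneg_right (hr1 p) (hp0 p).le
      _ = _ := one_mul _
  have hsum2 : Summable fun p : Nat.Primes => -Real.log (1 - r p * ((p : ℕ) : ℝ) ^ (-s)) := by
    refine Summable.of_norm_bounded (hps.mul_left 2) fun p => ?_
    have h5 := abs_le.1 (hz p)
    set z : ℝ := r p * ((p : ℕ) : ℝ) ^ (-s) with hzd
    have h6 : |z| ≤ ((p : ℕ) : ℝ) ^ (-s) := by
      rw [hzd, abs_mul, abs_of_pos (hp0 p)]
      calc |r p| * ((p : ℕ) : ℝ) ^ (-s) ≤ 1 * ((p : ℕ) : ℝ) ^ (-s) :=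
            mul_le_mul_of_nonneg_right (hr1 p) (hp0 p).le
        _ = _ := one_mul _
    have h7 : Real.log (1 - z) ≤ -z := by
      have := Real.log_le_sub_one_of_pos (show 0 < 1 - z by linarith)
      linarith
    have h8 : 1 - (1 - z)⁻¹ ≤ Real.log (1 - z) := Real.one_sub_inv_le_log_of_pos (by linarith)
    have h9 : (1 - z)⁻¹ ≤ 1 + 2 * |z| := by
      rw [inv_le_iff_one_le_mul₀ (by linarith)]
      rcases abs_cases z with ⟨ha, hb⟩ | ⟨ha, hb⟩ <;> rw [ha] <;> nlinarith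
    rw [Real.norm_eq_abs, abs_neg, abs_le]
    have h10 := abs_le.1 (le_refl |z|)
    constructor <;> linarith [h10.1, h10.2]
  have h11 : ∑' p : Nat.Primes, r p * ((p : ℕ) : ℝ) ^ (-s) ≤
      ∑' p : Nat.Primes, -Real.log (1 - r p * ((p : ℕ) : ℝ) ^ (-s)) := by
    refine hsum1.tsum_le_tsum (fun p => ?_) hsum2
    have h5 := abs_le.1 (hz p)
    have := Real.log_le_sub_one_of_pos (show 0 < 1 - r p * ((p : ℕ) : ℝ) ^ (-s) by linarith)
    linarith
  have h12 : ∑' p : Nat.Primes, -Real.log (1 - r p * ((p : ℕ) : ℝ) ^ (-s)) =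
      Real.log ‖ψ.LFunction (s : ℂ)‖ := by rw [← h4, Real.log_exp]
  have h13 : 0 < ‖ψ.LFunction (s : ℂ)‖ := by
    rw [← h4]
    exact Real.exp_pos _
  exact h11.trans (h12.le.trans (Real.log_le_log h13 h1.le))

end Pool.Agent.H70A
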