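import Pool.Agent.W_7742aa_h70.CaseC

/-! Densities. -/

set_option autoImplicit false

noncomputable section

namespace Pool.Agent.H70A

open Filter Topology ComplexConjugate Pool.Agent.GL74
open Pool.Agent.H74E (pk pk_nonneg pk_eq)
open Pool.Agent.H74E.SatakeSystem (ind ind_pos ind_neg ind_nonneg ind_le_one)
open Pool.Agent.H74V.SatakeSystem (tin_eq family_asy family_one ts primeSum pS_eq pS_true pS_large
  lt_two ind_summable DensityLE DensityGE)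

lemma dens_le_of_le {P : ℕ → Prop} {θ C : ℝ} (hθ : 0 ≤ θ)
    (h : ∀ᶠ s in 𝓝[>] (1 : ℝ), primeSum P s ≤ θ * LL s + C) : DensityLE P θ := by
  intro ε hε
  obtain ⟨C0, hC0⟩ := Maass74.neg_log_le_primes
  filter_upwards [h, hC0, pS_large ((θ * C0 + C) / ε)] with s h5 h1 h2
  rw [LL_eq] at h5
  rw [← pS_true] at h1
  have h6 : θ * -Real.log (s - 1) ≤ θ * (primeSum (fun _ => True) s + C0) :=
    mul_le_mul_of_nonneg_left h1 hθ
  have h7 : θ * C0 + C ≤ ε * primeSum (fun _ => True) s := by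
    have := mul_le_mul_of_nonneg_left h2 hε.le
    rwa [mul_div_cancel₀ _ hε.ne'] at this
  linarith

lemma dens_ge_of_le {P : ℕ → Prop} {θ C : ℝ} (hθ : 0 ≤ θ)
    (h : ∀ᶠ s in 𝓝[>] (1 : ℝ), θ * LL s ≤ primeSum P s + C) : DensityGE P θ := by
  intro ε hε
  obtain ⟨C0, hC0⟩ := true_le
  filter_upwards [h, hC0, pS_large ((θ * C0 + C) / ε)] with s h5 h1 h2
  have h6 : θ * (primeSum (fun _ => True) s - C0) ≤ θ * LL s :=
    mul_le_mul_of_nonneg_left (by linarith) hθ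
  have h7 : θ * C0 + C ≤ ε * primeSum (fun _ => True) s := by
    have := mul_le_mul_of_nonneg_left h2 hε.le
    rwa [mul_div_cancel₀ _ hε.ne'] at this
  linarith

variable {F : Type} [Field F] [NumberField F] {π : AdjointSystem F}

namespace AdjointSystem

/-- The prime is good and `b p` is a root of `X ^ 2 - 3 X + 1`. -/
def Gol (π : AdjointSystem F) (p : ℕ) : Prop := π.Good p ∧ π.b p ^ 2 - 3 * π.b p + 1 = 0

/-- The sum over the golden primes. -/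
theorem golden_sum (hg : π.Generates) (hs : ∀ σ : F →+* ℂ, π.IsSquareModulus σ)
    (hAd : π.ad.IsCuspidalFamily) (hE : π.E5 = ⊥) {σ₁ σ₂ : F →+* ℂ} (hne : σ₁ ≠ σ₂) :
    ∃ C : ℝ, ∀ᶠ s in 𝓝[>] (1 : ℝ), |primeSum π.Gol s - 2 / 5 * LL s| ≤ C := by
  obtain ⟨C, hC⟩ := pair_diff (ad_asy hg hAd hne)
  set H : ℝ := ∑' x, hp x with hH
  have hH0 : 0 ≤ H := tsum_nonneg hp_nonneg
  refine ⟨(C + 16 * H) / 5, ?_⟩
  filter_upwards [lt_two, self_mem_nhdsWithin] with s e1 e2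
  have hs1 : (1 : ℝ) < s := e2
  obtain ⟨a, b⟩ := hC s hs1 e1.le
  -- the values
  have hval : ∀ x : Nat.Primes × ℕ, π.Gol x.1 → ‖π.ad.ts σ₁ x - π.ad.ts σ₂ x‖ ^ 2 =
      (bw (π.r σ₁ x.1) (x.2 + 1) - bw (π.r σ₂ x.1) (x.2 + 1)) ^ 2 := by
    intro x hx
    rw [ad_ts hAd (hs σ₁) hx.1, ad_ts hAd (hs σ₂) hx.1, ← Complex.ofReal_sub, Complex.norm_real,
      Real.norm_eq_abs, sq_abs]
    congr 1
    ring
  have hval0 : ∀ x : Nat.Primes × ℕ, ¬ π.Gol x.1 → ‖π.ad.ts σ₁ x - π.ad.ts σ₂ x‖ ^ 2 = 0 := by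
    intro x hx
    by_cases hgood : π.Good x.1
    · rcases values hs hE hgood with ⟨m, hm⟩ | h
      · have e : ∀ σ, π.r σ x.1 = m := by
          intro σ
          unfold r
          rw [hm, map_natCast, Complex.natCast_re]
        rw [ad_ts hAd (hs σ₁) hgood, ad_ts hAd (hs σ₂) hgood, e, e, sub_self, norm_zero]
        norm_num
      · exact absurd ⟨hgood, h⟩ hx
    · rw [ad_ts_bad σ₁ hgood, ad_ts_bad σ₂ hgood, sub_self, norm_zero]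
      norm_num
  have hT : ∀ x : Nat.Primes × ℕ, 0 ≤ ‖π.ad.ts σ₁ x - π.ad.ts σ₂ x‖ ^ 2 := fun x => sq_nonneg _
  have hT16 : ∀ x : Nat.Primes × ℕ, x.2 ≠ 0 → ‖π.ad.ts σ₁ x - π.ad.ts σ₂ x‖ ^ 2 ≤ 16 := by
    intro x _
    by_cases hx : π.Gol x.1
    · rw [hval x hx]
      obtain ⟨g1, g2, -⟩ := golden_pair hg hs hE hne hx.1 hx.2
      have n1 := r_nonneg (hs σ₁) hx.1
      have n2 := r_nonneg (hs σ₂) hx.1
      have l1 : π.r σ₁ x.1 ≤ 4 := by nlinarith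
      have l2 : π.r σ₂ x.1 ≤ 4 := by nlinarith
      have b1 := bw_le n1 l1 (x.2 + 1)
      have b2 := bw_le n2 l2 (x.2 + 1)
      have c1 := bw_nonneg n1 (x.2 + 1)
      have c2 := bw_nonneg n2 (x.2 + 1)
      nlinarith
    · rw [hval0 x hx]
      norm_num
  obtain ⟨-, r2⟩ := restrict hT a
  have r3 := high hT (by norm_num : (0 : ℝ) ≤ 16) hT16 hs1 a
  have e : ∑' p : Nat.Primes, ‖π.ad.ts σ₁ (p, 0) - π.ad.ts σ₂ (p, 0)‖ ^ 2 * ((p : ℕ) : ℝ) ^ (-s) =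
      5 * primeSum π.Gol s := by
    rw [pS_eq, ← (ind_summable π.Gol hs1).tsum_mul_left 5]
    refine tsum_congr fun p => ?_
    by_cases hx : π.Gol p
    · rw [hval (p, 0) hx, ind_pos hx]
      obtain ⟨g1, g2, g3⟩ := golden_pair hg hs hE hne hx.1 hx.2
      simp only [zero_add, bw_one]
      have : (π.r σ₁ p - π.r σ₂ p) ^ 2 = 5 := by
        have h3 : π.r σ₂ p = 3 - π.r σ₁ p := by linarith
        rw [h3]
        linear_combination 4 * g1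
      rw [this]
      ring
    · rw [hval0 (p, 0) hx, ind_neg hx]
      ring
  rw [e] at r2 r3
  obtain ⟨b1, b2⟩ := abs_le.1 b
  rw [abs_le]
  constructor <;> linarith

/-- The quantities at the primes. -/
def e₁ (π : AdjointSystem F) (σ₁ σ₂ : F →+* ℂ) (p : Nat.Primes) : ℝ :=
  1 / 2 * ((open Classical in if π.Good p then (σ₁ (π.b p)).re else 0) +
    (open Classical in if π.Good p then (σ₂ (π.b p)).re else 0))

def e₂ (π : AdjointSystem F) (σ₁ σ₂ : F →+* ℂ) (p : Nat.Primes) : ℝ :=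
  1 / 2 * (‖π.ad.ts σ₁ (p, 0)‖ ^ 2 + ‖π.ad.ts σ₂ (p, 0)‖ ^ 2)

def e₃ (π : AdjointSystem F) (σ₁ σ₂ : F →+* ℂ) (p : Nat.Primes) : ℝ :=
  1 / 2 * (‖π.sym.ts σ₁ (p, 0)‖ ^ 2 + ‖π.sym.ts σ₂ (p, 0)‖ ^ 2)

/-- The three cases. -/
theorem cases_p (hg : π.Generates) (hs : ∀ σ : F →+* ℂ, π.IsSquareModulus σ)
    (hAd : π.ad.IsCuspidalFamily) (hSym : π.sym.IsCuspidalFamily) (hE : π.E5 = ⊥)
    {σ₁ σ₂ : F →+* ℂ} (hne : σ₁ ≠ σ₂) (p : Nat.Primes) :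
    (¬ π.Good p ∧ e₁ π σ₁ σ₂ p = 0 ∧ e₂ π σ₁ σ₂ p = 0 ∧ e₃ π σ₁ σ₂ p = 0) ∨
    (∃ m : ℕ, π.Good p ∧ π.b p = m ∧ ¬ π.Gol p ∧ e₁ π σ₁ σ₂ p = m ∧
      e₂ π σ₁ σ₂ p = ((m : ℝ) - 1) ^ 2 ∧ e₃ π σ₁ σ₂ p = ((m : ℝ) ^ 2 - 3 * m + 1) ^ 2) ∨
    (π.Good p ∧ π.Gol p ∧ e₁ π σ₁ σ₂ p = 3 / 2 ∧ e₂ π σ₁ σ₂ p = 3 / 2 ∧
      e₃ π σ₁ σ₂ p = 0) := by
  classical
  by_cases hgood : π.Good p
  swap
  · left
    refine ⟨hgood, ?_, ?_, ?_⟩
    · unfold e₁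
      rw [if_neg hgood, if_neg hgood]
      norm_num
    · unfold e₂
      rw [ad_ts_bad σ₁ (x := (p, 0)) hgood, ad_ts_bad σ₂ (x := (p, 0)) hgood]
      norm_num
    · unfold e₃
      rw [sym_ts_bad σ₁ (x := (p, 0)) hgood, sym_ts_bad σ₂ (x := (p, 0)) hgood]
      norm_num
  right
  have h1 : e₁ π σ₁ σ₂ p = 1 / 2 * (π.r σ₁ p + π.r σ₂ p) := by
    unfold e₁ r
    rw [if_pos hgood, if_pos hgood]
  have h2 : e₂ π σ₁ σ₂ p = 1 / 2 * ((π.r σ₁ p - 1) ^ 2 + (π.r σ₂ p - 1) ^ 2) := by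
    unfold e₂
    rw [ad_ts hAd (hs σ₁) (x := (p, 0)) hgood, ad_ts hAd (hs σ₂) (x := (p, 0)) hgood,
      Complex.norm_real, Complex.norm_real, Real.norm_eq_abs, Real.norm_eq_abs, sq_abs, sq_abs]
    simp only [zero_add, bw_one]
  have h3 : e₃ π σ₁ σ₂ p = 1 / 2 * ((π.r σ₁ p ^ 2 - 3 * π.r σ₁ p + 1) ^ 2 +
      (π.r σ₂ p ^ 2 - 3 * π.r σ₂ p + 1) ^ 2) := by
    unfold e₃
    rw [sym_ts hSym (hs σ₁) (x := (p, 0)) hgood, sym_ts hSym (hs σ₂) (x := (p, 0)) hgood,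
      Complex.norm_real, Complex.norm_real, Real.norm_eq_abs, Real.norm_eq_abs, sq_abs, sq_abs]
    simp only [zero_add, bw_one]
  rcases values hs hE hgood with ⟨m, hm⟩ | h
  · left
    have e : ∀ σ, π.r σ p = m := by
      intro σ
      unfold r
      rw [hm, map_natCast, Complex.natCast_re]
    refine ⟨m, hgood, hm, ?_, ?_, ?_, ?_⟩
    · rintro ⟨-, h⟩
      rw [hm] at h
      have h5 : (m : ℤ) ^ 2 - 3 * m + 1 = 0 := by exact_mod_cast h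
      have h6 : (m : ℤ) ≤ 3 := by nlinarith
      have h7 : (0 : ℤ) ≤ m := by positivity
      generalize (m : ℤ) = z at h5 h6 h7
      interval_cases z <;> omega
    · rw [h1, e, e]
      ring
    · rw [h2, e, e]
      ring
    · rw [h3, e, e]
      ring
  · right
    obtain ⟨g1, g2, g3⟩ := golden_pair hg hs hE hne hgood h
    have e4 : π.r σ₂ p = 3 - π.r σ₁ p := by linarith
    refine ⟨hgood, ⟨hgood, h⟩, ?_, ?_, ?_⟩
    · rw [h1, g3]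
      norm_num
    · rw [h2, e4]
      linear_combination g1
    · rw [h3, g1, g2]
      norm_num

/-- The linear programming argument. -/
theorem lp (hg : π.Generates) (hs : ∀ σ : F →+* ℂ, π.IsSquareModulus σ)
    (hAd : π.ad.IsCuspidalFamily) (hSym : π.sym.IsCuspidalFamily) (hE : π.E5 = ⊥)
    {σ₁ σ₂ : F →+* ℂ} (hne : σ₁ ≠ σ₂) {P : ℕ → Prop} {c₁ c₂ c₃ g κ : ℝ} (h₁ : 0 ≤ c₁)
    (h₂ : 0 ≤ c₂) (h₃ : 0 ≤ c₃)
    (hpt : ∀ p : Nat.Primes, ind π.Good p ≤ c₁ * e₁ π σ₁ σ₂ p + c₂ * e₂ π σ₁ σ₂ p +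
      c₃ * e₃ π σ₁ σ₂ p + g * ind π.Gol p + κ * ind P p) :
    ∃ C : ℝ, ∀ᶠ s in 𝓝[>] (1 : ℝ),
      (1 - c₁ - c₂ - c₃ - 2 / 5 * g) * LL s ≤ κ * primeSum P s + C := by
  classical
  obtain ⟨C0, k0⟩ := good_ge π.level_pos
  obtain ⟨C1, k1⟩ := b_mean (hs σ₁)
  obtain ⟨C1', k1'⟩ := b_mean (hs σ₂)
  obtain ⟨C2, k2⟩ := family_one (by norm_num) hAd σ₁
  obtain ⟨C2', k2'⟩ := family_one (by norm_num) hAd σ₂
  obtain ⟨C3, k3⟩ := family_one (by norm_num) hSym σ₁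
  obtain ⟨C3', k3'⟩ := family_one (by norm_num) hSym σ₂
  obtain ⟨C4, k4⟩ := golden_sum hg hs hAd hE hne
  refine ⟨C0 + c₁ * (1 / 2 * (C1 + C1')) + c₂ * (1 / 2 * (C2 + C2')) + c₃ * (1 / 2 * (C3 + C3')) +
    |g| * C4, ?_⟩
  filter_upwards [k0, k4, lt_two, self_mem_nhdsWithin] with s f0 f4 e1 e2
  have hs1 : (1 : ℝ) < s := e2
  obtain ⟨m1, n1⟩ := k1 s hs1 e1.le
  obtain ⟨m1', n1'⟩ := k1' s hs1 e1.le
  obtain ⟨m2, n2⟩ := k2 s hs1 e1.le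
  obtain ⟨m2', n2'⟩ := k2' s hs1 e1.le
  obtain ⟨m3, n3⟩ := k3 s hs1 e1.le
  obtain ⟨m3', n3'⟩ := k3' s hs1 e1.le
  obtain ⟨p2, q2⟩ := restrict (T := fun x => ‖π.ad.ts σ₁ x‖ ^ 2) (fun x => sq_nonneg _) m2
  obtain ⟨p2', q2'⟩ := restrict (T := fun x => ‖π.ad.ts σ₂ x‖ ^ 2) (fun x => sq_nonneg _) m2'
  obtain ⟨p3, q3⟩ := restrict (T := fun x => ‖π.sym.ts σ₁ x‖ ^ 2) (fun x => sq_nonneg _) m3
  obtain ⟨p3', q3'⟩ := restrict (T := fun x => ‖π.sym.ts σ₂ x‖ ^ 2) (fun x => sq_nonneg _) m3'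
  have E1 := (m1.hasSum.add m1'.hasSum).mul_left (1 / 2)
  have E2 := (p2.hasSum.add p2'.hasSum).mul_left (1 / 2)
  have E3 := (p3.hasSum.add p3'.hasSum).mul_left (1 / 2)
  have key := hasSum_le (fun p : Nat.Primes => ?_)
    (ind_summable (fun p => p.Prime ∧ ¬ p ∣ π.level) hs1).hasSum
    (((((E1.mul_left c₁).add (E2.mul_left c₂)).add (E3.mul_left c₃)).add
      ((ind_summable π.Gol hs1).hasSum.mul_left g)).add ((ind_summable P hs1).hasSum.mul_left κ))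
  · rw [← pS_eq, ← pS_eq, ← pS_eq] at key
    have g1 : g * (primeSum π.Gol s - 2 / 5 * LL s) ≤ |g| * C4 := by
      refine (le_abs_self _).trans ?_
      rw [abs_mul]
      exact mul_le_mul_of_nonneg_left f4 (abs_nonneg g)
    have w1 := mul_le_mul_of_nonneg_left (add_le_add n1 n1') h₁
    have w2 := mul_le_mul_of_nonneg_left (add_le_add (q2.trans n2) (q2'.trans n2')) h₂
    have w3 := mul_le_mul_of_nonneg_left (add_le_add (q3.trans n3) (q3'.trans n3')) h₃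
    unfold LL at *
    linarith
  · have hpos : (0 : ℝ) ≤ ((p : ℕ) : ℝ) ^ (-s) := by positivity
    have h5 := mul_le_mul_of_nonneg_right (hpt p) hpos
    have e5 : ind (fun p => p.Prime ∧ ¬ p ∣ π.level) (p : ℕ) = ind π.Good p := rfl
    rw [e5]
    unfold e₁ e₂ e₃ at h5
    refine h5.trans (le_of_eq ?_)
    ring

end AdjointSystem

end Pool.Agent.H70A
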