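import Pool.Agent.W_7742aa_h70.Dns

/-! The conclusions. -/

set_option autoImplicit false

noncomputable section

namespace Pool.Agent.H70A

open Filter Topology ComplexConjugate Pool.Agent.GL74
open Pool.Agent.H74E.SatakeSystem (ind ind_pos ind_neg ind_nonneg ind_le_one)
open Pool.Agent.H74V.SatakeSystem (primeSum DensityLE DensityGE dens_ge dens_mono)

variable {F : Type} [Field F] [NumberField F] {π : AdjointSystem F}

namespace AdjointSystem

/-- The prime is good and `b p = m` for some natural number `m ≥ n`. -/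
def Large (π : AdjointSystem F) (n : ℕ) (p : ℕ) : Prop :=
  π.Good p ∧ ∃ m : ℕ, n ≤ m ∧ π.b p = m

/-- The hypotheses. -/
structure Hyp (π : AdjointSystem F) (σ₁ σ₂ : F →+* ℂ) : Prop where
  hg : π.Generates
  hs : ∀ σ : F →+* ℂ, π.IsSquareModulus σ
  hAd : π.ad.IsCuspidalFamily
  hSym : π.sym.IsCuspidalFamily
  hE : π.E5 = ⊥
  hne : σ₁ ≠ σ₂

variable {σ₁ σ₂ : F →+* ℂ}

theorem golden_le (h : Hyp π σ₁ σ₂) : DensityLE π.Gol (2 / 5) := by
  obtain ⟨C, hC⟩ := golden_sum h.hg h.hs h.hAd h.hE h.hne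
  refine dens_le_of_le (C := C) (by norm_num) ?_
  filter_upwards [hC] with s hs
  linarith [(abs_le.1 hs).2]

theorem golden_ge (h : Hyp π σ₁ σ₂) : DensityGE π.Gol (2 / 5) := by
  obtain ⟨C, hC⟩ := golden_sum h.hg h.hs h.hAd h.hE h.hne
  refine dens_ge_of_le (C := C) (by norm_num) ?_
  filter_upwards [hC] with s hs
  linarith [(abs_le.1 hs).1]

lemma natCast_inj' {m n : ℕ} (h : ((m : ℕ) : F) = (n : F)) : m = n := Nat.cast_injective h

theorem zero_ge (h : Hyp π σ₁ σ₂) : DensityGE (fun p => π.Good p ∧ π.b p = 0) (1 / 5) := by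
  obtain ⟨C, hC⟩ := lp (P := fun p => π.Good p ∧ π.b p = 0) (c₁ := 1) (c₂ := 0) (c₃ := 0)
    (g := -1 / 2) (κ := 1) h.hg h.hs h.hAd h.hSym h.hE h.hne (by norm_num) le_rfl le_rfl (fun p => by
    rcases cases_p h.hg h.hs h.hAd h.hSym h.hE h.hne p with
      ⟨h1, h2, h3, h4⟩ | ⟨m, h1, hm, h2, h3, h4, h5⟩ | ⟨h1, h2, h3, h4, h5⟩
    · rw [ind_neg h1, ind_neg (fun h => h1 h.1 : ¬ π.Gol p),
        ind_neg (fun h => h1 h.1 : ¬ (π.Good p ∧ π.b p = 0)), h2]
      norm_num
    · rw [ind_pos h1, ind_neg h2, h3]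
      by_cases hm0 : m = 0
      · rw [ind_pos (P := fun p => π.Good p ∧ π.b p = 0) ⟨h1, by rw [hm, hm0, Nat.cast_zero]⟩, hm0]
        norm_num
      · have := ind_nonneg (fun p => π.Good p ∧ π.b p = 0) p
        have h6 : (1 : ℝ) ≤ m := by exact_mod_cast Nat.one_le_iff_ne_zero.2 hm0
        linarith
    · rw [ind_pos h1, ind_pos h2, h3]
      have := ind_nonneg (fun p => π.Good p ∧ π.b p = 0) p
      linarith)
  refine dens_ge_of_le (C := C) (by norm_num) ?_
  filter_upwards [hC] with s hs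
  linarith

theorem one_ge (h : Hyp π σ₁ σ₂) : DensityGE (fun p => π.Good p ∧ π.b p = 1) (1 / 5) := by
  obtain ⟨C, hC⟩ := lp (P := fun p => π.Good p ∧ π.b p = 1) (c₁ := 0) (c₂ := 1) (c₃ := 0)
    (g := -1 / 2) (κ := 1) h.hg h.hs h.hAd h.hSym h.hE h.hne le_rfl (by norm_num) le_rfl (fun p => by
    rcases cases_p h.hg h.hs h.hAd h.hSym h.hE h.hne p with
      ⟨h1, h2, h3, h4⟩ | ⟨m, h1, hm, h2, h3, h4, h5⟩ | ⟨h1, h2, h3, h4, h5⟩
    · rw [ind_neg h1, ind_neg (fun h => h1 h.1 : ¬ π.Gol p),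
        ind_neg (fun h => h1 h.1 : ¬ (π.Good p ∧ π.b p = 1)), h3]
      norm_num
    · rw [ind_pos h1, ind_neg h2, h4]
      by_cases hm0 : m = 1
      · rw [ind_pos (P := fun p => π.Good p ∧ π.b p = 1) ⟨h1, by rw [hm, hm0, Nat.cast_one]⟩, hm0]
        norm_num
      · have := ind_nonneg (fun p => π.Good p ∧ π.b p = 1) p
        have h6 : (1 : ℝ) ≤ ((m : ℝ) - 1) ^ 2 := by
          rcases (show m = 0 ∨ 2 ≤ m by omega) with h7 | h7
          · rw [h7]
            norm_num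
          · have h8 : (2 : ℝ) ≤ m := by exact_mod_cast h7
            nlinarith
        linarith
    · rw [ind_pos h1, ind_pos h2, h4]
      have := ind_nonneg (fun p => π.Good p ∧ π.b p = 1) p
      linarith)
  refine dens_ge_of_le (C := C) (by norm_num) ?_
  filter_upwards [hC] with s hs
  linarith

theorem two_le (h : Hyp π σ₁ σ₂) : DensityLE (π.Large 2) (1 / 10) := by
  obtain ⟨C, hC⟩ := lp (P := π.Large 2) (c₁ := 1) (c₂ := 1) (c₃ := 0)
    (g := -2) (κ := -2) h.hg h.hs h.hAd h.hSym h.hE h.hne (by norm_num) (by norm_num) le_rfl (fun p => by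
    rcases cases_p h.hg h.hs h.hAd h.hSym h.hE h.hne p with
      ⟨h1, h2, h3, h4⟩ | ⟨m, h1, hm, h2, h3, h4, h5⟩ | ⟨h1, h2, h3, h4, h5⟩
    · rw [ind_neg h1, ind_neg (fun h => h1 h.1 : ¬ π.Gol p),
        ind_neg (fun h => h1 h.1 : ¬ π.Large 2 p), h2, h3]
      norm_num
    · rw [ind_pos h1, ind_neg h2, h3, h4]
      have h6 := ind_le_one (π.Large 2) p
      rcases (show m = 0 ∨ m = 1 ∨ 2 ≤ m by omega) with h7 | h7 | h7
      · rw [ind_neg (P := π.Large 2), h7]
        · norm_num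
        · rintro ⟨-, m', h8, h9⟩
          have := natCast_inj' (hm.symm.trans h9)
          omega
      · rw [ind_neg (P := π.Large 2), h7]
        · norm_num
        · rintro ⟨-, m', h8, h9⟩
          have := natCast_inj' (hm.symm.trans h9)
          omega
      · have h8 : (2 : ℝ) ≤ m := by exact_mod_cast h7
        nlinarith
    · rw [ind_pos h1, ind_pos h2, h3, h4, ind_neg (P := π.Large 2)]
      · norm_num
      · rintro ⟨-, m', -, h9⟩
        have h10 := h2.2
        rw [h9] at h10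
        have h5 : (m' : ℤ) ^ 2 - 3 * m' + 1 = 0 := by exact_mod_cast h10
        have h6 : (m' : ℤ) ≤ 3 := by nlinarith
        have h7 : (0 : ℤ) ≤ m' := by positivity
        generalize (m' : ℤ) = z at h5 h6 h7
        interval_cases z <;> omega)
  refine dens_le_of_le (C := C / 2) (by norm_num) ?_
  filter_upwards [hC] with s hs
  linarith

lemma not_large_of_gol {n p : ℕ} (h : π.Gol p) : ¬ π.Large n p := by
  rintro ⟨-, m', -, h9⟩
  have h10 := h.2
  rw [h9] at h10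
  have h5 : (m' : ℤ) ^ 2 - 3 * m' + 1 = 0 := by exact_mod_cast h10
  have h6 : (m' : ℤ) ≤ 3 := by nlinarith
  have h7 : (0 : ℤ) ≤ m' := by positivity
  generalize (m' : ℤ) = z at h5 h6 h7
  interval_cases z <;> omega

theorem three_le (h : Hyp π σ₁ σ₂) : DensityLE (π.Large 3) (1 / 30) := by
  obtain ⟨C, hC⟩ := lp (P := π.Large 3) (c₁ := 1) (c₂ := 1) (c₃ := 0)
    (g := -2) (κ := -6) h.hg h.hs h.hAd h.hSym h.hE h.hne (by norm_num) (by norm_num) le_rfl (fun p => by
    rcases cases_p h.hg h.hs h.hAd h.hSym h.hE h.hne p with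
      ⟨h1, h2, h3, h4⟩ | ⟨m, h1, hm, h2, h3, h4, h5⟩ | ⟨h1, h2, h3, h4, h5⟩
    · rw [ind_neg h1, ind_neg (fun h => h1 h.1 : ¬ π.Gol p),
        ind_neg (fun h => h1 h.1 : ¬ π.Large 3 p), h2, h3]
      norm_num
    · rw [ind_pos h1, ind_neg h2, h3, h4]
      have h6 := ind_le_one (π.Large 3) p
      rcases (show m ≤ 2 ∨ 3 ≤ m by omega) with h7 | h7
      · rw [ind_neg (P := π.Large 3)]
        · interval_cases m <;> norm_num
        · rintro ⟨-, m', h8, h9⟩
          have := natCast_inj' (hm.symm.trans h9)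
          omega
      · have h8 : (3 : ℝ) ≤ m := by exact_mod_cast h7
        nlinarith
    · rw [ind_pos h1, ind_pos h2, h3, h4, ind_neg (not_large_of_gol h2)]
      norm_num)
  refine dens_le_of_le (C := C / 6) (by norm_num) ?_
  filter_upwards [hC] with s hs
  linarith

theorem large_le (h : Hyp π σ₁ σ₂) {n : ℕ} (hn : 4 ≤ n) :
    DensityLE (π.Large n) (2 / (5 * (((n : ℝ) ^ 2 - 3 * n + 1) ^ 2 - 1))) := by
  have hn4 : (4 : ℝ) ≤ n := by exact_mod_cast hn
  have hv5 : (5 : ℝ) ≤ (n : ℝ) ^ 2 - 3 * n + 1 := by nlinarith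
  set v : ℝ := (n : ℝ) ^ 2 - 3 * n + 1 with hv
  have hv1 : 0 < v ^ 2 - 1 := by nlinarith
  obtain ⟨C, hC⟩ := lp (P := π.Large n) (c₁ := 0) (c₂ := 0) (c₃ := 1)
    (g := 1) (κ := -(v ^ 2 - 1)) h.hg h.hs h.hAd h.hSym h.hE h.hne le_rfl le_rfl (by norm_num) (fun p => by
    rcases cases_p h.hg h.hs h.hAd h.hSym h.hE h.hne p with
      ⟨h1, h2, h3, h4⟩ | ⟨m, h1, hm, h2, h3, h4, h5⟩ | ⟨h1, h2, h3, h4, h5⟩
    · rw [ind_neg h1, ind_neg (fun h => h1 h.1 : ¬ π.Gol p),
        ind_neg (fun h => h1 h.1 : ¬ π.Large n p), h4]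
      norm_num
    · rw [ind_pos h1, ind_neg h2, h5]
      rcases (show m < n ∨ n ≤ m by omega) with h7 | h7
      · rw [ind_neg (P := π.Large n)]
        · have h8 : (1 : ℤ) ≤ ((m : ℤ) ^ 2 - 3 * m + 1) ^ 2 := by
            have h9 : (m : ℤ) ^ 2 - 3 * m + 1 ≠ 0 := by
              intro h5
              have h6 : (m : ℤ) ≤ 3 := by nlinarith
              have h7 : (0 : ℤ) ≤ m := by positivity
              generalize (m : ℤ) = z at h5 h6 h7
              interval_cases z <;> omega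
            have : 0 < ((m : ℤ) ^ 2 - 3 * m + 1) ^ 2 := by positivity
            omega
          have h9 : (1 : ℝ) ≤ ((m : ℝ) ^ 2 - 3 * m + 1) ^ 2 := by exact_mod_cast h8
          linarith
        · rintro ⟨-, m', h8, h9⟩
          have := natCast_inj' (hm.symm.trans h9)
          omega
      · rw [ind_pos (P := π.Large n) ⟨h1, m, h7, hm⟩]
        have h8 : (n : ℝ) ≤ m := by exact_mod_cast h7
        have h9 : v ≤ (m : ℝ) ^ 2 - 3 * m + 1 := by
          rw [hv]
          nlinarith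
        have h10 : v ^ 2 ≤ ((m : ℝ) ^ 2 - 3 * m + 1) ^ 2 :=
          pow_le_pow_left₀ (by linarith) h9 2
        linarith
    · rw [ind_pos h1, ind_pos h2, h5, ind_neg (not_large_of_gol h2)]
      norm_num)
  refine dens_le_of_le (C := C / (v ^ 2 - 1)) (by positivity) ?_
  filter_upwards [hC] with s hs
  have h1 : (v ^ 2 - 1) * primeSum (π.Large n) s ≤ 2 / 5 * LL s + C := by linarith
  have h2 : 2 / (5 * (v ^ 2 - 1)) * LL s + C / (v ^ 2 - 1) = (2 / 5 * LL s + C) / (v ^ 2 - 1) := by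
    field_simp
  rw [h2, le_div_iff₀ hv1]
  linarith

/-- The complement of `Large n`. -/
theorem small_ge (h : Hyp π σ₁ σ₂) {n : ℕ} {θ : ℝ} (hl : DensityLE (π.Large n) θ) :
    DensityGE (fun p => π.Good p ∧ ((∃ m : ℕ, m < n ∧ π.b p = m) ∨
      π.b p ^ 2 - 3 * π.b p + 1 = 0)) (1 - θ) := by
  have h0 : DensityLE (fun _ => False) 0 := by
    refine dens_le_of_le (C := 0) le_rfl (Eventually.of_forall fun s => ?_)
    have : primeSum (fun _ => False) s = 0 := by
      unfold primeSum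
      have : IsEmpty {p : ℕ // p.Prime ∧ False} := ⟨fun p => p.2.2⟩
      exact tsum_empty
    rw [this]
    norm_num
  have h1 := dens_ge (P₁ := fun p => π.Good p ∧ ((∃ m : ℕ, m < n ∧ π.b p = m) ∨
      π.b p ^ 2 - 3 * π.b p + 1 = 0)) (P₂ := π.Large n) (P₃ := fun _ => False) π.level_pos
      (fun p hp hpN => ?_) hl h0
  · rwa [sub_zero] at h1
  · have hgood : π.Good p := ⟨hp, hpN⟩
    rcases values h.hs h.hE hgood with ⟨m, hm⟩ | hgold
    · rcases (show m < n ∨ n ≤ m by omega) with h7 | h7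
      · exact Or.inl ⟨hgood, Or.inl ⟨m, h7, hm⟩⟩
      · exact Or.inr (Or.inl ⟨hgood, m, h7, hm⟩)
    · exact Or.inl ⟨hgood, Or.inr hgold⟩

end AdjointSystem

end Pool.Agent.H70A
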