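import Pool.Agent.W_7742aa_h70.Sum

/-! Lower bounds for the second moment from pairwise inequivalent systems. -/

set_option autoImplicit false

noncomputable section

namespace Pool.Agent.H70A

open Filter Topology ComplexConjugate
open Pool.Agent.GL74
open Pool.Agent.H74E (pk pk_nonneg pk_eq)

theorem gram {ι : Type} [Fintype ι] (t : ι → Nat.Primes × ℕ → ℂ)
    (h1 : ∀ i, ∃ C : ℝ, ∀ σ : ℝ, 1 < σ → σ ≤ 2 → (Summable fun x => ‖t i x‖ ^ 2 * pk σ x) ∧
      ∑' x, ‖t i x‖ ^ 2 * pk σ x ≤ Real.log (1 / (σ - 1)) + C)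
    (h2 : ∀ i j, i ≠ j → PairAsy (t i) (t j)) (i₀ : ι) :
    ∃ C : ℝ, ∀ σ : ℝ, 1 < σ → σ ≤ 2 → (1 - 1 / (Fintype.card ι : ℝ)) * LL σ ≤
      ∑' x, ‖t i₀ x‖ ^ 2 * pk σ x + C := by
  classical
  have hm : (0 : ℝ) < (Fintype.card ι : ℝ) := by
    have : Nonempty ι := ⟨i₀⟩
    exact_mod_cast Fintype.card_pos
  set m : ℝ := (Fintype.card ι : ℝ) with hmd
  have hA : ∀ i, ∃ C : ℝ, ∀ σ : ℝ, 1 < σ → σ ≤ 2 →
      ∑' x, ‖t i x‖ ^ 2 * pk σ x ≤ ∑' x, ‖t i₀ x‖ ^ 2 * pk σ x + C := by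
    intro i
    by_cases hi : i = i₀
    · subst hi
      exact ⟨0, fun σ _ _ => by simp⟩
    · obtain ⟨C, hC⟩ := h2 i₀ i (Ne.symm hi)
      refine ⟨C, fun σ h3 h4 => ?_⟩
      have := (abs_le.1 (hC σ h3 h4).2.2.2.1).2
      linarith
  have hB : ∀ i j, ∃ C : ℝ, ∀ σ : ℝ, 1 < σ → σ ≤ 2 →
      (∑' x, t i x * conj (t j x) * (pk σ x : ℂ)).re ≤
        ∑' x, ‖t i₀ x‖ ^ 2 * pk σ x - (if i = j then 0 else LL σ) + C := by
    intro i j
    obtain ⟨C1, hC1⟩ := hA i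
    by_cases hij : i = j
    · subst hij
      refine ⟨C1, fun σ h3 h4 => ?_⟩
      rw [moment_diag, if_pos rfl, Complex.ofReal_re]
      have := hC1 σ h3 h4
      linarith
    · obtain ⟨C, hC⟩ := h2 i j hij
      refine ⟨C + C1, fun σ h3 h4 => ?_⟩
      rw [if_neg hij]
      have h5 := (Complex.abs_re_le_norm _).trans (hC σ h3 h4).2.2.2.2
      rw [Complex.add_re, Complex.sub_re, Complex.ofReal_re, Complex.ofReal_re] at h5
      have h6 := (abs_le.1 h5).2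
      have h7 := hC1 σ h3 h4
      unfold LL
      linarith
  choose K hK using hB
  refine ⟨(∑ i, ∑ j, K i j) / m ^ 2, fun σ h3 h4 => ?_⟩
  have hs : ∀ i, Summable fun x => ‖t i x‖ ^ 2 * pk σ x := by
    intro i
    obtain ⟨C, hC⟩ := h1 i
    exact (hC σ h3 h4).1
  have hE := moment_expand t (fun _ => (1 : ℂ)) σ hs
  have h0 := hE.nonneg fun x => mul_nonneg (sq_nonneg _) (pk_nonneg σ x)
  simp only [map_one, one_mul, Complex.re_sum] at h0
  set S₀ : ℝ := ∑' x, ‖t i₀ x‖ ^ 2 * pk σ x with hS₀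
  have h5 : ∑ i, ∑ j, (∑' x, t i x * conj (t j x) * (pk σ x : ℂ)).re ≤
      ∑ i, ∑ j, (S₀ - (if i = j then 0 else LL σ) + K i j) :=
    Finset.sum_le_sum fun i _ => Finset.sum_le_sum fun j _ => hK i j σ h3 h4
  have h6 : ∑ i, ∑ j, (S₀ - (if i = j then 0 else LL σ) + K i j) =
      m ^ 2 * S₀ - m * (m - 1) * LL σ + ∑ i, ∑ j, K i j := by
    have e1 : ∀ i : ι, ∑ j, (S₀ - (if i = j then 0 else LL σ) + K i j) =
        m * S₀ - (m - 1) * LL σ + ∑ j, K i j := by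
      intro i
      have e2 : ∀ j : ι, (if i = j then (0 : ℝ) else LL σ) =
          LL σ - (if i = j then LL σ else 0) := fun j => by
        split_ifs <;> ring
      simp only [e2, Finset.sum_add_distrib, Finset.sum_sub_distrib, Finset.sum_const,
        Finset.card_univ, nsmul_eq_mul, Finset.sum_ite_eq, Finset.mem_univ, if_true]
      rw [hmd]
      ring
    simp only [e1, Finset.sum_add_distrib, Finset.sum_const, Finset.card_univ, nsmul_eq_mul]
    rw [hmd]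
    ring
  have h7 : 0 ≤ m ^ 2 * S₀ - m * (m - 1) * LL σ + ∑ i, ∑ j, K i j := by
    rw [← h6]
    exact h0.trans h5
  have h8 : (1 - 1 / m) * LL σ = m * (m - 1) * LL σ / m ^ 2 := by
    field_simp
  rw [h8, div_le_iff₀ (by positivity), add_mul, div_mul_cancel₀ _ (by positivity)]
  linarith

end Pool.Agent.H70A
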