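import Pool.Agent.W_7742aa_h70.TwB

/-! The sums over all prime powers. -/

set_option autoImplicit false

noncomputable section

namespace Pool.Agent.H70A

open Filter Topology ComplexConjugate Pool.Agent.GL74 Pool.Agent.GLForm74
open Pool.Agent.H74E (pk pk_nonneg pk_eq)
open Pool.Agent.H74E.SatakeSystem (ind ind_pos ind_neg ind_nonneg ind_le_one)
open Pool.Agent.H74V.SatakeSystem (tin_eq family_asy family_one ts primeSum pS_eq pS_true lt_two
  ind_summable)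

/-- The powers of a golden pair. -/
lemma golden_powers {w u : ℝ} (h1 : w + u = -1) (h2 : w * u = -1) (k : ℕ) :
    (cw w k = 2 ∧ cw u k = 2) ∨ (cw w k = w ∧ cw u k = u) ∨ (cw w k = u ∧ cw u k = w) := by
  have hu : u = -1 - w := by linarith
  subst hu
  have hw : w ^ 2 = 1 - w := by linear_combination -h2
  have key : ∀ k : ℕ,
      (cw w k = 2 ∧ cw (-1 - w) k = 2 ∧ cw w (k + 1) = w ∧ cw (-1 - w) (k + 1) = -1 - w) ∨
      (cw w k = w ∧ cw (-1 - w) k = -1 - w ∧ cw w (k + 1) = -1 - w ∧ cw (-1 - w) (k + 1) = w) ∨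
      (cw w k = -1 - w ∧ cw (-1 - w) k = w ∧ cw w (k + 1) = -1 - w ∧ cw (-1 - w) (k + 1) = w) ∨
      (cw w k = -1 - w ∧ cw (-1 - w) k = w ∧ cw w (k + 1) = w ∧ cw (-1 - w) (k + 1) = -1 - w) ∨
      (cw w k = w ∧ cw (-1 - w) k = -1 - w ∧ cw w (k + 1) = 2 ∧ cw (-1 - w) (k + 1) = 2) := by
    intro k
    induction k with
    | zero =>
      left
      rw [cw_zero, cw_zero, zero_add, cw_one, cw_one]
      simp
    | succ k ih =>
      rw [cw_add_two, cw_add_two]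
      rcases ih with ⟨a, b, c, d⟩ | ⟨a, b, c, d⟩ | ⟨a, b, c, d⟩ | ⟨a, b, c, d⟩ | ⟨a, b, c, d⟩
      · right; left
        rw [a, b, c, d]
        exact ⟨rfl, rfl, by linear_combination hw, by linear_combination hw⟩
      · right; right; left
        rw [a, b, c, d]
        exact ⟨rfl, rfl, by linear_combination -hw, by linear_combination -hw⟩
      · right; right; right; left
        rw [a, b, c, d]
        exact ⟨rfl, rfl, by linear_combination -hw, by linear_combination -hw⟩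
      · right; right; right; right
        rw [a, b, c, d]
        exact ⟨rfl, rfl, by linear_combination hw, by linear_combination hw⟩
      · left
        rw [a, b, c, d]
        exact ⟨rfl, rfl, by ring, by ring⟩
  rcases key k with ⟨a, b, -⟩ | ⟨a, b, -⟩ | ⟨a, b, -⟩ | ⟨a, b, -⟩ | ⟨a, b, -⟩
  · exact Or.inl ⟨a, b⟩
  · exact Or.inr (Or.inl ⟨a, b⟩)
  · exact Or.inr (Or.inr ⟨a, b⟩)
  · exact Or.inr (Or.inr ⟨a, b⟩)
  · exact Or.inr (Or.inl ⟨a, b⟩)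

/-- The values of `bw` at natural numbers are natural numbers. -/
lemma bw_natCast (m k : ℕ) : ∃ n : ℕ, bw (m : ℝ) k = n := by
  have h1 := bw_map (Int.castRingHom ℝ) (m : ℤ) k
  have h2 : (Int.castRingHom ℝ) (m : ℤ) = (m : ℝ) := by simp
  rw [h2] at h1
  have h3 : (0 : ℝ) ≤ bw (m : ℝ) k := bw_nonneg (Nat.cast_nonneg m) k
  rw [← h1] at h3
  have h4 : 0 ≤ bw (m : ℤ) k := by
    have h5 : (Int.castRingHom ℝ) (bw (m : ℤ) k) = ((bw (m : ℤ) k : ℤ) : ℝ) := rfl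
    rw [h5] at h3
    exact_mod_cast h3
  obtain ⟨n, hn⟩ := Int.eq_ofNat_of_zero_le h4
  refine ⟨n, ?_⟩
  rw [← h1, hn]
  simp

variable {F : Type} [Field F] [NumberField F] {π : AdjointSystem F}

namespace AdjointSystem

/-- The quantity `|tr|²` on `GL₂` at the prime powers. -/
def q₁ (π : AdjointSystem F) (σ : F →+* ℂ) (x : Nat.Primes × ℕ) : ℝ :=
  open Classical in if π.Good x.1 then bw (π.r σ x.1) (x.2 + 1) else 0

theorem b_all {σ : F →+* ℂ} (h : π.IsSquareModulus σ) : ∃ C : ℝ, ∀ s : ℝ, 1 < s → s ≤ 2 →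
    (Summable fun x => π.q₁ σ x * pk s x) ∧ ∑' x, π.q₁ σ x * pk s x ≤ LL s + C := by
  classical
  obtain ⟨P, ⟨χ, f, hf, hne, he⟩, hb⟩ := h
  have he' : ∀ p : ℕ, p.Prime → ¬ p ∣ π.level → ∀ k : ℕ, 1 ≤ k → k ≤ 2 → ∀ g, 0 < g.det →
      GLForm74.hecke χ p k f g = (Real.sqrt p : ℂ) ^ (k * (2 - k)) *
        ((-1) ^ k * (comp2 (P p)).charpoly.coeff (2 - k)) * f g := by
    intro p hp hpN k hk1 hk2 g hg
    rw [he p hp hpN k hk1 hk2 g hg]
    have hk : k = 1 ∨ k = 2 := by omega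
    rcases hk with rfl | rfl
    · rw [show 2 - 1 = 1 from rfl, comp2_coeff1]
    · rw [show 2 - 2 = 0 from rfl, comp2_coeff0]
  have hM : GLForm74.IsCuspidalSystem π.level (fun p => (comp2 (P p)).charpoly) 2 :=
    ⟨χ, f, hf, hne, he'⟩
  have hw := weakRS (s := 0) (B := fun p => comp2 (P p)) π.level_pos hf hne he'
  have h0 : ∀ x, 0 ≤ TT (fun p => p.Prime ∧ ¬ p ∣ π.level) (fun p => comp2 (P p)) x := by
    intro x
    unfold TT
    split_ifs
    · positivity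
    · exact le_rfl
  obtain ⟨C, hC⟩ := hw.log_le h0
  have e : (fun x => TT (fun p => p.Prime ∧ ¬ p ∣ π.level) (fun p => comp2 (P p)) x) =
      fun x => π.q₁ σ x := by
    funext x
    unfold TT q₁
    by_cases hp : π.Good x.1
    · rw [if_pos hp, if_pos (show ((x.1 : ℕ).Prime ∧ ¬ (x.1 : ℕ) ∣ π.level) from hp)]
      obtain ⟨u1, u2⟩ := gl2_unitary π.level_pos hM hp.1 hp.2
      obtain ⟨v1, v2, v3⟩ := inv_unitary u1 u2
      rw [norm_trace_pow v1 v2, v3]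
      congr 1
      unfold r
      rw [hb x.1 hp, Complex.ofReal_re]
      have : (comp2 (P x.1)).trace = -(P x.1).coeff 1 := by
        simp [comp2, Matrix.trace]
      rw [this, norm_neg]
    · rw [if_neg hp, if_neg (show ¬ ((x.1 : ℕ).Prime ∧ ¬ (x.1 : ℕ) ∣ π.level) from hp)]
  refine ⟨C, fun s hs hs2 => ?_⟩
  have e' : (fun x => π.q₁ σ x * pk s x) = fun x =>
      TT (fun p => p.Prime ∧ ¬ p ∣ π.level) (fun p => comp2 (P p)) x * pk s x := by
    funext x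
    rw [← congrFun e x]
  rw [e']
  exact ⟨hw.summable h0 hs, hC s hs hs2⟩

variable {σ₁ σ₂ : F →+* ℂ}

/-- The two possibilities at the prime powers. -/
theorem cases_x (h : Hyp π σ₁ σ₂) {x : Nat.Primes × ℕ} (hx : π.Good x.1) :
    (∃ n : ℕ, bw (π.r σ₁ x.1) (x.2 + 1) = n ∧ bw (π.r σ₂ x.1) (x.2 + 1) = n ∧
      (x.2 = 0 → π.b x.1 = n)) ∨
    (bw (π.r σ₁ x.1) (x.2 + 1) + bw (π.r σ₂ x.1) (x.2 + 1) = 3 ∧
      bw (π.r σ₁ x.1) (x.2 + 1) * bw (π.r σ₂ x.1) (x.2 + 1) = 1 ∧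
      ¬ ∃ m : ℕ, π.b x.1 = m) := by
  rcases values h.hs h.hE hx with ⟨m, hm⟩ | hgold
  · left
    have e : ∀ σ, π.r σ x.1 = m := by
      intro σ
      unfold r
      rw [hm, map_natCast, Complex.natCast_re]
    obtain ⟨n, hn⟩ := bw_natCast m (x.2 + 1)
    refine ⟨n, by rw [e, hn], by rw [e, hn], fun h0 => ?_⟩
    rw [h0, zero_add, bw_one] at hn
    rw [hm]
    have : m = n := by exact_mod_cast hn
    rw [this]
  · obtain ⟨g1, g2, g3⟩ := golden_pair h.hg h.hs h.hE h.hne hx hgold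
    have hprod : π.r σ₁ x.1 * π.r σ₂ x.1 = 1 := by
      have : π.r σ₂ x.1 = 3 - π.r σ₁ x.1 := by linarith
      rw [this]
      linear_combination -g1
    have hw := golden_powers (w := π.r σ₁ x.1 - 2) (u := π.r σ₂ x.1 - 2) (by linarith)
      (by linear_combination hprod - 2 * g3) (x.2 + 1)
    have hnat : ¬ ∃ m : ℕ, π.b x.1 = m := by
      rintro ⟨m, hm⟩
      exact not_large_of_gol (n := 0) ⟨hx, hgold⟩ ⟨hx, m, Nat.zero_le m, hm⟩
    rcases hw with ⟨a, b⟩ | ⟨a, b⟩ | ⟨a, b⟩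
    · left
      refine ⟨4, ?_, ?_, fun h0 => ?_⟩
      · unfold bw
        rw [a]
        norm_num
      · unfold bw
        rw [b]
        norm_num
      · exfalso
        rw [h0, zero_add, cw_one] at a
        have : π.r σ₁ x.1 = 4 := by linarith
        rw [this] at g1
        norm_num at g1
    · right
      refine ⟨?_, ?_, hnat⟩
      · unfold bw
        rw [a, b]
        linarith
      · unfold bw
        rw [a, b]
        linear_combination hprod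
    · right
      refine ⟨?_, ?_, hnat⟩
      · unfold bw
        rw [a, b]
        linarith
      · unfold bw
        rw [a, b]
        linear_combination hprod

/-- The prime is good and `b p` is a natural number other than `0, 1, 4`. -/
def Oth (π : AdjointSystem F) (p : ℕ) : Prop :=
  π.Good p ∧ ∃ m : ℕ, π.b p = m ∧ m ≠ 0 ∧ m ≠ 1 ∧ m ≠ 4

/-- The prime is good and `b p = 4`. -/
def Four (π : AdjointSystem F) (p : ℕ) : Prop := π.Good p ∧ π.b p = 4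

/-- The averages at the prime powers. -/
def E₁ (π : AdjointSystem F) (σ₁ σ₂ : F →+* ℂ) (x : Nat.Primes × ℕ) : ℝ :=
  1 / 2 * (π.q₁ σ₁ x + π.q₁ σ₂ x)

def E₂ (π : AdjointSystem F) (σ₁ σ₂ : F →+* ℂ) (x : Nat.Primes × ℕ) : ℝ :=
  1 / 2 * (‖π.ad.ts σ₁ x‖ ^ 2 + ‖π.ad.ts σ₂ x‖ ^ 2)

def E₄ (π : AdjointSystem F) (σ₁ σ₂ : F →+* ℂ) (x : Nat.Primes × ℕ) : ℝ :=
  1 / 2 * (‖π.sym.ts σ₁ x‖ ^ 2 + ‖π.sym.ts σ₂ x‖ ^ 2)

/-- The indicator function of the prime powers composed of primes not dividing `N`. -/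
def gg (N : ℕ) (x : Nat.Primes × ℕ) : ℝ := if (x.1 : ℕ) ∣ N then 0 else 1

/-- The indicator function of the primes in `Oth`. -/
def iO (π : AdjointSystem F) (x : Nat.Primes × ℕ) : ℝ := if x.2 = 0 then ind π.Oth x.1 else 0

/-- The indicator function of the primes in `Four` and the higher prime powers. -/
def iF (π : AdjointSystem F) (x : Nat.Primes × ℕ) : ℝ := if x.2 = 0 then ind π.Four x.1 else 1

lemma iO_le (x : Nat.Primes × ℕ) : iO π x ≤ 1 := by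
  unfold iO
  split_ifs
  · exact ind_le_one _ _
  · norm_num

lemma iO_nonneg (x : Nat.Primes × ℕ) : 0 ≤ iO π x := by
  unfold iO
  split_ifs
  · exact ind_nonneg _ _
  · exact le_rfl

lemma iF_nonneg (x : Nat.Primes × ℕ) : 0 ≤ iF π x := by
  unfold iF
  split_ifs
  · exact ind_nonneg _ _
  · norm_num

/-- The values at all prime powers. -/
theorem vals (h : Hyp π σ₁ σ₂) {N' : ℕ} (hN' : π.level ∣ N') (x : Nat.Primes × ℕ) :
    (¬ π.Good x.1 ∧ E₁ π σ₁ σ₂ x = 0 ∧ E₂ π σ₁ σ₂ x = 0 ∧ E₄ π σ₁ σ₂ x = 0 ∧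
      π.q₃ σ₁ N' x = 0 ∧ gg N' x = 0 ∧ ‖π.ad.ts σ₁ x - π.ad.ts σ₂ x‖ ^ 2 = 0 ∧ iO π x = 0) ∨
    (∃ n : ℕ, E₁ π σ₁ σ₂ x = n ∧ E₂ π σ₁ σ₂ x = ((n : ℝ) - 1) ^ 2 ∧
      E₄ π σ₁ σ₂ x = ((n : ℝ) ^ 2 - 3 * n + 1) ^ 2 ∧
      ((π.q₃ σ₁ N' x = 0 ∧ gg N' x = 0) ∨
        (π.q₃ σ₁ N' x = (n : ℝ) * ((n : ℝ) - 2) ^ 2 ∧ gg N' x = 1)) ∧
      ‖π.ad.ts σ₁ x - π.ad.ts σ₂ x‖ ^ 2 = 0 ∧ (n = 0 ∨ n = 1 ∨ n = 4 → iO π x = 0) ∧
      (n = 4 → iF π x = 1)) ∨
    (E₁ π σ₁ σ₂ x = 3 / 2 ∧ E₂ π σ₁ σ₂ x = 3 / 2 ∧ E₄ π σ₁ σ₂ x = 0 ∧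
      ((π.q₃ σ₁ N' x = 0 ∧ gg N' x = 0) ∨ (π.q₃ σ₁ N' x = 1 ∧ gg N' x = 1)) ∧
      ‖π.ad.ts σ₁ x - π.ad.ts σ₂ x‖ ^ 2 = 5 ∧ iO π x = 0) := by
  classical
  by_cases hgood : π.Good x.1
  swap
  · left
    have hd : (x.1 : ℕ) ∣ N' := by
      by_contra hcon
      exact hgood ⟨x.1.2, fun h8 => hcon (h8.trans hN')⟩
    refine ⟨hgood, ?_, ?_, ?_, ?_, ?_, ?_, ?_⟩
    · unfold E₁ q₁
      rw [if_neg hgood, if_neg hgood]
      norm_num
    · unfold E₂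
      rw [ad_ts_bad σ₁ hgood, ad_ts_bad σ₂ hgood]
      norm_num
    · unfold E₄
      rw [sym_ts_bad σ₁ hgood, sym_ts_bad σ₂ hgood]
      norm_num
    · unfold q₃
      rw [if_pos hd]
    · unfold gg
      rw [if_pos hd]
    · rw [ad_ts_bad σ₁ hgood, ad_ts_bad σ₂ hgood]
      norm_num
    · unfold iO
      rw [ind_neg (fun h => hgood h.1 : ¬ π.Oth x.1)]
      simp
  right
  set B1 : ℝ := bw (π.r σ₁ x.1) (x.2 + 1) with hB1
  set B2 : ℝ := bw (π.r σ₂ x.1) (x.2 + 1) with hB2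
  have h1 : E₁ π σ₁ σ₂ x = 1 / 2 * (B1 + B2) := by
    unfold E₁ q₁
    rw [if_pos hgood, if_pos hgood]
  have h2 : E₂ π σ₁ σ₂ x = 1 / 2 * ((B1 - 1) ^ 2 + (B2 - 1) ^ 2) := by
    unfold E₂
    rw [ad_ts h.hAd (h.hs σ₁) hgood, ad_ts h.hAd (h.hs σ₂) hgood,
      Complex.norm_real, Complex.norm_real, Real.norm_eq_abs, Real.norm_eq_abs, sq_abs, sq_abs]
  have h3 : E₄ π σ₁ σ₂ x = 1 / 2 * ((B1 ^ 2 - 3 * B1 + 1) ^ 2 + (B2 ^ 2 - 3 * B2 + 1) ^ 2) := by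
    unfold E₄
    rw [sym_ts h.hSym (h.hs σ₁) hgood, sym_ts h.hSym (h.hs σ₂) hgood,
      Complex.norm_real, Complex.norm_real, Real.norm_eq_abs, Real.norm_eq_abs, sq_abs, sq_abs]
  have h4 : ‖π.ad.ts σ₁ x - π.ad.ts σ₂ x‖ ^ 2 = (B1 - B2) ^ 2 := by
    rw [ad_ts h.hAd (h.hs σ₁) hgood, ad_ts h.hAd (h.hs σ₂) hgood, ← Complex.ofReal_sub,
      Complex.norm_real, Real.norm_eq_abs, sq_abs]
    congr 1
    ring
  have h5 : (π.q₃ σ₁ N' x = 0 ∧ gg N' x = 0) ∨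
      (π.q₃ σ₁ N' x = B1 * (B1 - 2) ^ 2 ∧ gg N' x = 1) := by
    unfold q₃ gg
    by_cases hd : (x.1 : ℕ) ∣ N'
    · left
      rw [if_pos hd, if_pos hd]
      exact ⟨rfl, rfl⟩
    · right
      rw [if_neg hd, if_neg hd]
      exact ⟨rfl, rfl⟩
  rcases cases_x h hgood with ⟨n, hn1, hn2, hn⟩ | ⟨g1, g2, hnat⟩
  · left
    rw [← hB1] at hn1
    rw [← hB2] at hn2
    refine ⟨n, ?_, ?_, ?_, ?_, ?_, ?_, ?_⟩
    · rw [h1, hn1, hn2]; ring
    · rw [h2, hn1, hn2]; ring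
    · rw [h3, hn1, hn2]; ring
    · rw [hn1] at h5
      exact h5
    · rw [h4, hn1, hn2]; ring
    · intro hn'
      unfold iO
      split_ifs with h0
      · refine ind_neg (P := π.Oth) ?_
        rintro ⟨-, m, hm, h6, h7, h8⟩
        have h9 : m = n := natCast_inj' (hm.symm.trans (hn h0))
        subst h9
        omega
      · rfl
    · intro hn'
      unfold iF
      split_ifs with h0
      · refine ind_pos (P := π.Four) ⟨hgood, ?_⟩
        rw [hn h0, hn']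
        norm_num
      · rfl
  · right
    rw [← hB1, ← hB2] at g1 g2
    have e2 : B2 = 3 - B1 := by linarith
    have e3 : B1 ^ 2 = 3 * B1 - 1 := by
      rw [e2] at g2
      linear_combination -g2
    refine ⟨?_, ?_, ?_, ?_, ?_, ?_⟩
    · rw [h1, g1]; norm_num
    · rw [h2, e2]
      linear_combination e3
    · have f1 : B1 ^ 2 - 3 * B1 + 1 = 0 := by linear_combination e3
      have f2 : B2 ^ 2 - 3 * B2 + 1 = 0 := by rw [e2]; linear_combination e3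
      rw [h3, f1, f2]
      norm_num
    · have f1 : B1 * (B1 - 2) ^ 2 = 1 := by linear_combination (B1 - 1) * e3
      rw [f1] at h5
      exact h5
    · rw [h4, e2]
      linear_combination 4 * e3
    · unfold iO
      split_ifs with h0
      · refine ind_neg (P := π.Oth) ?_
        rintro ⟨-, m, hm, -⟩
        exact hnat ⟨m, hm⟩
      · rfl

/-- The first pointwise inequality. -/
theorem pt1 (h : Hyp π σ₁ σ₂) {N' : ℕ} (hN' : π.level ∣ N') (x : Nat.Primes × ℕ) :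
    1 / 2 * ‖π.ad.ts σ₁ x - π.ad.ts σ₂ x‖ ^ 2 + 6 * iO π x + 3 * π.q₃ σ₁ N' x + 2 * gg N' x ≤
      E₄ π σ₁ σ₂ x + E₂ π σ₁ σ₂ x + 4 * E₁ π σ₁ σ₂ x := by
  rcases vals h hN' x with ⟨-, h1, h2, h3, h4, h5, h6, h7⟩ | ⟨n, h1, h2, h3, h4, h5, h6, h7⟩ |
    ⟨h1, h2, h3, h4, h5, h6⟩
  · rw [h1, h2, h3, h4, h5, h6, h7]
    norm_num
  · have hn0 : (0 : ℝ) ≤ n := Nat.cast_nonneg n
    have hi := iO_le (π := π) x
    rw [h1, h2, h3, h5]
    have key : 6 * iO π x ≤ (n : ℝ) * (n - 1) * (n - 4) ^ 2 := by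
      rcases (show n = 0 ∨ n = 1 ∨ n = 2 ∨ n = 3 ∨ n = 4 ∨ 5 ≤ n by omega) with
        h8 | h8 | h8 | h8 | h8 | h8
      · rw [h6 (Or.inl h8), h8]; norm_num
      · rw [h6 (Or.inr (Or.inl h8)), h8]; norm_num
      · rw [h8]; norm_num; linarith
      · rw [h8]; norm_num; linarith
      · rw [h6 (Or.inr (Or.inr h8)), h8]; norm_num
      · have h9 : (5 : ℝ) ≤ n := by exact_mod_cast h8
        have h10 : 20 ≤ (n : ℝ) * (n - 1) := by nlinarith
        have h11 : 1 ≤ ((n : ℝ) - 4) ^ 2 := by nlinarith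
        have h12 := mul_le_mul h10 h11 (by norm_num) (by linarith)
        linarith
    rcases h4 with ⟨h8, h9⟩ | ⟨h8, h9⟩
    · rw [h8, h9]
      rcases (show n = 0 ∨ 1 ≤ n by omega) with h10 | h10
      · rw [h6 (Or.inl h10), h10]; norm_num
      · have h11 : (1 : ℝ) ≤ n := by exact_mod_cast h10
        rcases (show n = 1 ∨ 2 ≤ n by omega) with h12 | h12
        · rw [h6 (Or.inr (Or.inl h12)), h12]; norm_num
        · have h13 : (2 : ℝ) ≤ n := by exact_mod_cast h12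
          nlinarith [sq_nonneg ((n : ℝ) ^ 2 - 3 * n + 1)]
    · rw [h8, h9]
      linarith
  · rw [h1, h2, h3, h5, h6]
    rcases h4 with ⟨h8, h9⟩ | ⟨h8, h9⟩ <;> rw [h8, h9] <;> norm_num

/-- The second pointwise inequality. -/
theorem pt2 (h : Hyp π σ₁ σ₂) {N' : ℕ} (hN' : π.level ∣ N') (x : Nat.Primes × ℕ) :
    7 * π.q₃ σ₁ N' x + 4 * gg N' x + 11 / 10 * ‖π.ad.ts σ₁ x - π.ad.ts σ₂ x‖ ^ 2 ≤
      12 * iF π x + 2 * E₄ π σ₁ σ₂ x + 2 * E₂ π σ₁ σ₂ x + 9 * E₁ π σ₁ σ₂ x := by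
  have hF := iF_nonneg (π := π) x
  rcases vals h hN' x with ⟨-, h1, h2, h3, h4, h5, h6, h7⟩ | ⟨n, h1, h2, h3, h4, h5, h6, h7⟩ |
    ⟨h1, h2, h3, h4, h5, h6⟩
  · rw [h1, h2, h3, h4, h5, h6]
    linarith
  · have hn0 : (0 : ℝ) ≤ n := Nat.cast_nonneg n
    rw [h1, h2, h3, h5]
    rcases h4 with ⟨h8, h9⟩ | ⟨h8, h9⟩
    · rw [h8, h9]
      have := sq_nonneg ((n : ℝ) ^ 2 - 3 * n + 1)
      have := sq_nonneg ((n : ℝ) - 1)
      linarith
    · rw [h8, h9]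
      have key : (n : ℝ) * (n - 1) * (n - 3) ≤ 12 * iF π x + 2 * ((n : ℝ) * (n - 1) * (n - 4) ^ 2) := by
        rcases (show n = 0 ∨ n = 1 ∨ n = 2 ∨ n = 3 ∨ n = 4 ∨ 5 ≤ n by omega) with
          h8 | h8 | h8 | h8 | h8 | h8
        · rw [h8]; norm_num; linarith
        · rw [h8]; norm_num; linarith
        · rw [h8]; norm_num; linarith
        · rw [h8]; norm_num; linarith
        · rw [h7 h8, h8]; norm_num
        · have h9 : (5 : ℝ) ≤ n := by exact_mod_cast h8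
          have h10 : 0 ≤ (n : ℝ) * (n - 1) := by nlinarith
          have h11 : (n : ℝ) - 3 ≤ 2 * ((n : ℝ) - 4) ^ 2 := by nlinarith
          have h12 := mul_le_mul_of_nonneg_left h11 h10
          linarith
      linarith
  · rw [h1, h2, h3, h5]
    rcases h4 with ⟨h8, h9⟩ | ⟨h8, h9⟩ <;> rw [h8, h9] <;> linarith

end AdjointSystem

end Pool.Agent.H70A
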