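import Pool.Agent.W_7742aa_h70.Fin

/-! The orders of the eigenvalues, the conclusion. -/

set_option autoImplicit false

noncomputable section

namespace Pool.Agent.H70A

open Filter Topology ComplexConjugate Pool.Agent.GL74
open Pool.Agent.H74V.SatakeSystem (DensityLE DensityGE)

variable {F : Type} [Field F] [NumberField F] {π : AdjointSystem F}

lemma pow_sixty {z w : ℂ} (hz : z ^ 2 - w * z + 1 = 0)
    (hw : w = -2 ∨ w = -1 ∨ w = 0 ∨ w = 1 ∨ w = 2 ∨ w ^ 2 + w - 1 = 0) : z ^ 60 = 1 := by
  rcases hw with h | h | h | h | h | h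
  · have h1 : (z + 1) ^ 2 = 0 := by rw [h] at hz; linear_combination hz
    have h2 : z = -1 := by
      have := pow_eq_zero_iff (two_ne_zero) |>.1 h1
      linear_combination this
    rw [h2]
    norm_num
  · have h1 : z ^ 3 = 1 := by rw [h] at hz; linear_combination (z - 1) * hz
    calc z ^ 60 = (z ^ 3) ^ 20 := by ring
      _ = 1 := by rw [h1, one_pow]
  · have h1 : z ^ 4 = 1 := by rw [h] at hz; linear_combination (z ^ 2 - 1) * hz
    calc z ^ 60 = (z ^ 4) ^ 15 := by ring
      _ = 1 := by rw [h1, one_pow]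
  · have h1 : z ^ 6 = 1 := by rw [h] at hz; linear_combination (z + 1) * (z ^ 3 - 1) * hz
    calc z ^ 60 = (z ^ 6) ^ 10 := by ring
      _ = 1 := by rw [h1, one_pow]
  · have h1 : (z - 1) ^ 2 = 0 := by rw [h] at hz; linear_combination hz
    have h2 : z = 1 := by
      have := pow_eq_zero_iff (two_ne_zero) |>.1 h1
      linear_combination this
    rw [h2]
    norm_num
  · have h1 : z ^ 5 = 1 := by
      have h3 : (z ^ 2 - w * z + 1) * (z ^ 2 + (1 + w) * z + 1) =
          z ^ 4 + z ^ 3 + z ^ 2 + z + 1 - (w ^ 2 + w - 1) * z ^ 2 := by ring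
      rw [hz, h] at h3
      linear_combination -(z - 1) * h3
    calc z ^ 60 = (z ^ 5) ^ 12 := by ring
      _ = 1 := by rw [h1, one_pow]

lemma adMat_charpoly_root {R : Type} [Field R] {b z : R} (h : (adMat b).charpoly.IsRoot z) :
    z = 1 ∨ z ^ 2 - (b - 2) * z + 1 = 0 := by
  have h1 : (adMat b).charpoly = (Polynomial.X - 1) *
      (Polynomial.X ^ 2 - Polynomial.C (b - 2) * Polynomial.X + 1) := by
    have e : adMat b = Matrix.reindex finSumFinEquiv finSumFinEquiv
        (Matrix.fromBlocks (1 : Matrix (Fin 1) (Fin 1) R) 0 0 (mw (b - 2))) := by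
      rw [adMat_eq]
      ext i j
      fin_cases i <;> fin_cases j <;> rfl
    rw [e, Matrix.charpoly_reindex, Matrix.charpoly_fromBlocks_zero₁₂, mw_charpoly]
    congr 1
    simp [Matrix.charpoly, Matrix.charmatrix]
  rw [h1, Polynomial.IsRoot, Polynomial.eval_mul, mul_eq_zero] at h
  rcases h with h | h
  · left
    simp only [Polynomial.eval_sub, Polynomial.eval_X, Polynomial.eval_one] at h
    exact sub_eq_zero.1 h
  · right
    simpa using h

namespace AdjointSystem

theorem order_ge {σ₁ σ₂ : F →+* ℂ} (h : Hyp π σ₁ σ₂) :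
    DensityGE (fun p => π.Good p ∧ ∀ (σ : F →+* ℂ) (z : ℂ),
      ((π.ad.A p).charpoly.map σ).IsRoot z → z ^ 60 = 1) (299 / 300) := by
  have h1 := small_ge h (large_le h (n := 5) (by norm_num))
  norm_num at h1
  intro ε hε
  filter_upwards [h1 ε hε, self_mem_nhdsWithin] with s e1 e2
  have hs : (1 : ℝ) < s := e2
  refine e1.trans (H74V.SatakeSystem.pS_mono ?_ hs)
  rintro p ⟨hp, hb⟩
  refine ⟨hp, fun σ z hz => ?_⟩
  have h2 : ((adMat (π.b p)).charpoly.map σ) = (adMat (σ (π.b p))).charpoly := by
    rw [← Matrix.charpoly_map, adMat_map]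
  have h3 : ((adMat (π.b p)).charpoly.map σ).IsRoot z := hz
  rw [h2] at h3
  rcases adMat_charpoly_root h3 with h4 | h4
  · rw [h4, one_pow]
  refine pow_sixty h4 ?_
  rcases hb with ⟨m, hm, hbm⟩ | hgold
  · rw [hbm, map_natCast]
    interval_cases m <;> norm_num
  · right; right; right; right; right
    have := congrArg σ hgold
    rw [map_add, map_sub, map_mul, map_pow, map_one, map_ofNat, map_zero] at this
    linear_combination this

end AdjointSystem

end Pool.Agent.H70A
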