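import Pool.Agent.W_7742aa_h70.LpX
import Pool.Agent.W_7742aa_h70.Ord

/-! The sums and the densities when the cube has quadratic twists. -/

set_option autoImplicit false

noncomputable section

namespace Pool.Agent.H70A

open Filter Topology ComplexConjugate Pool.Agent.GL74 Pool.Agent.GLForm74
open Pool.Agent.H74E (pk pk_nonneg pk_eq)
open Pool.Agent.H74E.SatakeSystem (ind ind_pos ind_neg ind_nonneg ind_le_one)
open Pool.Agent.H74V.SatakeSystem (tin_eq family_asy family_one ts primeSum pS_eq pS_true lt_two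
  ind_summable pS_mono pS_large DensityLE DensityGE)

variable {F : Type} [Field F] [NumberField F] {π : AdjointSystem F}

namespace AdjointSystem

variable {σ₁ σ₂ : F →+* ℂ}

/-- The two inequalities between the sums. -/
theorem two_sums (h : Hyp π σ₁ σ₂) (hC : π.HasCube σ₁) {m : ℕ} (hm : 0 < m) :
    ∃ C : ℝ, ∀ᶠ s in 𝓝[>] (1 : ℝ),
      primeSum π.Oth s ≤ 1 / (m : ℝ) * LL s + C ∧
      (1 / 60 - 1 / (m : ℝ)) * LL s ≤ primeSum π.Four s + C := by
  classical
  obtain ⟨N', hN', hNN', C3, k3⟩ := cube_lower h hC hm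
  obtain ⟨C0, k0⟩ := good_ge hN'
  obtain ⟨C1, k1⟩ := b_all (h.hs σ₁)
  obtain ⟨C1', k1'⟩ := b_all (h.hs σ₂)
  obtain ⟨C2, k2⟩ := family_one (by norm_num) h.hAd σ₁
  obtain ⟨C2', k2'⟩ := family_one (by norm_num) h.hAd σ₂
  obtain ⟨C4, k4⟩ := family_one (by norm_num) h.hSym σ₁
  obtain ⟨C4', k4'⟩ := family_one (by norm_num) h.hSym σ₂
  obtain ⟨C5, k5⟩ := pair_diff (ad_asy h.hg h.hAd h.hne)
  set H : ℝ := ∑' x, hp x with hH
  set D1 : ℝ := 1 / 2 * C5 + 3 * C3 + 2 * C0 + 1 / 2 * (C4 + C4') + 1 / 2 * (C2 + C2') +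
    2 * (C1 + C1') with hD1
  set D2 : ℝ := 7 * C3 + 4 * C0 + 11 / 10 * C5 + 12 * H + (C4 + C4') + (C2 + C2') +
    9 / 2 * (C1 + C1') with hD2
  refine ⟨|D1| + |D2|, ?_⟩
  have hLpos : ∀ᶠ s in 𝓝[>] (1 : ℝ), 0 ≤ LL s := by
    filter_upwards [Maass74.tendsto_neg_log.eventually_ge_atTop 0] with s hs
    rw [LL_eq]
    exact hs
  filter_upwards [k0, lt_two, self_mem_nhdsWithin, hLpos] with s f0 e1 e2 hL
  have hs1 : (1 : ℝ) < s := e2
  obtain ⟨m3, n3⟩ := k3 s hs1 e1.le
  obtain ⟨m1, n1⟩ := k1 s hs1 e1.le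
  obtain ⟨m1', n1'⟩ := k1' s hs1 e1.le
  obtain ⟨m2, n2⟩ := k2 s hs1 e1.le
  obtain ⟨m2', n2'⟩ := k2' s hs1 e1.le
  obtain ⟨m4, n4⟩ := k4 s hs1 e1.le
  obtain ⟨m4', n4'⟩ := k4' s hs1 e1.le
  obtain ⟨m5, n5⟩ := k5 s hs1 e1.le
  have hpk := H74E.summable_pk hs1
  have hgg0 : ∀ x, 0 ≤ gg N' x := fun x => by
    unfold gg
    split_ifs <;> norm_num
  have hgg1 : ∀ x, gg N' x ≤ 1 := fun x => by
    unfold gg
    split_ifs <;> norm_num
  have mg : Summable fun x => gg N' x * pk s x :=
    Summable.of_nonneg_of_le (fun x => mul_nonneg (hgg0 x) (pk_nonneg s x))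
      (fun x => by
        calc gg N' x * pk s x ≤ 1 * pk s x := mul_le_mul_of_nonneg_right (hgg1 x) (pk_nonneg s x)
          _ = pk s x := one_mul _) hpk
  have mO : Summable fun x => iO π x * pk s x :=
    Summable.of_nonneg_of_le (fun x => mul_nonneg (iO_nonneg x) (pk_nonneg s x))
      (fun x => by
        calc iO π x * pk s x ≤ 1 * pk s x := mul_le_mul_of_nonneg_right (iO_le x) (pk_nonneg s x)
          _ = pk s x := one_mul _) hpk
  have hiF1 : ∀ x, iF π x ≤ 1 := fun x => by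
    unfold iF
    split_ifs
    · exact ind_le_one _ _
    · norm_num
  have mF : Summable fun x => iF π x * pk s x :=
    Summable.of_nonneg_of_le (fun x => mul_nonneg (iF_nonneg x) (pk_nonneg s x))
      (fun x => by
        calc iF π x * pk s x ≤ 1 * pk s x := mul_le_mul_of_nonneg_right (hiF1 x) (pk_nonneg s x)
          _ = pk s x := one_mul _) hpk
  -- the sum over the good prime powers
  have hg : LL s ≤ ∑' x, gg N' x * pk s x + C0 := by
    obtain ⟨-, r2⟩ := restrict hgg0 mg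
    have e : ∑' p : Nat.Primes, gg N' (p, 0) * ((p : ℕ) : ℝ) ^ (-s) =
        primeSum (fun p => p.Prime ∧ ¬ p ∣ N') s := by
      rw [pS_eq]
      refine tsum_congr fun p => ?_
      congr 1
      unfold gg
      by_cases hd : (p : ℕ) ∣ N'
      · rw [ind_neg (P := fun p => p.Prime ∧ ¬ p ∣ N') (fun h => h.2 hd)]
        simp [hd]
      · rw [ind_pos (P := fun p => p.Prime ∧ ¬ p ∣ N') ⟨p.2, hd⟩]
        simp [hd]
    rw [e] at r2
    linarith
  have hO : primeSum π.Oth s ≤ ∑' x, iO π x * pk s x := by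
    obtain ⟨-, r2⟩ := restrict (T := iO π) (fun x => iO_nonneg x) mO
    have e : ∑' p : Nat.Primes, iO π (p, 0) * ((p : ℕ) : ℝ) ^ (-s) = primeSum π.Oth s := by
      rw [pS_eq]
      refine tsum_congr fun p => ?_
      congr 1
    rw [e] at r2
    exact r2
  have hF : ∑' x, iF π x * pk s x ≤ primeSum π.Four s + H := by
    have r3 := high (T := iF π) (fun x => iF_nonneg x) (c := 1) zero_le_one
      (fun x _ => hiF1 x) hs1 mF
    have e : ∑' p : Nat.Primes, iF π (p, 0) * ((p : ℕ) : ℝ) ^ (-s) = primeSum π.Four s := by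
      rw [pS_eq]
      refine tsum_congr fun p => ?_
      congr 1
    rw [e, one_mul] at r3
    exact r3
  have key1 := hasSum_le (fun x : Nat.Primes × ℕ => ?_)
    ((((m5.hasSum.mul_left (1 / 2)).add (mO.hasSum.mul_left 6)).add
      (m3.hasSum.mul_left 3)).add (mg.hasSum.mul_left 2))
    (((((m4.hasSum.add m4'.hasSum).mul_left (1 / 2)).add
      ((m2.hasSum.add m2'.hasSum).mul_left (1 / 2)))).add
      ((m1.hasSum.add m1'.hasSum).mul_left 2))
  swap
  · have h1 := mul_le_mul_of_nonneg_right (pt1 h hNN' x) (pk_nonneg s x)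
    unfold E₁ E₂ E₄ at h1
    linarith
  have key2 := hasSum_le (fun x : Nat.Primes × ℕ => ?_)
    (((m3.hasSum.mul_left 7).add (mg.hasSum.mul_left 4)).add (m5.hasSum.mul_left (11 / 10)))
    ((((mF.hasSum.mul_left 12).add (m4.hasSum.add m4'.hasSum)).add
      (m2.hasSum.add m2'.hasSum)).add ((m1.hasSum.add m1'.hasSum).mul_left (9 / 2)))
  swap
  · have h1 := mul_le_mul_of_nonneg_right (pt2 h hNN' x) (pk_nonneg s x)
    unfold E₁ E₂ E₄ at h1
    linarith
  have hm1 : (0 : ℝ) < m := by exact_mod_cast hm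
  have hmL : 0 ≤ 1 / (m : ℝ) * LL s := by positivity
  have n3' : LL s - 1 / (m : ℝ) * LL s ≤ ∑' x, π.q₃ σ₁ N' x * pk s x + C3 := by
    linarith
  obtain ⟨n5a, n5b⟩ := abs_le.1 n5
  have hD1' := le_abs_self D1
  have hD2' := le_abs_self D2
  have hD1'' := abs_nonneg D1
  have hD2'' := abs_nonneg D2
  unfold LL at *
  constructor <;> linarith

/-- A function is at most `θ` times the sum over the primes, up to `ε`. -/
def ULE (f : ℝ → ℝ) (θ : ℝ) : Prop :=
  ∀ ε : ℝ, 0 < ε → ∀ᶠ s in 𝓝[>] (1 : ℝ), f s ≤ (θ + ε) * primeSum (fun _ => True) s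

lemma ule_of_le {f : ℝ → ℝ} {θ : ℝ}
    (h : ∀ m : ℕ, 0 < m → ∃ C : ℝ, ∀ᶠ s in 𝓝[>] (1 : ℝ), f s ≤ (θ + 1 / (m : ℝ)) * LL s + C) :
    ULE f θ := by
  intro ε hε
  obtain ⟨m, hm⟩ := exists_nat_gt (2 / ε)
  have hm0 : (0 : ℝ) < m := lt_trans (by positivity) hm
  have hm0' : 0 < m := by exact_mod_cast hm0
  have hme : 1 / (m : ℝ) ≤ ε / 2 := by
    rw [div_le_iff₀ hm0]
    rw [div_lt_iff₀ hε] at hm
    linarith
  obtain ⟨C, hC⟩ := h m hm0'
  obtain ⟨C0, hC0⟩ := Maass74.neg_log_le_primes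
  obtain ⟨C1, hC1⟩ := true_le
  set A : ℝ := |θ + 1 / (m : ℝ)| * (|C0| + |C1|) + |C| with hA
  filter_upwards [hC, hC0, hC1, pS_large (A / (ε / 2))] with s h5 h1 h1' h2
  rw [← pS_true, ← LL_eq] at h1
  have hε2 : 0 < ε / 2 := by linarith
  have h7 : A ≤ ε / 2 * primeSum (fun _ => True) s := by
    have := mul_le_mul_of_nonneg_left h2 hε2.le
    rwa [mul_div_cancel₀ _ hε2.ne'] at this
  have hT : 0 ≤ primeSum (fun _ => True) s := by
    have hA0 : 0 ≤ A := by positivity
    by_contra hcon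
    push Not at hcon
    nlinarith
  have h8 : (θ + 1 / (m : ℝ)) * (LL s - primeSum (fun _ => True) s) ≤
      |θ + 1 / (m : ℝ)| * (|C0| + |C1|) := by
    refine (le_abs_self _).trans ?_
    rw [abs_mul]
    refine mul_le_mul_of_nonneg_left ?_ (abs_nonneg _)
    rw [abs_le]
    have := le_abs_self C0
    have := le_abs_self C1
    have := abs_nonneg C0
    have := abs_nonneg C1
    constructor <;> linarith
  have h9 : 1 / (m : ℝ) * primeSum (fun _ => True) s ≤ ε / 2 * primeSum (fun _ => True) s :=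
    mul_le_mul_of_nonneg_right hme hT
  have h10 := le_abs_self C
  linarith

lemma ule_of_le' {f : ℝ → ℝ} {θ C : ℝ} (h : ∀ᶠ s in 𝓝[>] (1 : ℝ), f s ≤ θ * LL s + C) :
    ULE f θ := by
  refine ule_of_le fun m hm => ⟨C, ?_⟩
  have hLpos : ∀ᶠ s in 𝓝[>] (1 : ℝ), 0 ≤ LL s := by
    filter_upwards [Maass74.tendsto_neg_log.eventually_ge_atTop 0] with s hs
    rw [LL_eq]
    exact hs
  filter_upwards [h, hLpos] with s h1 h2
  have hm1 : (0 : ℝ) < m := by exact_mod_cast hm
  have : 0 ≤ 1 / (m : ℝ) * LL s := by positivity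
  linarith

lemma ULE.add {f g : ℝ → ℝ} {θ η : ℝ} (h1 : ULE f θ) (h2 : ULE g η) :
    ULE (fun s => f s + g s) (θ + η) := by
  intro ε hε
  filter_upwards [h1 (ε / 2) (by linarith), h2 (ε / 2) (by linarith)] with s h3 h4
  linarith

lemma ULE.smul {f : ℝ → ℝ} {θ c : ℝ} (hc : 0 ≤ c) (h1 : ULE f θ) :
    ULE (fun s => c * f s) (c * θ) := by
  intro ε hε
  rcases hc.eq_or_lt with rfl | hc
  · filter_upwards [pS_large 0] with s h2
    have := mul_nonneg hε.le h2
    linarith
  · filter_upwards [h1 (ε / c) (by positivity)] with s h3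
    have h4 := mul_le_mul_of_nonneg_left h3 hc.le
    have h5 : c * ((θ + ε / c) * primeSum (fun _ => True) s) =
        (c * θ + ε) * primeSum (fun _ => True) s := by
      field_simp
    linarith

lemma ULE.mono {f g : ℝ → ℝ} {θ : ℝ} (h1 : ULE g θ) (h : ∀ᶠ s in 𝓝[>] (1 : ℝ), f s ≤ g s) :
    ULE f θ := by
  intro ε hε
  filter_upwards [h1 ε hε, h] with s h3 h4
  exact h4.trans h3

lemma ule_of_dens {P : ℕ → Prop} {θ : ℝ} (h : DensityLE P θ) : ULE (primeSum P) θ := h

lemma ule_of_dens_ge {P : ℕ → Prop} {θ : ℝ} (h : DensityGE P θ) :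
    ULE (fun s => -primeSum P s) (-θ) := by
  intro ε hε
  filter_upwards [h ε hε] with s h3
  linarith

lemma dens_ge_of_ule {P : ℕ → Prop} {θ : ℝ} (h : ULE (fun s => -primeSum P s) (-θ)) :
    DensityGE P θ := by
  intro ε hε
  filter_upwards [h ε hε] with s h3
  linarith

theorem oth_le (h : Hyp π σ₁ σ₂) (hC : π.HasCube σ₁) : DensityLE π.Oth 0 := by
  refine ule_of_le fun m hm => ?_
  obtain ⟨C, hC⟩ := two_sums h hC hm
  refine ⟨C, ?_⟩
  filter_upwards [hC] with s hs
  rw [zero_add]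
  exact hs.1

theorem four_ge (h : Hyp π σ₁ σ₂) (hC : π.HasCube σ₁) : DensityGE π.Four (1 / 60) := by
  refine dens_ge_of_ule (ule_of_le fun m hm => ?_)
  obtain ⟨C, hC⟩ := two_sums h hC hm
  refine ⟨C, ?_⟩
  filter_upwards [hC] with s hs
  linarith [hs.2]

theorem four_le (h : Hyp π σ₁ σ₂) : DensityLE π.Four (1 / 60) := by
  have h1 := large_le h (n := 4) le_rfl
  norm_num at h1
  have h2 : DensityLE π.Four (1 / 60) := by
    refine H74V.SatakeSystem.dens_mono (Q := π.Large 4) ?_ h1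
    rintro p ⟨h1, h2⟩
    exact ⟨h1, 4, le_rfl, by rw [h2]; norm_num⟩
  exact h2

/-- The linear programming argument with two sets. -/
theorem lp2 (h : Hyp π σ₁ σ₂) {P P' : ℕ → Prop} {c₁ c₂ κ κ' : ℝ} (h₁ : 0 ≤ c₁)
    (h₂ : 0 ≤ c₂)
    (hpt : ∀ p : Nat.Primes, 3 / 2 * (c₁ + c₂) * ind π.Gol p + κ * ind P p + κ' * ind P' p ≤
      c₁ * e₁ π σ₁ σ₂ p + c₂ * e₂ π σ₁ σ₂ p) :
    ∃ C : ℝ, ∀ᶠ s in 𝓝[>] (1 : ℝ),
      κ * primeSum P s + κ' * primeSum P' s ≤ 2 / 5 * (c₁ + c₂) * LL s + C := by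
  classical
  obtain ⟨C1, k1⟩ := b_mean (h.hs σ₁)
  obtain ⟨C1', k1'⟩ := b_mean (h.hs σ₂)
  obtain ⟨C2, k2⟩ := family_one (by norm_num) h.hAd σ₁
  obtain ⟨C2', k2'⟩ := family_one (by norm_num) h.hAd σ₂
  obtain ⟨C4, k4⟩ := golden_sum h.hg h.hs h.hAd h.hE h.hne
  refine ⟨c₁ * (1 / 2 * (C1 + C1')) + c₂ * (1 / 2 * (C2 + C2')) + 3 / 2 * (c₁ + c₂) * C4, ?_⟩
  filter_upwards [k4, lt_two, self_mem_nhdsWithin] with s f4 e1 e2
  have hs1 : (1 : ℝ) < s := e2
  obtain ⟨m1, n1⟩ := k1 s hs1 e1.le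
  obtain ⟨m1', n1'⟩ := k1' s hs1 e1.le
  obtain ⟨m2, n2⟩ := k2 s hs1 e1.le
  obtain ⟨m2', n2'⟩ := k2' s hs1 e1.le
  obtain ⟨p2, q2⟩ := restrict (T := fun x => ‖π.ad.ts σ₁ x‖ ^ 2) (fun x => sq_nonneg _) m2
  obtain ⟨p2', q2'⟩ := restrict (T := fun x => ‖π.ad.ts σ₂ x‖ ^ 2) (fun x => sq_nonneg _) m2'
  have E1 := (m1.hasSum.add m1'.hasSum).mul_left (1 / 2)
  have E2 := (p2.hasSum.add p2'.hasSum).mul_left (1 / 2)
  have key := hasSum_le (fun p : Nat.Primes => ?_)
    ((((ind_summable π.Gol hs1).hasSum.mul_left (3 / 2 * (c₁ + c₂))).add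
      ((ind_summable P hs1).hasSum.mul_left κ)).add ((ind_summable P' hs1).hasSum.mul_left κ'))
    ((E1.mul_left c₁).add (E2.mul_left c₂))
  · rw [← pS_eq, ← pS_eq, ← pS_eq] at key
    have hcc : 0 ≤ 3 / 2 * (c₁ + c₂) := by positivity
    have f5 := mul_le_mul_of_nonneg_left (abs_le.1 f4).1 hcc
    have w1 := mul_le_mul_of_nonneg_left (add_le_add n1 n1') h₁
    have w2 := mul_le_mul_of_nonneg_left (add_le_add (q2.trans n2) (q2'.trans n2')) h₂
    unfold LL at *
    linarith
  · have hpos : (0 : ℝ) ≤ ((p : ℕ) : ℝ) ^ (-s) := by positivity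
    have h5 := mul_le_mul_of_nonneg_right (hpt p) hpos
    unfold e₁ e₂ at h5
    linarith

def Zer (π : AdjointSystem F) (p : ℕ) : Prop := π.Good p ∧ π.b p = 0

def One (π : AdjointSystem F) (p : ℕ) : Prop := π.Good p ∧ π.b p = 1

theorem one_four (h : Hyp π σ₁ σ₂) :
    ULE (fun s => 1 * primeSum π.One s + 4 * primeSum π.Four s) (2 / 5) := by
  obtain ⟨C, hC⟩ := lp2 (P := π.One) (P' := π.Four) (c₁ := 1) (c₂ := 0) (κ := 1) (κ' := 4) h
    zero_le_one le_rfl (fun p => by
    rcases cases_p h.hg h.hs h.hAd h.hSym h.hE h.hne p with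
      ⟨h1, h2, h3, h4⟩ | ⟨m, h1, hm, h2, h3, h4, h5⟩ | ⟨h1, h2, h3, h4, h5⟩
    · rw [ind_neg (fun h => h1 h.1 : ¬ π.Gol p), ind_neg (fun h => h1 h.1 : ¬ π.One p),
        ind_neg (fun h => h1 h.1 : ¬ π.Four p), h2]
      norm_num
    · rw [ind_neg h2, h3]
      have hm0 : (0 : ℝ) ≤ m := Nat.cast_nonneg m
      by_cases hm1 : m = 1
      · rw [ind_neg (P := π.Four), hm1]
        · have := ind_le_one π.One p
          push_cast
          linarith
        · rintro ⟨-, h9⟩
          rw [hm, hm1] at h9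
          have : (1 : ℕ) = 4 := natCast_inj' (F := F) (by push_cast; exact_mod_cast h9)
          omega
      · rw [ind_neg (P := π.One)]
        · by_cases hm4 : m = 4
          · have := ind_le_one π.Four p
            rw [hm4]
            push_cast
            linarith
          · rw [ind_neg (P := π.Four)]
            · linarith
            · rintro ⟨-, h9⟩
              apply hm4
              refine natCast_inj' (F := F) (hm.symm.trans ?_)
              rw [h9]
              norm_num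
        · rintro ⟨-, h9⟩
          apply hm1
          refine natCast_inj' (F := F) (hm.symm.trans ?_)
          rw [h9]
          norm_num
    · rw [ind_pos h2, h3, ind_neg (P := π.One), ind_neg (P := π.Four)]
      · norm_num
      · rintro ⟨-, h9⟩
        exact not_large_of_gol (n := 0) h2 ⟨h1, 4, by norm_num, by rw [h9]; norm_num⟩
      · rintro ⟨-, h9⟩
        exact not_large_of_gol (n := 0) h2 ⟨h1, 1, by norm_num, by rw [h9]; norm_num⟩)
  refine ule_of_le' (C := C) ?_
  filter_upwards [hC] with s hs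
  linarith

theorem zero_four (h : Hyp π σ₁ σ₂) :
    ULE (fun s => 1 * primeSum π.Zer s + 9 * primeSum π.Four s) (2 / 5) := by
  obtain ⟨C, hC⟩ := lp2 (P := π.Zer) (P' := π.Four) (c₁ := 0) (c₂ := 1) (κ := 1) (κ' := 9) h
    le_rfl zero_le_one (fun p => by
    rcases cases_p h.hg h.hs h.hAd h.hSym h.hE h.hne p with
      ⟨h1, h2, h3, h4⟩ | ⟨m, h1, hm, h2, h3, h4, h5⟩ | ⟨h1, h2, h3, h4, h5⟩
    · rw [ind_neg (fun h => h1 h.1 : ¬ π.Gol p), ind_neg (fun h => h1 h.1 : ¬ π.Zer p),
        ind_neg (fun h => h1 h.1 : ¬ π.Four p), h3]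
      norm_num
    · rw [ind_neg h2, h4]
      have hm0 : (0 : ℝ) ≤ ((m : ℝ) - 1) ^ 2 := sq_nonneg _
      by_cases hm1 : m = 0
      · rw [ind_neg (P := π.Four), hm1]
        · have := ind_le_one π.Zer p
          push_cast
          linarith
        · rintro ⟨-, h9⟩
          rw [hm, hm1] at h9
          have : (0 : ℕ) = 4 := natCast_inj' (F := F) (by push_cast; exact_mod_cast h9)
          omega
      · rw [ind_neg (P := π.Zer)]
        · by_cases hm4 : m = 4
          · have := ind_le_one π.Four p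
            rw [hm4]
            push_cast
            linarith
          · rw [ind_neg (P := π.Four)]
            · linarith
            · rintro ⟨-, h9⟩
              apply hm4
              refine natCast_inj' (F := F) (hm.symm.trans ?_)
              rw [h9]
              norm_num
        · rintro ⟨-, h9⟩
          apply hm1
          refine natCast_inj' (F := F) (hm.symm.trans ?_)
          rw [h9]
          norm_num
    · rw [ind_pos h2, h4, ind_neg (P := π.Zer), ind_neg (P := π.Four)]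
      · norm_num
      · rintro ⟨-, h9⟩
        exact not_large_of_gol (n := 0) h2 ⟨h1, 4, by norm_num, by rw [h9]; norm_num⟩
      · rintro ⟨-, h9⟩
        exact not_large_of_gol (n := 0) h2 ⟨h1, 0, by norm_num, by rw [h9]; norm_num⟩)
  refine ule_of_le' (C := C) ?_
  filter_upwards [hC] with s hs
  linarith

theorem one_le' (h : Hyp π σ₁ σ₂) (hC : π.HasCube σ₁) : DensityLE π.One (1 / 3) := by
  have h1 := (one_four h).add ((ule_of_dens_ge (four_ge h hC)).smul (c := 4) (by norm_num))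
  norm_num at h1
  refine ULE.mono h1 (Eventually.of_forall fun s => ?_)
  linarith

theorem zero_le' (h : Hyp π σ₁ σ₂) (hC : π.HasCube σ₁) : DensityLE π.Zer (1 / 4) := by
  have h1 := (zero_four h).add ((ule_of_dens_ge (four_ge h hC)).smul (c := 9) (by norm_num))
  norm_num at h1
  refine ULE.mono h1 (Eventually.of_forall fun s => ?_)
  linarith

/-- All primes but finitely many belong to one of the five sets. -/
theorem cover (h : Hyp π σ₁ σ₂) : ULE (fun s => -(primeSum π.Zer s + primeSum π.One s +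
    primeSum π.Four s + primeSum π.Gol s + primeSum π.Oth s)) (-1) := by
  obtain ⟨C, hC⟩ := good_ge π.level_pos
  refine ule_of_le' (C := C) ?_
  filter_upwards [hC, self_mem_nhdsWithin] with s h1 h2
  have hs1 : (1 : ℝ) < s := h2
  have key := hasSum_le (fun p : Nat.Primes => ?_)
    (ind_summable (fun p => p.Prime ∧ ¬ p ∣ π.level) hs1).hasSum
    ((((((ind_summable π.Zer hs1).hasSum.add (ind_summable π.One hs1).hasSum)).add
      (ind_summable π.Four hs1).hasSum).add (ind_summable π.Gol hs1).hasSum).add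
      (ind_summable π.Oth hs1).hasSum)
  · rw [← pS_eq, ← pS_eq, ← pS_eq, ← pS_eq, ← pS_eq, ← pS_eq] at key
    linarith
  · have hpos : (0 : ℝ) ≤ ((p : ℕ) : ℝ) ^ (-s) := by positivity
    have n1 := mul_nonneg (ind_nonneg π.Zer p) hpos
    have n2 := mul_nonneg (ind_nonneg π.One p) hpos
    have n3 := mul_nonneg (ind_nonneg π.Four p) hpos
    have n4 := mul_nonneg (ind_nonneg π.Gol p) hpos
    have n5 := mul_nonneg (ind_nonneg π.Oth p) hpos
    by_cases hgood : π.Good p
    · rw [ind_pos (P := fun p => p.Prime ∧ ¬ p ∣ π.level) hgood]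
      rcases values h.hs h.hE hgood with ⟨m, hm⟩ | hgold
      · by_cases m0 : m = 0
        · rw [ind_pos (P := π.Zer) ⟨hgood, by rw [hm, m0, Nat.cast_zero]⟩] at n1 ⊢
          linarith
        · by_cases m1 : m = 1
          · rw [ind_pos (P := π.One) ⟨hgood, by rw [hm, m1, Nat.cast_one]⟩] at n2 ⊢
            linarith
          · by_cases m4 : m = 4
            · rw [ind_pos (P := π.Four) ⟨hgood, by rw [hm, m4]; norm_num⟩] at n3 ⊢
              linarith
            · rw [ind_pos (P := π.Oth) ⟨hgood, m, hm, m0, m1, m4⟩] at n5 ⊢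
              linarith
      · rw [ind_pos (P := π.Gol) ⟨hgood, hgold⟩] at n4 ⊢
        linarith
    · rw [ind_neg (P := fun p => p.Prime ∧ ¬ p ∣ π.level) hgood]
      linarith

theorem one_ge' (h : Hyp π σ₁ σ₂) (hC : π.HasCube σ₁) : DensityGE π.One (1 / 3) := by
  have h1 := ((((cover h).add (ule_of_dens (zero_le' h hC))).add (ule_of_dens (four_le h))).add
    (ule_of_dens (golden_le h))).add (ule_of_dens (oth_le h hC))
  norm_num at h1
  refine dens_ge_of_ule ?_
  norm_num
  refine ULE.mono h1 (Eventually.of_forall fun s => ?_)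
  linarith

theorem zero_ge' (h : Hyp π σ₁ σ₂) (hC : π.HasCube σ₁) : DensityGE π.Zer (1 / 4) := by
  have h1 := ((((cover h).add (ule_of_dens (one_le' h hC))).add (ule_of_dens (four_le h))).add
    (ule_of_dens (golden_le h))).add (ule_of_dens (oth_le h hC))
  norm_num at h1
  refine dens_ge_of_ule ?_
  norm_num
  refine ULE.mono h1 (Eventually.of_forall fun s => ?_)
  linarith

lemma pow_thirty {z w : ℂ} (hz : z ^ 2 - w * z + 1 = 0)
    (hw : w = -2 ∨ w = -1 ∨ w = 2 ∨ w ^ 2 + w - 1 = 0) : z ^ 30 = 1 := by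
  rcases hw with h | h | h | h
  · have h1 : (z + 1) ^ 2 = 0 := by rw [h] at hz; linear_combination hz
    have h2 : z = -1 := by
      have := pow_eq_zero_iff (two_ne_zero) |>.1 h1
      linear_combination this
    rw [h2]
    norm_num
  · have h1 : z ^ 3 = 1 := by rw [h] at hz; linear_combination (z - 1) * hz
    calc z ^ 30 = (z ^ 3) ^ 10 := by ring
      _ = 1 := by rw [h1, one_pow]
  · have h1 : (z - 1) ^ 2 = 0 := by rw [h] at hz; linear_combination hz
    have h2 : z = 1 := by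
      have := pow_eq_zero_iff (two_ne_zero) |>.1 h1
      linear_combination this
    rw [h2]
    norm_num
  · have h1 : z ^ 5 = 1 := by
      have h3 : (z ^ 2 - w * z + 1) * (z ^ 2 + (1 + w) * z + 1) =
          z ^ 4 + z ^ 3 + z ^ 2 + z + 1 - (w ^ 2 + w - 1) * z ^ 2 := by ring
      rw [hz, h] at h3
      linear_combination -(z - 1) * h3
    calc z ^ 30 = (z ^ 5) ^ 6 := by ring
      _ = 1 := by rw [h1, one_pow]

theorem order_one (h : Hyp π σ₁ σ₂) (hC : π.HasCube σ₁) :
    DensityGE (fun p => π.Good p ∧ ∀ (σ : F →+* ℂ) (z : ℂ),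
      ((π.ad.A p).charpoly.map σ).IsRoot z → z ^ 30 = 1) 1 := by
  have h1 := (cover h).add (ule_of_dens (oth_le h hC))
  norm_num at h1
  refine dens_ge_of_ule ?_
  refine ULE.mono h1 ?_
  filter_upwards [self_mem_nhdsWithin] with s h2
  have hs1 : (1 : ℝ) < s := h2
  have key := hasSum_le (fun p : Nat.Primes => ?_)
    (((((ind_summable π.Zer hs1).hasSum.add (ind_summable π.One hs1).hasSum)).add
      (ind_summable π.Four hs1).hasSum).add (ind_summable π.Gol hs1).hasSum)
    (ind_summable (fun p => π.Good p ∧ ∀ (σ : F →+* ℂ) (z : ℂ),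
      ((π.ad.A p).charpoly.map σ).IsRoot z → z ^ 30 = 1) hs1).hasSum
  · rw [← pS_eq, ← pS_eq, ← pS_eq, ← pS_eq, ← pS_eq] at key
    linarith
  · have hpos : (0 : ℝ) ≤ ((p : ℕ) : ℝ) ^ (-s) := by positivity
    have hroot : ∀ w : ℂ → Prop, (∀ σ : F →+* ℂ, w (σ (π.b p) - 2)) →
        (∀ u, w u → u = -2 ∨ u = -1 ∨ u = 2 ∨ u ^ 2 + u - 1 = 0) →
        ∀ (σ : F →+* ℂ) (z : ℂ), ((π.ad.A p).charpoly.map σ).IsRoot z → z ^ 30 = 1 := by
      intro w hw1 hw2 σ z hz
      have h2 : ((π.ad.A p).charpoly.map σ) = (adMat (σ (π.b p))).charpoly := by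
        show (adMat (π.b p)).charpoly.map σ = _
        rw [← Matrix.charpoly_map, adMat_map]
      rw [h2] at hz
      rcases adMat_charpoly_root hz with h4 | h4
      · rw [h4, one_pow]
      · exact pow_thirty h4 (hw2 _ (hw1 σ))
    set Q : ℕ → Prop := fun p => π.Good p ∧ ∀ (σ : F →+* ℂ) (z : ℂ),
      ((π.ad.A p).charpoly.map σ).IsRoot z → z ^ 30 = 1 with hQ
    have hq0 := mul_nonneg (ind_nonneg Q p) hpos
    by_cases hgood : π.Good p
    · by_cases h0 : π.b p = 0
      · rw [ind_neg (P := π.One), ind_neg (P := π.Four), ind_neg (P := π.Gol), ind_pos (P := Q)]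
        · have := mul_le_mul_of_nonneg_right (ind_le_one π.Zer p) hpos
          linarith
        · refine ⟨hgood, hroot (fun u => u = -2) (fun σ => ?_) (fun u hu => Or.inl hu)⟩
          show σ (π.b p) - 2 = -2
          rw [h0, map_zero]
          ring
        · rintro ⟨-, h9⟩
          rw [h0] at h9
          norm_num at h9
        · rintro ⟨-, h9⟩
          rw [h0] at h9
          norm_num at h9
        · rintro ⟨-, h9⟩
          rw [h0] at h9
          norm_num at h9
      by_cases h1 : π.b p = 1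
      · rw [ind_neg (P := π.Zer) (fun h => h0 h.2), ind_neg (P := π.Four), ind_neg (P := π.Gol),
          ind_pos (P := Q)]
        · have := mul_le_mul_of_nonneg_right (ind_le_one π.One p) hpos
          linarith
        · refine ⟨hgood, hroot (fun u => u = -1) (fun σ => ?_) (fun u hu => Or.inr (Or.inl hu))⟩
          show σ (π.b p) - 2 = -1
          rw [h1, map_one]
          ring
        · rintro ⟨-, h9⟩
          rw [h1] at h9
          norm_num at h9
        · rintro ⟨-, h9⟩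
          rw [h1] at h9
          norm_num at h9
      by_cases h4 : π.b p = 4
      · rw [ind_neg (P := π.Zer) (fun h => h0 h.2), ind_neg (P := π.One) (fun h => h1 h.2),
          ind_neg (P := π.Gol), ind_pos (P := Q)]
        · have := mul_le_mul_of_nonneg_right (ind_le_one π.Four p) hpos
          linarith
        · refine ⟨hgood, hroot (fun u => u = 2) (fun σ => ?_)
            (fun u hu => Or.inr (Or.inr (Or.inl hu)))⟩
          show σ (π.b p) - 2 = 2
          rw [h4, map_ofNat]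
          ring
        · rintro ⟨-, h9⟩
          rw [h4] at h9
          norm_num at h9
      rw [ind_neg (P := π.Zer) (fun h => h0 h.2), ind_neg (P := π.One) (fun h => h1 h.2),
        ind_neg (P := π.Four) (fun h => h4 h.2)]
      by_cases hgold : π.Gol p
      · rw [ind_pos hgold, ind_pos (P := Q)]
        · linarith
        · refine ⟨hgood, hroot (fun u => u ^ 2 + u - 1 = 0) (fun σ => ?_)
            (fun u hu => Or.inr (Or.inr (Or.inr hu)))⟩
          show (σ (π.b p) - 2) ^ 2 + (σ (π.b p) - 2) - 1 = 0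
          have := congrArg σ hgold.2
          rw [map_add, map_sub, map_mul, map_pow, map_one, map_ofNat, map_zero] at this
          linear_combination this
      · rw [ind_neg hgold]
        linarith
    · rw [ind_neg (P := π.Zer) (fun h => hgood h.1), ind_neg (P := π.One) (fun h => hgood h.1),
        ind_neg (P := π.Four) (fun h => hgood h.1), ind_neg (P := π.Gol) (fun h => hgood h.1)]
      linarith

end AdjointSystem

end Pool.Agent.H70A
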