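import Pool.Agent.W_7742aa_h70.Defs

/-! Traces and characteristic polynomials of the matrices `adMat`, `symMat`. -/

set_option autoImplicit false

noncomputable section

namespace Pool.Agent.H70A

open Polynomial

variable {R : Type} [CommRing R]

/-- The matrix of determinant `1` and trace `w`. -/
def mw (w : R) : Matrix (Fin 2) (Fin 2) R := !![w, -1; 1, 0]

def blk3 (P : Matrix (Fin 2) (Fin 2) R) : Matrix (Fin 3) (Fin 3) R :=
  !![1, 0, 0;
     0, P 0 0, P 0 1;
     0, P 1 0, P 1 1]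

def blk5 (P Q : Matrix (Fin 2) (Fin 2) R) : Matrix (Fin 5) (Fin 5) R :=
  !![1, 0, 0, 0, 0;
     0, P 0 0, P 0 1, 0, 0;
     0, P 1 0, P 1 1, 0, 0;
     0, 0, 0, Q 0 0, Q 0 1;
     0, 0, 0, Q 1 0, Q 1 1]

lemma blk3_one : blk3 (1 : Matrix (Fin 2) (Fin 2) R) = 1 := by
  ext i j; fin_cases i <;> fin_cases j <;> simp [blk3]

lemma blk5_one : blk5 (1 : Matrix (Fin 2) (Fin 2) R) 1 = 1 := by
  ext i j; fin_cases i <;> fin_cases j <;> simp [blk5]

lemma blk3_mul (P Q : Matrix (Fin 2) (Fin 2) R) : blk3 (P * Q) = blk3 P * blk3 Q := by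
  ext i j
  fin_cases i <;> fin_cases j <;> simp [blk3, Matrix.mul_apply, Fin.sum_univ_succ]

lemma blk5_mul (P Q P' Q' : Matrix (Fin 2) (Fin 2) R) :
    blk5 (P * P') (Q * Q') = blk5 P Q * blk5 P' Q' := by
  ext i j
  fin_cases i <;> fin_cases j <;> simp [blk5, Matrix.mul_apply, Fin.sum_univ_succ]

lemma blk3_pow (P : Matrix (Fin 2) (Fin 2) R) (k : ℕ) : blk3 P ^ k = blk3 (P ^ k) := by
  induction k with
  | zero => rw [pow_zero, pow_zero, blk3_one]
  | succ k ih => rw [pow_succ, pow_succ, ih, blk3_mul]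

lemma blk5_pow (P Q : Matrix (Fin 2) (Fin 2) R) (k : ℕ) : blk5 P Q ^ k = blk5 (P ^ k) (Q ^ k) := by
  induction k with
  | zero => rw [pow_zero, pow_zero, pow_zero, blk5_one]
  | succ k ih => rw [pow_succ, pow_succ, pow_succ, ih, blk5_mul]

lemma blk3_trace (P : Matrix (Fin 2) (Fin 2) R) : (blk3 P).trace = 1 + P.trace := by
  simp [blk3, Matrix.trace, Fin.sum_univ_succ]

lemma blk5_trace (P Q : Matrix (Fin 2) (Fin 2) R) :
    (blk5 P Q).trace = 1 + P.trace + Q.trace := by
  simp [blk5, Matrix.trace, Fin.sum_univ_succ]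
  ring

lemma adMat_eq (b : R) : adMat b = blk3 (mw (b - 2)) := by
  ext i j; fin_cases i <;> fin_cases j <;> simp [blk3, adMat, mw]

lemma symMat_eq (b : R) : symMat b = blk5 (mw (b - 2)) (mw (b - 2) ^ 2) := by
  ext i j; fin_cases i <;> fin_cases j <;>
    simp [blk5, symMat, mw, sq, Matrix.mul_apply, Fin.sum_univ_succ]
  ring

/-- The trace of the powers of `mw w`. -/
def cw (w : R) (k : ℕ) : R := (Chebyshev.C R k).eval w

lemma cw_zero (w : R) : cw w 0 = 2 := by simp [cw]

lemma cw_one (w : R) : cw w 1 = w := by simp [cw]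

lemma cw_add_two (w : R) (k : ℕ) : cw w (k + 2) = w * cw w (k + 1) - cw w k := by
  unfold cw
  have h := Chebyshev.C_add_two R (k : ℤ)
  push_cast
  rw [h]
  simp

lemma cw_sq (x : R) (k : ℕ) : cw (x ^ 2 - 2) k = cw x k ^ 2 - 2 := by
  unfold cw
  have h1 := Chebyshev.C_mul R (k : ℤ) 2
  have h2 := Chebyshev.C_mul R 2 (k : ℤ)
  rw [mul_comm, h2] at h1
  have h3 := congrArg (Polynomial.eval x) h1
  rw [Polynomial.eval_comp, Polynomial.eval_comp, Chebyshev.C_two] at h3
  simp at h3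
  exact h3.symm

lemma mw_sq (w : R) : mw w ^ 2 = w • mw w - 1 := by
  ext i j; fin_cases i <;> fin_cases j <;> simp [mw, sq, Matrix.mul_apply, Fin.sum_univ_succ]
  ring

lemma mw_trace (w : R) (k : ℕ) : (mw w ^ k).trace = cw w k := by
  induction k using Nat.twoStepInduction with
  | zero => simp [cw_zero]
  | one => simp [cw_one, mw]
  | more k h1 h2 =>
    rw [cw_add_two, ← h1, ← h2, pow_add, mw_sq, mul_sub, mul_smul_comm, ← pow_succ, mul_one,
      Matrix.trace_sub, Matrix.trace_smul, smul_eq_mul]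

/-- `|α ^ k + β ^ k|²` in terms of `b = |α + β|²`. -/
def bw (b : R) (k : ℕ) : R := cw (b - 2) k + 2

lemma bw_one (b : R) : bw b 1 = b := by
  unfold bw
  rw [cw_one]
  ring

lemma adMat_trace (b : R) (k : ℕ) : (adMat b ^ k).trace = bw b k - 1 := by
  rw [adMat_eq, blk3_pow, blk3_trace, mw_trace, bw]
  ring

lemma symMat_trace (b : R) (k : ℕ) : (symMat b ^ k).trace = bw b k ^ 2 - 3 * bw b k + 1 := by
  rw [symMat_eq, blk5_pow, blk5_trace, ← pow_mul, mw_trace, mw_trace, bw]
  have h : cw (b - 2) (2 * k) = cw (b - 2) k ^ 2 - 2 := by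
    unfold cw
    have h2 := Chebyshev.C_mul R 2 (k : ℤ)
    push_cast
    rw [h2, Polynomial.eval_comp, Chebyshev.C_two]
    simp
  rw [h]
  ring

lemma adMat_det (b : R) : (adMat b).det = 1 := by
  simp [adMat, Matrix.det_fin_three]

lemma adMat_map {S : Type} [CommRing S] (f : R →+* S) (b : R) :
    (adMat b).map f = adMat (f b) := by
  have h2 : f 2 = 2 := map_ofNat f 2
  ext i j; fin_cases i <;> fin_cases j <;> simp [adMat, h2]

lemma symMat_map {S : Type} [CommRing S] (f : R →+* S) (b : R) :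
    (symMat b).map f = symMat (f b) := by
  have h2 : f 2 = 2 := map_ofNat f 2
  ext i j; fin_cases i <;> fin_cases j <;> simp [symMat, h2]

lemma cw_map {S : Type} [CommRing S] (f : R →+* S) (w : R) (k : ℕ) :
    f (cw w k) = cw (f w) k := by
  induction k using Nat.twoStepInduction with
  | zero => rw [cw_zero, cw_zero, map_ofNat]
  | one => rw [cw_one, cw_one]
  | more k h1 h2 => rw [cw_add_two, cw_add_two, map_sub, map_mul, h1, h2]

lemma bw_map {S : Type} [CommRing S] (f : R →+* S) (b : R) (k : ℕ) :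
    f (bw b k) = bw (f b) k := by
  unfold bw
  rw [map_add, cw_map, map_sub, map_ofNat]

lemma bw_nonneg {b : ℝ} (hb : 0 ≤ b) (k : ℕ) : 0 ≤ bw b k := by
  have h := cw_sq (Real.sqrt b) k
  rw [Real.sq_sqrt hb] at h
  unfold bw
  rw [h]
  have := sq_nonneg (cw (Real.sqrt b) k)
  linarith

lemma cw_cos (θ : ℝ) (k : ℕ) : cw (2 * Real.cos θ) k = 2 * Real.cos (k * θ) := by
  unfold cw
  have h := congrArg (Polynomial.eval (Real.cos θ)) (Chebyshev.C_comp_two_mul_X ℝ (k : ℤ))
  rw [Polynomial.eval_comp] at h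
  simp only [Polynomial.eval_mul, Polynomial.eval_ofNat, Polynomial.eval_X] at h
  rw [h, Chebyshev.T_real_cos]
  simp

lemma bw_le {b : ℝ} (h0 : 0 ≤ b) (h4 : b ≤ 4) (k : ℕ) : bw b k ≤ 4 := by
  have h1 : b - 2 = 2 * Real.cos (Real.arccos ((b - 2) / 2)) := by
    rw [Real.cos_arccos (by linarith) (by linarith)]
    ring
  unfold bw
  rw [h1, cw_cos]
  have := Real.cos_le_one (k * Real.arccos ((b - 2) / 2))
  linarith

/-! ## The characteristic polynomial of `symMat` -/

lemma mw_charpoly (w : R) : (mw w).charpoly = X ^ 2 - C w * X + 1 := by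
  nontriviality R
  rw [Matrix.charpoly_fin_two]
  simp [mw, Matrix.det_fin_two]

lemma mw2_charpoly (w : R) : (mw w ^ 2).charpoly = X ^ 2 - C (w ^ 2 - 2) * X + 1 := by
  nontriviality R
  rw [Matrix.charpoly_fin_two, Matrix.det_pow, mw_trace]
  have h1 : (mw w).det = 1 := by simp [mw, Matrix.det_fin_two]
  have h2 : cw w 2 = w ^ 2 - 2 := by
    rw [show (2 : ℕ) = 0 + 2 from rfl, cw_add_two, cw_zero, zero_add, cw_one]
    ring
  rw [h1, h2, one_pow, map_one]

lemma symMat_charpoly (b : R) : (symMat b).charpoly =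
    (X - 1) * ((X ^ 2 - C (b - 2) * X + 1) * (X ^ 2 - C ((b - 2) ^ 2 - 2) * X + 1)) := by
  nontriviality R
  have h : symMat b = Matrix.reindex (((Equiv.refl (Fin 1)).sumCongr finSumFinEquiv).trans
      finSumFinEquiv) (((Equiv.refl (Fin 1)).sumCongr finSumFinEquiv).trans finSumFinEquiv)
      (Matrix.fromBlocks (1 : Matrix (Fin 1) (Fin 1) R) 0 0
        (Matrix.fromBlocks (mw (b - 2)) 0 0 (mw (b - 2) ^ 2))) := by
    rw [symMat_eq]
    ext i j
    fin_cases i <;> fin_cases j <;> rfl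
  rw [h, Matrix.charpoly_reindex, Matrix.charpoly_fromBlocks_zero₁₂,
    Matrix.charpoly_fromBlocks_zero₁₂, mw_charpoly, mw2_charpoly]
  congr 1
  simp [Matrix.charpoly, Matrix.charmatrix]

lemma symMat_charpoly' (b : R) : (symMat b).charpoly =
    X ^ 5 - C (b ^ 2 - 3 * b + 1) * X ^ 4 + C ((b - 2) * (b ^ 2 - 3 * b + 1)) * X ^ 3 -
      C ((b - 2) * (b ^ 2 - 3 * b + 1)) * X ^ 2 + C (b ^ 2 - 3 * b + 1) * X - 1 := by
  have h2 : C (2 : R) = 2 := map_ofNat C 2
  have h3 : C (3 : R) = 3 := map_ofNat C 3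
  rw [symMat_charpoly]
  simp only [map_sub, map_add, map_mul, map_pow, map_one, h2, h3]
  ring

lemma symMat_coeff4 (b : R) : (symMat b).charpoly.coeff 4 = -(b ^ 2 - 3 * b + 1) := by
  rw [symMat_charpoly']
  generalize (b - 2) * (b ^ 2 - 3 * b + 1) = v
  generalize b ^ 2 - 3 * b + 1 = u
  simp [coeff_one, coeff_X_pow]

lemma symMat_coeff3 (b : R) :
    (symMat b).charpoly.coeff 3 = (b - 2) * (b ^ 2 - 3 * b + 1) := by
  rw [symMat_charpoly']
  generalize (b - 2) * (b ^ 2 - 3 * b + 1) = v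
  generalize b ^ 2 - 3 * b + 1 = u
  simp [coeff_one, coeff_X_pow]

lemma symMat_det (b : R) : (symMat b).det = 1 := by
  rw [Matrix.det_eq_sign_charpoly_coeff, symMat_charpoly']
  generalize (b - 2) * (b ^ 2 - 3 * b + 1) = v
  generalize b ^ 2 - 3 * b + 1 = u
  have h : (X ^ 5 - C u * X ^ 4 + C v * X ^ 3 - C v * X ^ 2 + C u * X - 1 : R[X]).coeff 0 = -1 := by
    simp [coeff_one, coeff_X_pow]
  rw [h, Fintype.card_fin]
  ring

lemma adMat_coeff2 (b : R) : (adMat b).charpoly.coeff 2 = -(b - 1) := by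
  nontriviality R
  have h := Matrix.trace_eq_neg_charpoly_coeff (adMat b)
  have h1 := adMat_trace b 1
  rw [pow_one, bw_one] at h1
  rw [h1] at h
  simp only [Fintype.card_fin] at h
  rw [h]
  simp

/-- Integrality of the coefficients of the characteristic polynomials. -/
lemma charpoly_integral {F : Type} [Field F] {n : ℕ} (A : (integralClosure ℤ F) →
    Matrix (Fin n) (Fin n) (integralClosure ℤ F)) (B : F → Matrix (Fin n) (Fin n) F)
    (h : ∀ c, (A c).map (algebraMap (integralClosure ℤ F) F) = B c) {b : F} (hb : IsIntegral ℤ b)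
    (i : ℕ) : IsIntegral ℤ ((B b).charpoly.coeff i) := by
  have h1 := h ⟨b, hb⟩
  have h2 : ((⟨b, hb⟩ : integralClosure ℤ F) : F) = b := rfl
  rw [h2] at h1
  rw [← h1, Matrix.charpoly_map, Polynomial.coeff_map]
  exact ((A ⟨b, hb⟩).charpoly.coeff i).2

lemma two_integral {F : Type} [Field F] : IsIntegral ℤ (2 : F) := by
  have := isIntegral_algebraMap (R := ℤ) (A := F) (x := 2)
  simpa using this

lemma cw_integral {F : Type} [Field F] {w : F} (hw : IsIntegral ℤ w) (k : ℕ) :
    IsIntegral ℤ (cw w k) := by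
  induction k using Nat.twoStepInduction with
  | zero =>
    rw [cw_zero]
    exact two_integral
  | one =>
    rw [cw_one]
    exact hw
  | more k h1 h2 =>
    rw [cw_add_two]
    exact (hw.mul h2).sub h1

lemma bw_integral {F : Type} [Field F] {b : F} (hb : IsIntegral ℤ b) (k : ℕ) :
    IsIntegral ℤ (bw b k) :=
  (cw_integral (hb.sub two_integral) k).add two_integral

lemma adMat_integral {F : Type} [Field F] {b : F} (hb : IsIntegral ℤ b) (i : ℕ) :
    IsIntegral ℤ ((adMat b).charpoly.coeff i) :=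
  charpoly_integral (fun c => adMat c) (fun c => adMat c)
    (fun c => adMat_map (algebraMap (integralClosure ℤ F) F) c) hb i

lemma symMat_integral {F : Type} [Field F] {b : F} (hb : IsIntegral ℤ b) (i : ℕ) :
    IsIntegral ℤ ((symMat b).charpoly.coeff i) :=
  charpoly_integral (fun c => symMat c) (fun c => symMat c)
    (fun c => symMat_map (algebraMap (integralClosure ℤ F) F) c) hb i

end Pool.Agent.H70A
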