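import Pool.Agent.W_7742p_h74.KMom
import Pool.Agent.W_7742p_h74.KAmg

/-! Sums over primes and prime powers. -/

set_option autoImplicit false

noncomputable section

namespace Pool.Agent.H70A

open Filter Topology ComplexConjugate
open Pool.Agent.H74E (pk pk_nonneg pk_eq)
open Pool.Agent.H74E.SatakeSystem (ind ind_pos ind_neg ind_nonneg ind_le_one)
open Pool.Agent.H74V.SatakeSystem (primeSum pS_eq pS_true pS_mono ind_summable lt_two pS_large)

/-- `L = log (1 / (s - 1))`. -/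
def LL (s : ℝ) : ℝ := Real.log (1 / (s - 1))

lemma LL_eq (s : ℝ) : LL s = -Real.log (s - 1) := by
  unfold LL
  rw [one_div, Real.log_inv]

lemma no_bound {c C : ℝ} (hc : 0 < c) (h : ∀ᶠ s in 𝓝[>] (1 : ℝ), c * LL s ≤ C) : False := by
  obtain ⟨s, h1, h2⟩ := ((Maass74.tendsto_neg_log.eventually_ge_atTop ((C + 1) / c)).and h).exists
  rw [LL_eq] at h2
  have h3 := mul_le_mul_of_nonneg_left h1 hc.le
  rw [mul_div_cancel₀ _ hc.ne'] at h3
  linarith

/-- The sum over the bad primes is bounded. -/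
lemma bad_le {N : ℕ} (hN : 0 < N) {s : ℝ} (hs : 1 < s) :
    primeSum (fun p => p ∣ N) s ≤ (N.primeFactors.card : ℝ) := by
  have hset : {p : ℕ | p.Prime ∧ p ∣ N} = (N.primeFactors : Set ℕ) := by
    ext p
    simp [Nat.mem_primeFactors, hN.ne']
  have e1 : primeSum (fun p => p ∣ N) s =
      ∑' p : (N.primeFactors : Set ℕ), ((p : ℕ) : ℝ) ^ (-s) := by
    rw [← hset]
    rfl
  rw [e1, Finset.tsum_subtype' N.primeFactors (fun p : ℕ => (p : ℝ) ^ (-s)),
    Finset.card_eq_sum_ones]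
  push_cast
  refine Finset.sum_le_sum fun p hp => ?_
  have h1p : (1 : ℝ) ≤ (p : ℝ) := by
    exact_mod_cast (Nat.prime_of_mem_primeFactors hp).one_lt.le
  exact Real.rpow_le_one_of_one_le_of_nonpos h1p (by linarith)

/-- The sum over the good primes is at least `L - C`. -/
lemma good_ge {N : ℕ} (hN : 0 < N) : ∃ C : ℝ, ∀ᶠ s in 𝓝[>] (1 : ℝ),
    LL s ≤ primeSum (fun p => p.Prime ∧ ¬ p ∣ N) s + C := by
  obtain ⟨C, hC⟩ := Maass74.neg_log_le_primes
  refine ⟨C + N.primeFactors.card, ?_⟩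
  filter_upwards [hC, self_mem_nhdsWithin] with s h1 h2
  have hs : (1 : ℝ) < s := h2
  have h3 := bad_le hN hs
  have h4 : primeSum (fun _ => True) s ≤ primeSum (fun p => p ∣ N) s +
      primeSum (fun p => p.Prime ∧ ¬ p ∣ N) s := by
    rw [pS_true, pS_eq, pS_eq, ← (ind_summable _ hs).tsum_add (ind_summable _ hs)]
    refine (Nat.Primes.summable_rpow.2 (by linarith : -s < -1)).tsum_le_tsum (fun p => ?_)
      ((ind_summable _ hs).add (ind_summable _ hs))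
    have hpos : (0 : ℝ) ≤ ((p : ℕ) : ℝ) ^ (-s) := by positivity
    have n0 := mul_nonneg (ind_nonneg (fun p => p ∣ N) p) hpos
    have n1 := mul_nonneg (ind_nonneg (fun p => p.Prime ∧ ¬ p ∣ N) p) hpos
    by_cases hpN : (p : ℕ) ∣ N
    · rw [ind_pos (P := fun p => p ∣ N) hpN] at n0 ⊢
      linarith
    · rw [ind_pos (P := fun p => p.Prime ∧ ¬ p ∣ N) ⟨p.2, hpN⟩] at n1 ⊢
      linarith
  rw [LL_eq]
  rw [← pS_true] at h1
  linarith

/-- The sum over all primes is at most `L + C`. -/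
lemma true_le : ∃ C : ℝ, ∀ᶠ s in 𝓝[>] (1 : ℝ), primeSum (fun _ => True) s ≤ LL s + C := by
  have hc : Tendsto H74E.z1 (𝓝[>] 1) (𝓝 (H74E.z1 1)) :=
    (H74E.z1_analytic one_pos).continuousAt.tendsto.mono_left nhdsWithin_le_nhds
  have hz := H74E.z1_pos one_pos
  have hlt : ∀ᶠ s in 𝓝[>] (1 : ℝ), H74E.z1 s < 2 * H74E.z1 1 := hc.eventually_lt_const (by linarith)
  refine ⟨Real.log (2 * H74E.z1 1), ?_⟩
  filter_upwards [hlt, self_mem_nhdsWithin] with s h1 h2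
  have hs : (1 : ℝ) < s := h2
  have hpos : 0 < s - 1 := by linarith
  have h3 : primeSum (fun _ => True) s ≤ ∑' x, pk s x := by
    rw [pS_true]
    have hinj : Function.Injective fun p : Nat.Primes => (p, (0 : ℕ)) := fun p q hpq =>
      (Prod.mk.inj hpq).1
    have e : (fun p : Nat.Primes => ((p : ℕ) : ℝ) ^ (-s)) =
        (pk s) ∘ fun p : Nat.Primes => (p, (0 : ℕ)) := by
      funext p
      rw [Function.comp_apply, pk_eq]
      simp
    rw [e]
    exact tsum_comp_le_tsum_of_inj (H74E.summable_pk hs) (fun x => pk_nonneg s x) hinj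
  have h4 : Real.exp (∑' x, pk s x) = H74E.z1 s / (s - 1) := by
    rw [H74E.z1_pk hs]
    field_simp
  have h5 : ∑' x, pk s x = Real.log (H74E.z1 s / (s - 1)) := by rw [← h4, Real.log_exp]
  have h6 : Real.log (H74E.z1 s / (s - 1)) ≤ Real.log (2 * H74E.z1 1 / (s - 1)) :=
    Real.log_le_log (div_pos (H74E.z1_pos (by linarith)) hpos)
      (div_le_div_of_nonneg_right h1.le hpos.le)
  rw [Real.log_div (show 2 * H74E.z1 1 ≠ 0 by positivity) hpos.ne'] at h6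
  rw [LL_eq]
  linarith

/-- Restriction to the primes. -/
lemma restrict {T : Nat.Primes × ℕ → ℝ} (hT : ∀ x, 0 ≤ T x) {s : ℝ}
    (hs : Summable fun x => T x * pk s x) :
    (Summable fun p : Nat.Primes => T (p, 0) * ((p : ℕ) : ℝ) ^ (-s)) ∧
      ∑' p : Nat.Primes, T (p, 0) * ((p : ℕ) : ℝ) ^ (-s) ≤ ∑' x, T x * pk s x := by
  have hinj : Function.Injective fun p : Nat.Primes => (p, (0 : ℕ)) := fun p q hpq =>
    (Prod.mk.inj hpq).1
  have e : (fun p : Nat.Primes => T (p, 0) * ((p : ℕ) : ℝ) ^ (-s)) =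
      (fun x => T x * pk s x) ∘ fun p : Nat.Primes => (p, (0 : ℕ)) := by
    funext p
    rw [Function.comp_apply, pk_eq]
    simp
  rw [e]
  exact ⟨hs.comp_injective hinj,
    tsum_comp_le_tsum_of_inj hs (fun x => mul_nonneg (hT x) (pk_nonneg s x)) hinj⟩

/-- The bound for the weights of the higher prime powers. -/
def hp (x : Nat.Primes × ℕ) : ℝ := 2 * (((x.1 : ℕ) : ℝ) ^ (-(2 : ℝ)) * (1 / 2) ^ x.2)

lemma hp_nonneg (x : Nat.Primes × ℕ) : 0 ≤ hp x := by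
  unfold hp
  positivity

lemma hp_summable : Summable hp :=
  (Summable.mul_of_nonneg (f := fun p : Nat.Primes => ((p : ℕ) : ℝ) ^ (-(2 : ℝ)))
      (g := fun k : ℕ => (1 / 2 : ℝ) ^ k) (H74E.summable_primes_rpow (by norm_num))
      (summable_geometric_of_lt_one (by norm_num) (by norm_num))
      (fun p => by positivity) (fun k => by positivity)).mul_left 2

lemma pk_le_hp {s : ℝ} (hs : 1 < s) {x : Nat.Primes × ℕ} (hx : x.2 ≠ 0) : pk s x ≤ hp x := by
  obtain ⟨p, k⟩ := x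
  obtain ⟨m, rfl⟩ : ∃ m, k = m + 1 := ⟨k - 1, by simp only at hx; omega⟩
  rw [pk_eq]
  unfold hp
  simp only
  have hpp : (0 : ℝ) < ((p : ℕ) : ℝ) := by exact_mod_cast p.2.pos
  have h1p : (1 : ℝ) ≤ ((p : ℕ) : ℝ) := by exact_mod_cast p.2.one_lt.le
  have h2p : (2 : ℝ) ≤ ((p : ℕ) : ℝ) := by exact_mod_cast p.2.two_le
  have h1 : ((p : ℕ) : ℝ) ^ (-s) ≤ ((p : ℕ) : ℝ) ^ (-(1 : ℝ)) :=
    Real.rpow_le_rpow_of_exponent_le h1p (by linarith)
  have h2 : (((p : ℕ) : ℝ) ^ (-s)) ^ (m + 1 + 1) ≤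
      (((p : ℕ) : ℝ) ^ (-(1 : ℝ))) ^ (m + 1 + 1) :=
    pow_le_pow_left₀ (by positivity) h1 _
  have h3 : (((p : ℕ) : ℝ) ^ (-(1 : ℝ))) ^ (m + 1 + 1) =
      ((p : ℕ) : ℝ) ^ (-(2 : ℝ)) * (((p : ℕ) : ℝ) ^ (-(1 : ℝ))) ^ m := by
    rw [show m + 1 + 1 = 2 + m by ring, pow_add, ← Real.rpow_natCast (_ ^ _) 2,
      ← Real.rpow_mul hpp.le]
    norm_num
  have h4 : ((p : ℕ) : ℝ) ^ (-(1 : ℝ)) ≤ 1 / 2 := by
    rw [Real.rpow_neg_one, one_div]
    exact inv_anti₀ (by norm_num) h2p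
  have h5 : (((p : ℕ) : ℝ) ^ (-(1 : ℝ))) ^ m ≤ (1 / 2) ^ m :=
    pow_le_pow_left₀ (by positivity) h4 _
  have h6 : 0 ≤ (((p : ℕ) : ℝ) ^ (-s)) ^ (m + 1 + 1) := by positivity
  have h7 : (1 : ℝ) ≤ ((m + 1 : ℕ) : ℝ) + 1 := by
    have : (0 : ℝ) ≤ ((m + 1 : ℕ) : ℝ) := Nat.cast_nonneg _
    linarith
  calc (((p : ℕ) : ℝ) ^ (-s)) ^ (m + 1 + 1) / (((m + 1 : ℕ) : ℝ) + 1)
      ≤ (((p : ℕ) : ℝ) ^ (-s)) ^ (m + 1 + 1) := div_le_self h6 h7
    _ ≤ ((p : ℕ) : ℝ) ^ (-(2 : ℝ)) * (((p : ℕ) : ℝ) ^ (-(1 : ℝ))) ^ m := h2.trans_eq h3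
    _ ≤ ((p : ℕ) : ℝ) ^ (-(2 : ℝ)) * (1 / 2) ^ m := mul_le_mul_of_nonneg_left h5 (by positivity)
    _ = _ := by rw [pow_succ]; ring

/-- Removing the higher prime powers. -/
lemma high {T : Nat.Primes × ℕ → ℝ} (hT : ∀ x, 0 ≤ T x) {c : ℝ} (hc : 0 ≤ c)
    (hTc : ∀ x : Nat.Primes × ℕ, x.2 ≠ 0 → T x ≤ c) {s : ℝ} (hs1 : 1 < s)
    (hs : Summable fun x => T x * pk s x) :
    ∑' x, T x * pk s x ≤ ∑' p : Nat.Primes, T (p, 0) * ((p : ℕ) : ℝ) ^ (-s) + c * ∑' x, hp x := by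
  classical
  set F : Nat.Primes × ℕ → ℝ := fun x => if x.2 = 0 then T x * pk s x else 0 with hF
  have hinj : Function.Injective fun p : Nat.Primes => (p, (0 : ℕ)) := fun p q hpq =>
    (Prod.mk.inj hpq).1
  have hF0 : ∀ x, 0 ≤ F x := fun x => by
    rw [hF]
    simp only
    split_ifs
    · exact mul_nonneg (hT x) (pk_nonneg s x)
    · exact le_rfl
  have hFle : ∀ x, F x ≤ T x * pk s x := fun x => by
    rw [hF]
    simp only
    split_ifs
    · exact le_rfl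
    · exact mul_nonneg (hT x) (pk_nonneg s x)
  have hFs : Summable F := Summable.of_nonneg_of_le hF0 hFle hs
  have hFt : ∑' x, F x = ∑' p : Nat.Primes, T (p, 0) * ((p : ℕ) : ℝ) ^ (-s) := by
    rw [← hinj.tsum_eq (f := F)]
    · refine tsum_congr fun p => ?_
      rw [hF]
      simp only [if_true]
      rw [pk_eq]
      simp
    · intro x hx
      by_contra hcon
      apply hx
      rw [hF]
      simp only
      rw [if_neg]
      intro h0
      exact hcon ⟨x.1, Prod.ext rfl h0.symm⟩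
  have hle : ∀ x, T x * pk s x ≤ F x + c * hp x := by
    intro x
    rw [hF]
    simp only
    split_ifs with h0
    · have := mul_nonneg hc (hp_nonneg x)
      linarith
    · have h1 := mul_le_mul_of_nonneg_right (hTc x h0) (pk_nonneg s x)
      have h2 := mul_le_mul_of_nonneg_left (pk_le_hp hs1 h0) hc
      linarith
  rw [← hFt, ← hp_summable.tsum_mul_left c, ← hFs.tsum_add (hp_summable.mul_left c)]
  exact hs.tsum_le_tsum hle (hFs.add (hp_summable.mul_left c))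

/-- The difference of a pair. -/
lemma pair_diff {t t' : Nat.Primes × ℕ → ℂ} (h : GL74.PairAsy t t') :
    ∃ C : ℝ, ∀ s : ℝ, 1 < s → s ≤ 2 → (Summable fun x => ‖t x - t' x‖ ^ 2 * pk s x) ∧
      |∑' x, ‖t x - t' x‖ ^ 2 * pk s x - 2 * LL s| ≤ C := by
  obtain ⟨C, hC⟩ := h
  refine ⟨3 * C, fun s hs hs2 => ?_⟩
  obtain ⟨c1, c2, -, c4, c5⟩ := hC s hs hs2
  have h3 := GL74.moment_summable_pair c1 c2
  have h4 : Summable fun x => (t x * conj (t' x) * (pk s x : ℂ)).re := (Complex.hasSum_re h3.hasSum).summable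
  have e1 : (fun x => ‖t x - t' x‖ ^ 2 * pk s x) = fun x => ‖t x‖ ^ 2 * pk s x + ‖t' x‖ ^ 2 * pk s x -
      2 * (t x * conj (t' x) * (pk s x : ℂ)).re := by
    funext x
    have e2 : (t x * conj (t' x) * (pk s x : ℂ)).re = (t x * conj (t' x)).re * pk s x := by
      rw [Complex.re_mul_ofReal]
    rw [e2, ← Complex.normSq_eq_norm_sq, ← Complex.normSq_eq_norm_sq, ← Complex.normSq_eq_norm_sq,
      Complex.normSq_sub]
    ring
  have h5 : Summable fun x => ‖t x - t' x‖ ^ 2 * pk s x := by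
    rw [e1]
    exact (c1.add c2).sub (h4.mul_left 2)
  refine ⟨h5, ?_⟩
  rw [e1, (c1.add c2).tsum_sub (h4.mul_left 2), c1.tsum_add c2, h4.tsum_mul_left 2,
    ← Complex.re_tsum h3]
  have h6 := (Complex.abs_re_le_norm _).trans c5
  rw [Complex.add_re, Complex.sub_re, Complex.ofReal_re, Complex.ofReal_re] at h6
  have h7 := abs_le.1 h6
  have h8 := abs_le.1 c4
  unfold LL
  rw [abs_le]
  constructor <;> linarith [h7.1, h7.2, h8.1, h8.2]

end Pool.Agent.H70A
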