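import Pool.Agent.W_7742aa_h70.Mat
import Pool.Agent.W_7742p_h74.KStm

/-! Definitions for the statement: integral elements `b p` of a number field (the squares of the
absolute values of the Hecke eigenvalues of a form on `GL₂`) and the systems of Satake classes of
the adjoint representations on `GL₃` and `GL₅`. -/

set_option autoImplicit false

noncomputable section

namespace Pool.Agent.H70A

open Pool.Agent.H74V

/-- Integral elements `b p` of a number field `F` for the primes `p` not dividing the level. -/
structure AdjointSystem (F : Type) [Field F] [NumberField F] where
  /-- the level -/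
  level : ℕ
  level_pos : 0 < level
  /-- the elements -/
  b : ℕ → F
  integral : ∀ p, p.Prime → ¬ p ∣ level → IsIntegral ℤ (b p)

namespace AdjointSystem

variable {F : Type} [Field F] [NumberField F] (π : AdjointSystem F)

/-- The prime `p` does not divide the level. -/
def Good (p : ℕ) : Prop := p.Prime ∧ ¬ p ∣ π.level

/-- The elements `b p` generate the field. -/
def Generates : Prop := IntermediateField.adjoin ℚ {x : F | ∃ p, π.Good p ∧ x = π.b p} = ⊤

/-- The conjugate `σ (b)` belongs to a form on `GL₂`: there is a nonzero cusp form on `GL₂` of level
`level` and some character with Hecke polynomials `P p` (see `GLForm74.IsCuspidalSystem`; the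
eigenvalue under `T_{p,1}` is `- p ^ (1 / 2) * (P p).coeff 1`) such that
`σ (b p) = |(P p).coeff 1|²` for all `p` not dividing the level. -/
def IsSquareModulus (σ : F →+* ℂ) : Prop :=
  ∃ P : ℕ → Polynomial ℂ, GLForm74.IsCuspidalSystem π.level P 2 ∧
    ∀ p, π.Good p → σ (π.b p) = ((‖(P p).coeff 1‖ ^ 2 : ℝ) : ℂ)

/-- The system of the adjoint square: the Satake classes `adMat (b p)` on `GL₃`. -/
def ad : SatakeSystem F 3 where
  level := π.level
  level_pos := π.level_pos
  A := fun p => adMat (π.b p)
  det_ne_zero := fun p _ _ => by
    rw [adMat_det]
    exact one_ne_zero
  integral := fun p hp hN i => adMat_integral (π.integral p hp hN) i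

/-- The system of the adjoint fourth power: the Satake classes `symMat (b p)` on `GL₅`. -/
def sym : SatakeSystem F 5 where
  level := π.level
  level_pos := π.level_pos
  A := fun p => symMat (π.b p)
  det_ne_zero := fun p _ _ => by
    rw [symMat_det]
    exact one_ne_zero
  integral := fun p hp hN i => symMat_integral (π.integral p hp hN) i

end AdjointSystem

end Pool.Agent.H70A
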