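import Pool.Agent.W_7742aa_h70.Cub
import Pool.Agent.W_7742aa_h70.Gram
import Pool.Agent.W_7742aa_h70.Chr
import Pool.Agent.W_7742aa_h70.Dns
import Pool.Agent.W_7742p_h74.KPol

/-! Unitarity of the classes on `GL₂`, the classes of the twists of the cube. -/

set_option autoImplicit false

noncomputable section

namespace Pool.Agent.H70A

open Filter Topology ComplexConjugate Pool.Agent.GL74 Pool.Agent.GLForm74
open Pool.Agent.H74E (pk pk_nonneg pk_eq)

/-- The unitary relations for the Satake classes on `GL₂`. -/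
lemma gl2_unitary {N : ℕ} (hN : 0 < N) {M : ℕ → Matrix (Fin 2) (Fin 2) ℂ}
    (h : GLForm74.IsCuspidalSystem N (fun p => (M p).charpoly) 2) {p : ℕ} (hp : p.Prime)
    (hpN : ¬ p ∣ N) : ‖(M p).det‖ = 1 ∧ (M p).trace = (M p).det * conj (M p).trace := by
  obtain ⟨χ, f, hf, hne, he⟩ := h
  obtain ⟨h1, h2⟩ := adj_rel (s := 0) hN hf hne hp hpN
    (fun k => (-1) ^ k * (M p).charpoly.coeff (2 - k))
    (fun k h1 h2 g hg => he p hp hpN k h1 h2 g hg)
  have c0 : (M p).charpoly.coeff 0 = (M p).det := by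
    rw [Matrix.charpoly_fin_two]
    simp [Polynomial.coeff_C, Polynomial.coeff_X_pow]
  have c1 : (M p).charpoly.coeff 1 = -(M p).trace := by
    rw [Matrix.charpoly_fin_two]
    simp [Polynomial.coeff_X, Polynomial.coeff_C, Polynomial.coeff_X_pow]
  simp only [zero_add, Nat.sub_self, even_two, Even.neg_pow, one_pow, one_mul, c0] at h1
  have h3 := h2 1 le_rfl (by norm_num)
  simp only [zero_add, pow_one, show 2 - 1 = 1 from rfl, c1] at h3
  rw [h1]
  refine ⟨?_, ?_⟩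
  · have hu : IsUnit ((p : ℕ) : ZMod N) := (ZMod.isUnit_iff_coprime p _).2
      ((Nat.Prime.coprime_iff_not_dvd hp).2 hpN)
    obtain ⟨u, hu⟩ := hu
    rw [← hu, Complex.norm_conj]
    exact DirichletCharacter.unit_norm_eq_one χ u
  · simpa using h3

lemma inv_unitary {M : Matrix (Fin 2) (Fin 2) ℂ} (hδ : ‖M.det‖ = 1)
    (hτ : M.trace = M.det * conj M.trace) :
    ‖(M⁻¹).det‖ = 1 ∧ (M⁻¹).trace = (M⁻¹).det * conj (M⁻¹).trace ∧
      ‖(M⁻¹).trace‖ = ‖M.trace‖ := by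
  have hδ0 : M.det ≠ 0 := by
    intro h
    rw [h, norm_zero] at hδ
    exact zero_ne_one hδ
  have e1 : (M⁻¹).det = conj M.det := by
    rw [Matrix.det_nonsing_inv, Ring.inverse_eq_inv', Complex.inv_def, Complex.normSq_eq_norm_sq, hδ]
    simp
  have e2 : (M⁻¹).trace = conj M.trace := by
    rw [Matrix.inv_def, Matrix.trace_smul, Matrix.adjugate_fin_two, Ring.inverse_eq_inv']
    have : (!![M 1 1, -M 0 1; -M 1 0, M 0 0] : Matrix (Fin 2) (Fin 2) ℂ).trace = M.trace := by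
      simp [Matrix.trace, Fin.sum_univ_succ]
      ring
    rw [this, smul_eq_mul, inv_mul_eq_div, div_eq_iff hδ0, mul_comm]
    exact hτ
  rw [e1, e2, Complex.conj_conj, Complex.norm_conj, Complex.norm_conj]
  refine ⟨hδ, ?_, rfl⟩
  conv_lhs => rw [hτ]
  rw [map_mul, Complex.conj_conj]

lemma cubMat_inv {M : Matrix (Fin 2) (Fin 2) ℂ} (h : M.det ≠ 0) :
    (cubMat M)⁻¹ = cubMat M⁻¹ := by
  apply Matrix.inv_eq_right_inv
  have hu : IsUnit M.det := isUnit_iff_ne_zero.2 h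
  have h1 : M * M⁻¹ = 1 := Matrix.mul_nonsing_inv M hu
  rw [cubMat_eq, cubMat_eq, ← blk4_mul, Matrix.det_nonsing_inv, Ring.inverse_eq_inv']
  have e1 : M ^ 3 * M⁻¹ ^ 3 = 1 := by
    have hc : Commute M M⁻¹ := by
      rw [Commute, SemiconjBy, h1, Matrix.nonsing_inv_mul M hu]
    rw [← hc.mul_pow, h1, one_pow]
  have e2 : (M.det • M) * (M.det⁻¹ • M⁻¹) = 1 := by
    rw [smul_mul_smul_comm, h1, mul_inv_cancel₀ h, one_smul]
  rw [e1, e2, blk4_one]

/-- The traces of the twists of the cube. -/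
lemma norm_twist {M : Matrix (Fin 2) (Fin 2) ℂ} (hδ : ‖M.det‖ = 1)
    (hτ : M.trace = M.det * conj M.trace) {J : ℂ} (hJ : ‖J‖ = 1) (k : ℕ) :
    ‖(((J • cubMat M)⁻¹) ^ k).trace‖ ^ 2 =
      bw (‖M.trace‖ ^ 2) k * (bw (‖M.trace‖ ^ 2) k - 2) ^ 2 := by
  have hδ0 : M.det ≠ 0 := by
    intro h
    rw [h, norm_zero] at hδ
    exact zero_ne_one hδ
  have hJ0 : J ≠ 0 := by
    intro h
    rw [h, norm_zero] at hJ
    exact zero_ne_one hJ
  have e1 : (J • cubMat M)⁻¹ = J⁻¹ • cubMat M⁻¹ := by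
    rw [← cubMat_inv hδ0]
    apply Matrix.inv_eq_right_inv
    have hu : IsUnit (cubMat M).det := by
      rw [cubMat_det]
      exact isUnit_iff_ne_zero.2 (pow_ne_zero 6 hδ0)
    rw [smul_mul_smul_comm, Matrix.mul_nonsing_inv _ hu, mul_inv_cancel₀ hJ0, one_smul]
  obtain ⟨h1, h2, h3⟩ := inv_unitary hδ hτ
  rw [e1, smul_pow, Matrix.trace_smul, smul_eq_mul, norm_mul, norm_pow, norm_inv, hJ, inv_one,
    one_pow, one_mul, norm_trace_cub h1 h2, h3]

lemma norm_det_twist {M : Matrix (Fin 2) (Fin 2) ℂ} (hδ : ‖M.det‖ = 1) {J : ℂ} (hJ : ‖J‖ = 1) :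
    ‖(J • cubMat M).det‖ = 1 := by
  rw [Matrix.det_smul, cubMat_det, norm_mul, norm_pow, norm_pow, hδ, hJ]
  norm_num

end Pool.Agent.H70A
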