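import Pool.Agent.W_7742aa_h70.TwA
import Pool.Agent.W_7742aa_h70.Fin

/-! The mean of `|tr Sym³|²` is at least one. -/

set_option autoImplicit false

noncomputable section

namespace Pool.Agent.H70A

open Filter Topology ComplexConjugate Pool.Agent.GL74 Pool.Agent.GLForm74
open Pool.Agent.H74E (pk pk_nonneg pk_eq)
open Pool.Agent.H74E.SatakeSystem (ind ind_pos ind_neg ind_nonneg ind_le_one)
open Pool.Agent.H74V.SatakeSystem (tin_eq family_asy family_one ts primeSum pS_eq pS_true lt_two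
  ind_summable)

variable {F : Type} [Field F] [NumberField F] {π : AdjointSystem F}

namespace AdjointSystem

variable {σ₁ σ₂ : F →+* ℂ}

/-- Two of the twists are different. -/
theorem exists_differ (h : Hyp π σ₁ σ₂) {N' q q' : ℕ} (hN' : 0 < N') (hNN' : π.level ∣ N')
    (hq : q.Prime) (hq' : q'.Prime) (hne : q ≠ q') (h2 : q ≠ 2) (hqN : q ∣ N') (hqN' : q' ∣ N')
    (σ : F →+* ℂ) : ∃ p : ℕ, p.Prime ∧ ¬ p ∣ N' ∧ jacobiSym p q ≠ jacobiSym p q' ∧
      π.r σ p ≠ 0 ∧ π.r σ p ≠ 2 := by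
  by_contra hcon
  push Not at hcon
  obtain ⟨C0, k0⟩ := differ_ge hN' hq hq' hne h2 hqN hqN'
  obtain ⟨C2, k2⟩ := family_one (by norm_num) h.hAd σ₁
  obtain ⟨C2', k2'⟩ := family_one (by norm_num) h.hAd σ₂
  obtain ⟨C4, k4⟩ := golden_sum h.hg h.hs h.hAd h.hE h.hne
  refine no_bound (c := 1 / 10) (C := C0 + 1 / 2 * (C2 + C2') + 3 / 2 * C4) (by norm_num) ?_
  filter_upwards [k0, k4, lt_two, self_mem_nhdsWithin] with s f0 f4 e1 e2
  have hs1 : (1 : ℝ) < s := e2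
  obtain ⟨m2, n2⟩ := k2 s hs1 e1.le
  obtain ⟨m2', n2'⟩ := k2' s hs1 e1.le
  obtain ⟨p2, q2⟩ := restrict (T := fun x => ‖π.ad.ts σ₁ x‖ ^ 2) (fun x => sq_nonneg _) m2
  obtain ⟨p2', q2'⟩ := restrict (T := fun x => ‖π.ad.ts σ₂ x‖ ^ 2) (fun x => sq_nonneg _) m2'
  have E2 := (p2.hasSum.add p2'.hasSum).mul_left (1 / 2)
  have key := hasSum_le (fun p : Nat.Primes => ?_)
    ((ind_summable (fun p => p.Prime ∧ ¬ p ∣ N' ∧ jacobiSym p q ≠ jacobiSym p q') hs1).hasSum.add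
      ((ind_summable π.Gol hs1).hasSum.mul_left (3 / 2))) E2
  · rw [← pS_eq, ← pS_eq] at key
    have f5 := (abs_le.1 f4).1
    unfold LL at *
    linarith
  · have hpos : (0 : ℝ) ≤ ((p : ℕ) : ℝ) ^ (-s) := by positivity
    have key2 : ind (fun p => p.Prime ∧ ¬ p ∣ N' ∧ jacobiSym p q ≠ jacobiSym p q') p +
        3 / 2 * ind π.Gol p ≤ e₂ π σ₁ σ₂ p := by
      rcases cases_p h.hg h.hs h.hAd h.hSym h.hE h.hne p with
        ⟨h1, h2, h3, h4⟩ | ⟨m, h1, hm, h2, h3, h4, h5⟩ | ⟨h1, h2, h3, h4, h5⟩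
      · rw [ind_neg (fun h => h1 h.1 : ¬ π.Gol p), h3, ind_neg]
        · norm_num
        · rintro ⟨h6, h7, -⟩
          exact h1 ⟨h6, fun h8 => h7 (h8.trans hNN')⟩
      · rw [ind_neg h2, h4]
        by_cases hD : (p : ℕ).Prime ∧ ¬ (p : ℕ) ∣ N' ∧ jacobiSym p q ≠ jacobiSym p q'
        · rw [ind_pos (P := fun p => p.Prime ∧ ¬ p ∣ N' ∧ jacobiSym p q ≠ jacobiSym p q') hD]
          have h6 : π.r σ p = m := by
            unfold r
            rw [hm, map_natCast, Complex.natCast_re]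
          have h7 := hcon p hD.1 hD.2.1 hD.2.2
          rw [h6] at h7
          by_cases hm0 : (m : ℝ) = 0
          · rw [hm0]
            norm_num
          · rw [h7 hm0]
            norm_num
        · rw [ind_neg (P := fun p => p.Prime ∧ ¬ p ∣ N' ∧ jacobiSym p q ≠ jacobiSym p q') hD]
          have := sq_nonneg ((m : ℝ) - 1)
          linarith
      · rw [ind_pos h2, h4, ind_neg]
        · norm_num
        · rintro ⟨h6, h7, h8⟩
          have h9 := hcon p h6 h7 h8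
          have hr : π.r σ p ^ 2 - 3 * π.r σ p + 1 = 0 := by
            have h10 := congrArg σ h2.2
            rw [map_add, map_sub, map_mul, map_pow, map_one, map_ofNat, map_zero,
              r_eq (h.hs σ) h1] at h10
            exact_mod_cast h10
          by_cases h0 : π.r σ p = 0
          · rw [h0] at hr
            norm_num at hr
          · rw [h9 h0] at hr
            norm_num at hr
    have h5 := mul_le_mul_of_nonneg_right key2 hpos
    unfold e₂ at h5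
    linarith

/-- The quantity `|tr Sym³|²` at the prime powers. -/
def q₃ (π : AdjointSystem F) (σ : F →+* ℂ) (N' : ℕ) (x : Nat.Primes × ℕ) : ℝ :=
  if (x.1 : ℕ) ∣ N' then 0 else bw (π.r σ x.1) (x.2 + 1) * (bw (π.r σ x.1) (x.2 + 1) - 2) ^ 2

/-- The mean of `|tr Sym³|²` is at least `1 - 1 / m`. -/
theorem cube_lower (h : Hyp π σ₁ σ₂) {σ : F →+* ℂ} (hC : π.HasCube σ) {m : ℕ} (hm : 0 < m) :
    ∃ N' : ℕ, 0 < N' ∧ π.level ∣ N' ∧ ∃ C : ℝ, ∀ s : ℝ, 1 < s → s ≤ 2 →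
      (Summable fun x => π.q₃ σ N' x * pk s x) ∧
      (1 - 1 / (m : ℝ)) * LL s ≤ ∑' x, π.q₃ σ N' x * pk s x + C := by
  classical
  obtain ⟨M, hM, hb, hT⟩ := hC
  obtain ⟨Q, hQs, hQc⟩ :=
    (Nat.infinite_setOfPred_prime_modEq_one (k := 4) (by norm_num)).exists_subset_card_eq m
  have hQ : ∀ q ∈ Q, q.Prime ∧ q % 4 = 1 := fun q hq => by
    obtain ⟨h1, h2⟩ := hQs hq
    exact ⟨h1, h2⟩
  obtain ⟨N', χ, f, hN', hNN', hqN', hf, hW⟩ := hT Q hQ
  refine ⟨N', hN', hNN', ?_⟩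
  have hgood : ∀ p : ℕ, p.Prime → ¬ p ∣ N' → π.Good p := fun p hp hpN =>
    ⟨hp, fun h8 => hpN (h8.trans hNN')⟩
  have hu : ∀ p : ℕ, p.Prime → ¬ p ∣ N' → ‖(M p).det‖ = 1 ∧
      (M p).trace = (M p).det * conj (M p).trace := fun p hp hpN =>
    gl2_unitary π.level_pos hM hp (hgood p hp hpN).2
  have hJ : ∀ q ∈ Q, ∀ p : ℕ, p.Prime → ¬ p ∣ N' → ‖((jacobiSym p q : ℤ) : ℂ)‖ = 1 := by
    intro q hq p hp hpN
    have : NeZero q := ⟨(hQ q hq).1.ne_zero⟩
    have h1 : jacobiSym p q = 1 ∨ jacobiSym p q = -1 := by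
      refine jacobiSym.eq_one_or_neg_one ?_
      rw [Int.gcd_natCast_natCast]
      refine (Nat.coprime_primes hp (hQ q hq).1).2 ?_
      rintro rfl
      exact hpN (hqN' _ hq)
    rcases h1 with h1 | h1 <;> rw [h1] <;> simp
  have hrM : ∀ p : ℕ, p.Prime → ¬ p ∣ N' → ‖(M p).trace‖ ^ 2 = π.r σ p := by
    intro p hp hpN
    unfold r
    rw [hb p (hgood p hp hpN), Complex.ofReal_re]
  set t : {q // q ∈ Q} → Nat.Primes × ℕ → ℂ := fun q =>
    tin (fun p => p.Prime ∧ ¬ p ∣ N') fun p => ((jacobiSym p q.1 : ℤ) : ℂ) • cubMat (M p) with ht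
  have hval : ∀ q x, ‖t q x‖ ^ 2 = π.q₃ σ N' x := by
    intro q x
    unfold q₃
    by_cases hx : (x.1 : ℕ) ∣ N'
    · have e : t q x = 0 := if_neg (show ¬ ((x.1 : ℕ).Prime ∧ ¬ (x.1 : ℕ) ∣ N') from
        fun h => h.2 hx)
      rw [e, if_pos hx, norm_zero]
      norm_num
    · have e : t q x = (((((jacobiSym x.1 q.1 : ℤ) : ℂ) • cubMat (M x.1))⁻¹) ^ (x.2 + 1)).trace :=
        if_pos (show (x.1 : ℕ).Prime ∧ ¬ (x.1 : ℕ) ∣ N' from ⟨x.1.2, hx⟩)
      rw [e, if_neg hx]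
      obtain ⟨h1, h2⟩ := hu x.1 x.1.2 hx
      rw [norm_twist h1 h2 (hJ q.1 q.2 x.1 x.1.2 hx), hrM x.1 x.1.2 hx]
  have h1 : ∀ q, ∃ C : ℝ, ∀ s : ℝ, 1 < s → s ≤ 2 → (Summable fun x => ‖t q x‖ ^ 2 * pk s x) ∧
      ∑' x, ‖t q x‖ ^ 2 * pk s x ≤ Real.log (1 / (s - 1)) + C := by
    intro q
    obtain ⟨g1, g2, g3⟩ := hf q.1 q.2
    have hw := weakRS (s := 2) hN' g1 g2
      (B := fun p => ((jacobiSym p q.1 : ℤ) : ℂ) • cubMat (M p)) g3
    have h0 : ∀ x, 0 ≤ TT (fun p => p.Prime ∧ ¬ p ∣ N')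
        (fun p => ((jacobiSym p q.1 : ℤ) : ℂ) • cubMat (M p)) x := by
      intro x
      rw [← tin_tt]
      positivity
    obtain ⟨C, hC⟩ := hw.log_le h0
    refine ⟨C, fun s hs hs2 => ?_⟩
    have e : (fun x => ‖t q x‖ ^ 2 * pk s x) = fun x => TT (fun p => p.Prime ∧ ¬ p ∣ N')
        (fun p => ((jacobiSym p q.1 : ℤ) : ℂ) • cubMat (M p)) x * pk s x := by
      funext x
      rw [← tin_tt]
    rw [e]
    exact ⟨hw.summable h0 hs, hC s hs hs2⟩
  have h2 : ∀ q q', q ≠ q' → PairAsy (t q) (t q') := by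
    intro q q' hne
    obtain ⟨g1, g2, g3⟩ := hf q.1 q.2
    obtain ⟨g1', g2', g3'⟩ := hf q'.1 q'.2
    have hne' : q.1 ≠ q'.1 := fun h => hne (Subtype.ext h)
    have hq2 : q.1 ≠ 2 := by
      have := (hQ q.1 q.2).2
      intro h
      rw [h] at this
      norm_num at this
    have hP : PairRS (t q) (t q') := by
      refine pairRS (s := 2) hN' g1 g1' g2 g2' g3 g3' ?_ ?_
      · obtain ⟨p, hp, hpN, hJne, hr0, hr2⟩ := exists_differ h hN' hNN' (hQ q.1 q.2).1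
          (hQ q'.1 q'.2).1 hne' hq2 (hqN' _ q.2) (hqN' _ q'.2) σ
        refine ⟨p, hp, hpN, 1, le_rfl, by norm_num, ?_⟩
        have htr : ∀ A : Matrix (Fin 4) (Fin 4) ℂ, A.charpoly.coeff (2 + 2 - 1) = -A.trace := by
          intro A
          rw [Matrix.trace_eq_neg_charpoly_coeff, neg_neg, Fintype.card_fin]
        rw [htr, htr, Matrix.trace_smul, Matrix.trace_smul]
        have hC0 : (cubMat (M p)).trace ≠ 0 := by
          intro h0
          obtain ⟨v1, v2⟩ := hu p hp hpN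
          have := norm_trace_cub v1 v2 1
          rw [pow_one, h0, norm_zero, bw_one, hrM p hp hpN] at this
          have h3 : π.r σ p * (π.r σ p - 2) ^ 2 = 0 := by rw [← this]; norm_num
          rcases mul_eq_zero.1 h3 with h4 | h4
          · exact hr0 h4
          · exact hr2 (by have := pow_eq_zero_iff (two_ne_zero) |>.1 h4; linarith)
        intro h3
        apply hJne
        have h4 := mul_right_cancel₀ hC0 (neg_injective h3)
        exact_mod_cast h4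
      · intro m hm
        have b1 := isP_tof g1
        have b2 := isP_tof g1'
        obtain ⟨C1, hC1⟩ := b1.bdd
        obtain ⟨C2, hC2⟩ := b2.bdd
        refine wh_eq (C := max C1 C2) b1.meas b2.meas (fun g => (hC1 g).trans (le_max_left _ _))
          (fun g => (hC2 g).trans (le_max_right _ _)) (fun g hg => ?_)
        refine hW q'.1 q'.2 q.1 q.2 _ (fun j hj => ?_) g hg
        have hj' : j < 2 + 1 := by omega
        have e1 : ext m j = m ⟨j, hj'⟩ := by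
          unfold ext
          rw [dif_pos hj']
        rw [e1]
        refine ⟨(hm _).1, fun p hp hpm => ?_⟩
        by_contra hcon
        exact (hm ⟨j, hj'⟩).2 p ⟨hp, hcon⟩ hpm
    have hdet : ∀ q : {q // q ∈ Q}, ∀ p : ℕ, p.Prime → ¬ p ∣ N' →
        ‖(((jacobiSym p q.1 : ℤ) : ℂ) • cubMat (M p)).det‖ = 1 := fun q p hp hpN =>
      norm_det_twist (hu p hp hpN).1 (hJ q.1 q.2 p hp hpN)
    exact hP.asy (div_single (by norm_num) hN' (hdet q)) (div_single (by norm_num) hN' (hdet q'))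
      (div_pair (by norm_num) hN' (hdet q) (hdet q'))
  have hcard : (Fintype.card {q // q ∈ Q} : ℝ) = m := by
    rw [Fintype.card_coe, hQc]
  obtain ⟨q0, hq0⟩ : Q.Nonempty := by
    rw [← Finset.card_pos, hQc]
    exact hm
  obtain ⟨C, hC⟩ := gram t h1 h2 ⟨q0, hq0⟩
  refine ⟨C, fun s hs hs2 => ?_⟩
  have h3 := hC s hs hs2
  rw [hcard] at h3
  simp only [hval] at h3
  obtain ⟨C', hC'⟩ := h1 ⟨q0, hq0⟩
  have h4 := (hC' s hs hs2).1
  simp only [hval] at h4
  exact ⟨h4, h3⟩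

end AdjointSystem

end Pool.Agent.H70A
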