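import Pool.Agent.W_7742aa_h70.Sys

/-! Definitions for the statement: the symmetric cube and its quadratic twists. -/

set_option autoImplicit false

noncomputable section

namespace Pool.Agent.H70A

/-- The matrix `diag (M ³, det M • M)`.  If `α`, `β` are the eigenvalues of `M` then its eigenvalues
are `α³, β³, α² β, α β²`, those of the symmetric cube of `M`. -/
def cubMat {R : Type} [CommRing R] (M : Matrix (Fin 2) (Fin 2) R) : Matrix (Fin 4) (Fin 4) R :=
  !![(M ^ 3) 0 0, (M ^ 3) 0 1, 0, 0;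
     (M ^ 3) 1 0, (M ^ 3) 1 1, 0, 0;
     0, 0, M.det * M 0 0, M.det * M 0 1;
     0, 0, M.det * M 1 0, M.det * M 1 1]

/-- For every finite set `Q` of primes `q ≡ 1` modulo `4` there are nonzero cusp forms `f q` on
`GL_n`, for `q ∈ Q`, of a common level `N'` (divisible by `N` and by the `q ∈ Q`) and a common
character, with the Satake classes `(p | q) C p` (Jacobi symbol) for the primes `p` not dividing
`N'`, whose Whittaker functions with nonzero parameters `m` composed of primes dividing `N'` do not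
depend on `q`. -/
def HasQuadraticTwists {n : ℕ} (N : ℕ) (C : ℕ → Matrix (Fin n) (Fin n) ℂ) : Prop :=
  ∀ Q : Finset ℕ, (∀ q ∈ Q, q.Prime ∧ q % 4 = 1) →
    ∃ (N' : ℕ) (χ : DirichletCharacter ℂ N') (f : ℕ → Matrix (Fin n) (Fin n) ℝ → ℂ),
      0 < N' ∧ N ∣ N' ∧ (∀ q ∈ Q, q ∣ N') ∧
      (∀ q ∈ Q, GLForm74.IsCuspForm N' χ (f q) ∧ (∃ g, 0 < g.det ∧ f q g ≠ 0) ∧
        ∀ p : ℕ, p.Prime → ¬ p ∣ N' → ∀ k : ℕ, 1 ≤ k → k ≤ n → ∀ g, 0 < g.det →
          GLForm74.hecke χ p k (f q) g = (Real.sqrt p : ℂ) ^ (k * (n - k)) *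
            ((-1) ^ k * (((jacobiSym p q : ℤ) : ℂ) • C p).charpoly.coeff (n - k)) * f q g) ∧
      ∀ q ∈ Q, ∀ q' ∈ Q, ∀ m : ℕ → ℤ,
        (∀ j, j + 1 < n → m j ≠ 0 ∧ ∀ p : ℕ, p.Prime → (p : ℤ) ∣ m j → p ∣ N') →
          ∀ g, 0 < g.det → GLForm74.whittaker (f q) m g = GLForm74.whittaker (f q') m g

namespace AdjointSystem

variable {F : Type} [Field F] [NumberField F] (π : AdjointSystem F)

/-- There is a nonzero cusp form on `GL₂` with Satake classes `M p` such that
`σ (b p) = |tr M p|²`, and the symmetric cubes of the `M p` have quadratic twists on `GL₄`. -/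
def HasCube (σ : F →+* ℂ) : Prop :=
  ∃ M : ℕ → Matrix (Fin 2) (Fin 2) ℂ,
    GLForm74.IsCuspidalSystem π.level (fun p => (M p).charpoly) 2 ∧
    (∀ p, π.Good p → σ (π.b p) = ((‖(M p).trace‖ ^ 2 : ℝ) : ℂ)) ∧
    HasQuadraticTwists π.level fun p => cubMat (M p)

end AdjointSystem

end Pool.Agent.H70A
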