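import Pool.Agent.W_7742aa_h70.Sys
import Pool.Agent.W_7742aa_h70.Sum
import Pool.Agent.W_7742x_h74.QRS

/-! The mean of `σ (b p)` is at most one (Rankin-Selberg on `GL₂`). -/

set_option autoImplicit false

noncomputable section

namespace Pool.Agent.H70A

open Filter Topology ComplexConjugate Pool.Agent.GL74 Pool.Agent.GLForm74
open Pool.Agent.H74E (pk pk_nonneg pk_eq)

/-- The companion matrix of `X ^ 2 + a X + b`. -/
def comp2 (P : Polynomial ℂ) : Matrix (Fin 2) (Fin 2) ℂ :=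
  !![-(P.coeff 1), -(P.coeff 0); 1, 0]

lemma comp2_charpoly (P : Polynomial ℂ) : (comp2 P).charpoly =
    Polynomial.X ^ 2 + Polynomial.C (P.coeff 1) * Polynomial.X + Polynomial.C (P.coeff 0) := by
  rw [Matrix.charpoly_fin_two]
  simp [comp2, Matrix.det_fin_two]

lemma comp2_coeff1 (P : Polynomial ℂ) : (comp2 P).charpoly.coeff 1 = P.coeff 1 := by
  rw [comp2_charpoly]
  simp [Polynomial.coeff_X, Polynomial.coeff_C, Polynomial.coeff_X_pow]

lemma comp2_coeff0 (P : Polynomial ℂ) : (comp2 P).charpoly.coeff 0 = P.coeff 0 := by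
  rw [comp2_charpoly]
  simp [Polynomial.coeff_X, Polynomial.coeff_C, Polynomial.coeff_X_pow]

lemma comp2_inv_trace {P : Polynomial ℂ} (h : ‖P.coeff 0‖ = 1) :
    ‖((comp2 P)⁻¹).trace‖ = ‖P.coeff 1‖ := by
  have hdet : (comp2 P).det = P.coeff 0 := by simp [comp2, Matrix.det_fin_two]
  rw [Matrix.inv_def, Matrix.trace_smul, Matrix.adjugate_fin_two, hdet]
  have h1 : P.coeff 0 ≠ 0 := by
    intro h0
    rw [h0, norm_zero] at h
    exact zero_ne_one h
  rw [Ring.inverse_eq_inv', smul_eq_mul, norm_mul, norm_inv, h, inv_one, one_mul]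
  simp [comp2, Matrix.trace]

variable {F : Type} [Field F] [NumberField F] {π : AdjointSystem F}

namespace AdjointSystem

theorem b_mean {σ : F →+* ℂ} (h : π.IsSquareModulus σ) : ∃ C : ℝ, ∀ s : ℝ, 1 < s → s ≤ 2 →
    (Summable fun p : Nat.Primes =>
      (open Classical in if π.Good p then (σ (π.b p)).re else 0) * ((p : ℕ) : ℝ) ^ (-s)) ∧
    ∑' p : Nat.Primes, (open Classical in if π.Good p then (σ (π.b p)).re else 0) *
      ((p : ℕ) : ℝ) ^ (-s) ≤ LL s + C := by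
  classical
  obtain ⟨P, ⟨χ, f, hf, hne, he⟩, hb⟩ := h
  have hunit : ∀ p, π.Good p → ‖(P p).coeff 0‖ = 1 := by
    intro p hp
    have h1 := (adj_rel (s := 0) π.level_pos hf hne hp.1 hp.2
      (fun k => (-1) ^ k * (P p).coeff (2 - k)) (fun k h1 h2 g hg => he p hp.1 hp.2 k h1 h2 g hg)).1
    simp only [zero_add, Nat.sub_self, even_two, Even.neg_pow, one_pow, one_mul] at h1
    rw [h1]
    have hu : IsUnit ((p : ℕ) : ZMod π.level) := (ZMod.isUnit_iff_coprime p _).2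
      ((Nat.Prime.coprime_iff_not_dvd hp.1).2 hp.2)
    obtain ⟨u, hu⟩ := hu
    rw [← hu, Complex.norm_conj]
    exact DirichletCharacter.unit_norm_eq_one χ u
  have hw := weakRS (s := 0) (B := fun p => comp2 (P p)) π.level_pos hf hne
    (fun p hp hpN k hk1 hk2 g hg => by
      rw [he p hp hpN k hk1 hk2 g hg]
      have hk : k = 1 ∨ k = 2 := by omega
      rcases hk with rfl | rfl
      · rw [show 0 + 2 - 1 = 1 from rfl, comp2_coeff1]
      · rw [show 0 + 2 - 2 = 0 from rfl, comp2_coeff0])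
  have h0 : ∀ x, 0 ≤ TT (fun p => p.Prime ∧ ¬ p ∣ π.level) (fun p => comp2 (P p)) x := by
    intro x
    unfold TT
    split_ifs
    · positivity
    · exact le_rfl
  obtain ⟨C, hC⟩ := hw.log_le h0
  refine ⟨C, fun s hs hs2 => ?_⟩
  obtain ⟨r1, r2⟩ := restrict h0 (hw.summable h0 hs)
  have e : (fun p : Nat.Primes => TT (fun p => p.Prime ∧ ¬ p ∣ π.level) (fun p => comp2 (P p)) (p, 0) *
      ((p : ℕ) : ℝ) ^ (-s)) = fun p : Nat.Primes =>
      (if π.Good p then (σ (π.b p)).re else 0) * ((p : ℕ) : ℝ) ^ (-s) := by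
    funext p
    congr 1
    unfold TT
    by_cases hp : π.Good p
    · rw [if_pos hp, if_pos (show ((p : ℕ).Prime ∧ ¬ (p : ℕ) ∣ π.level) from hp)]
      simp only [zero_add, pow_one]
      rw [comp2_inv_trace (hunit p hp), hb p hp, Complex.ofReal_re]
    · rw [if_neg hp, if_neg (show ¬ ((p : ℕ).Prime ∧ ¬ (p : ℕ) ∣ π.level) from hp)]
  rw [e] at r1 r2
  exact ⟨r1, r2.trans (hC s hs hs2)⟩

/-- The real numbers `σ (b p)`. -/
def r (π : AdjointSystem F) (σ : F →+* ℂ) (p : ℕ) : ℝ := (σ (π.b p)).re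

lemma r_eq {σ : F →+* ℂ} (h : π.IsSquareModulus σ) {p : ℕ} (hp : π.Good p) :
    σ (π.b p) = ((π.r σ p : ℝ) : ℂ) := by
  obtain ⟨P, -, hb⟩ := h
  unfold r
  rw [hb p hp, Complex.ofReal_re]

lemma r_nonneg {σ : F →+* ℂ} (h : π.IsSquareModulus σ) {p : ℕ} (hp : π.Good p) :
    0 ≤ π.r σ p := by
  obtain ⟨P, -, hb⟩ := h
  unfold r
  rw [hb p hp, Complex.ofReal_re]
  positivity

end AdjointSystem

end Pool.Agent.H70A
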