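import Pool.Agent.W_7742aa_h70.Uni
import Pool.Agent.W_7742p_h74.KFam

/-! The traces of the powers of the Satake classes, pairs of embeddings. -/

set_option autoImplicit false

noncomputable section

namespace Pool.Agent.H70A

open Filter Topology ComplexConjugate Pool.Agent.GL74
open Pool.Agent.H74E (pk pk_nonneg pk_eq)
open Pool.Agent.H74V.SatakeSystem (tin_eq family_asy family_one ts)

variable {F : Type} [Field F] [NumberField F] {π : AdjointSystem F}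

namespace AdjointSystem

lemma r_bw {σ : F →+* ℂ} (h : π.IsSquareModulus σ) {p : ℕ} (hp : π.Good p) (k : ℕ) :
    σ (bw (π.b p) k) = ((bw (π.r σ p) k : ℝ) : ℂ) := by
  rw [bw_map, r_eq h hp]
  exact (bw_map Complex.ofRealHom (π.r σ p) k).symm

lemma ad_ts (hAd : π.ad.IsCuspidalFamily) {σ : F →+* ℂ} (h : π.IsSquareModulus σ)
    {x : Nat.Primes × ℕ} (hx : π.Good x.1) :
    π.ad.ts σ x = ((bw (π.r σ x.1) (x.2 + 1) - 1 : ℝ) : ℂ) := by
  rw [tin_eq (by norm_num) hAd σ hx]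
  show conj (σ (adMat (π.b x.1) ^ (x.2 + 1)).trace) = _
  rw [adMat_trace, map_sub, r_bw h hx, map_one]
  simp

lemma sym_ts (hSym : π.sym.IsCuspidalFamily) {σ : F →+* ℂ} (h : π.IsSquareModulus σ)
    {x : Nat.Primes × ℕ} (hx : π.Good x.1) :
    π.sym.ts σ x = ((bw (π.r σ x.1) (x.2 + 1) ^ 2 - 3 * bw (π.r σ x.1) (x.2 + 1) + 1 : ℝ) : ℂ) := by
  rw [tin_eq (by norm_num) hSym σ hx]
  show conj (σ (symMat (π.b x.1) ^ (x.2 + 1)).trace) = _
  rw [symMat_trace, map_add, map_sub, map_mul, map_pow, r_bw h hx, map_one, map_ofNat]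
  have e : ((bw (π.r σ x.1) (x.2 + 1) : ℝ) : ℂ) ^ 2 - 3 * ((bw (π.r σ x.1) (x.2 + 1) : ℝ) : ℂ) + 1 =
      ((bw (π.r σ x.1) (x.2 + 1) ^ 2 - 3 * bw (π.r σ x.1) (x.2 + 1) + 1 : ℝ) : ℂ) := by
    push_cast
    rfl
  rw [e, Complex.conj_ofReal]

lemma ad_ts_bad (σ : F →+* ℂ) {x : Nat.Primes × ℕ} (hx : ¬ π.Good x.1) : π.ad.ts σ x = 0 :=
  if_neg hx

lemma sym_ts_bad (σ : F →+* ℂ) {x : Nat.Primes × ℕ} (hx : ¬ π.Good x.1) : π.sym.ts σ x = 0 :=
  if_neg hx

lemma exists_b (hg : π.Generates) {σ τ : F →+* ℂ} (hne : σ ≠ τ) :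
    ∃ p, π.Good p ∧ σ (π.b p) ≠ τ (π.b p) := by
  by_contra hcon
  push Not at hcon
  refine hne ?_
  ext x
  refine Pool.Agent.H74W.Agr_adjoin (S := {x : F | ∃ p, π.Good p ∧ x = π.b p}) ?_ x ?_
  · rintro y ⟨p, hp, rfl⟩
    exact hcon p hp
  · rw [hg]
    trivial

lemma ad_asy (hg : π.Generates) (hAd : π.ad.IsCuspidalFamily) {σ τ : F →+* ℂ} (hne : σ ≠ τ) :
    PairAsy (π.ad.ts σ) (π.ad.ts τ) := by
  refine family_asy (by norm_num) hAd (fun p hp => ?_) ?_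
  · show σ (adMat (π.b p)).det = τ (adMat (π.b p)).det
    rw [adMat_det, map_one, map_one]
  · obtain ⟨p, hp, hb⟩ := exists_b hg hne
    refine ⟨p, 2, hp, ?_⟩
    show σ ((adMat (π.b p)).charpoly.coeff 2) ≠ τ ((adMat (π.b p)).charpoly.coeff 2)
    rw [adMat_coeff2, map_neg, map_neg, map_sub, map_sub, map_one, map_one]
    intro h
    exact hb (sub_left_injective (neg_injective h))

/-- The field generated by the coefficients of the characteristic polynomials on `GL₅`. -/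
def E5 (π : AdjointSystem F) : IntermediateField ℚ F :=
  IntermediateField.adjoin ℚ {x : F | ∃ p i, π.Good p ∧ x = (symMat (π.b p)).charpoly.coeff i}

lemma sym_asy (hSym : π.sym.IsCuspidalFamily) {σ τ : F →+* ℂ}
    (hne : ∃ x : F, x ∈ π.E5 ∧ σ x ≠ τ x) : PairAsy (π.sym.ts σ) (π.sym.ts τ) := by
  refine family_asy (by norm_num) hSym (fun p hp => ?_) ?_
  · show σ (symMat (π.b p)).det = τ (symMat (π.b p)).det
    rw [symMat_det, map_one, map_one]
  · by_contra hcon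
    obtain ⟨x, hx, hne⟩ := hne
    apply hne
    refine Pool.Agent.H74W.Agr_adjoin
      (S := {x : F | ∃ p i, π.Good p ∧ x = (symMat (π.b p)).charpoly.coeff i}) ?_ x hx
    rintro y ⟨p, i, hp, hy⟩
    rw [hy]
    by_contra h
    refine hcon ⟨p, i, hp, ?_⟩
    show σ ((symMat (π.b p)).charpoly.coeff i) ≠ τ ((symMat (π.b p)).charpoly.coeff i)
    exact h

lemma exists_lift (E : IntermediateField ℚ F) (τ : E →+* ℂ) :
    ∃ σ : F →+* ℂ, ∀ x : E, σ (x : F) = τ x := by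
  let _ := τ.toAlgebra
  exact ⟨(IsAlgClosed.lift (R := E) (S := F) (M := ℂ)).toRingHom,
    fun x => (IsAlgClosed.lift (R := E) (S := F) (M := ℂ)).commutes x⟩

end AdjointSystem

end Pool.Agent.H70A
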